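import Mathlib

/-!
Core of the deficiency bound for disjoint transversals in row-Latin rectangles
(`MP_884cd1_co`): Hall's theorem with deficiency, and the one-column estimates.
-/

namespace H884

open Finset

/-- Hall's theorem with deficiency `d`. -/
theorem defHall {ι : Type*} [Fintype ι] [DecidableEq ι] (D : Finset ι)
    (bad : ι → ι → Prop) [∀ x y, Decidable (bad x y)] (d : ℕ)
    (h : ∀ S ⊆ D, S.Nonempty → S.card + (univ.filter (fun y => ∀ x ∈ S, bad x y)).card
      ≤ Fintype.card ι + d) :
    ∃ D' ⊆ D, ∃ f : ι → ι, (∀ x ∈ D', ¬ bad x (f x)) ∧ Set.InjOn f D' ∧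
      D.card ≤ D'.card + d := by
  classical
  let t : D → Finset (ι ⊕ Fin d) := fun x =>
    (univ.filter (fun y => ¬ bad x.1 y)).disjSum univ
  have hall : ∀ S : Finset D, S.card ≤ (S.biUnion t).card := by
    intro S
    rcases S.eq_empty_or_nonempty with rfl | hne
    · simp
    let S' : Finset ι := S.map (Function.Embedding.subtype _)
    have hS'D : S' ⊆ D := by
      intro z hz
      rw [Finset.mem_map] at hz
      obtain ⟨w, _, rfl⟩ := hz
      exact w.2
    have hS'ne : S'.Nonempty := hne.map
    have hcS' : S'.card = S.card := Finset.card_map _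
    have h1 := h S' hS'D hS'ne
    have hsub : (univ.filter (fun y => ¬ ∀ x ∈ S', bad x y)).disjSum (univ : Finset (Fin d))
        ⊆ S.biUnion t := by
      intro z hz
      rw [Finset.mem_biUnion]
      rcases z with y | e
      · rw [Finset.inl_mem_disjSum, Finset.mem_filter] at hz
        have h2 := hz.2
        push Not at h2
        obtain ⟨x, hx, hxy⟩ := h2
        rw [Finset.mem_map] at hx
        obtain ⟨w, hw, rfl⟩ := hx
        refine ⟨w, hw, ?_⟩
        rw [Finset.inl_mem_disjSum, Finset.mem_filter]
        exact ⟨Finset.mem_univ _, hxy⟩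
      · obtain ⟨w, hw⟩ := hne
        refine ⟨w, hw, ?_⟩
        rw [Finset.inr_mem_disjSum]
        exact Finset.mem_univ _
    have h2 := Finset.card_le_card hsub
    rw [Finset.card_disjSum, Finset.card_univ (α := Fin d), Fintype.card_fin] at h2
    have h3 := Finset.card_filter_add_card_filter_not (s := (univ : Finset ι))
      (fun y => ∀ x ∈ S', bad x y)
    rw [Finset.card_univ] at h3
    omega
  obtain ⟨f, hf1, hf2⟩ := (Finset.all_card_le_biUnion_card_iff_exists_injective t).1 hall
  let D' : Finset ι := D.filter (fun x => ∃ hx : x ∈ D, ∃ y, f ⟨x, hx⟩ = Sum.inl y)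
  have hex : ∀ x ∈ D', ∃ y, ∃ hx : x ∈ D, f ⟨x, hx⟩ = Sum.inl y := by
    intro x hx
    obtain ⟨_, hx1, y, hy⟩ := Finset.mem_filter.1 hx
    exact ⟨y, hx1, hy⟩
  have hex' : ∀ x, ∃ y, x ∈ D' → ∃ hx : x ∈ D, f ⟨x, hx⟩ = Sum.inl y := by
    intro x
    by_cases hx : x ∈ D'
    · obtain ⟨y, hy⟩ := hex x hx
      exact ⟨y, fun _ => hy⟩
    · exact ⟨x, fun h => absurd h hx⟩
  choose g hg using hex'
  refine ⟨D', Finset.filter_subset _ _, g, ?_, ?_, ?_⟩
  · intro x hx
    obtain ⟨hxD, hy⟩ := hg x hx
    have h3 := hf2 ⟨x, hxD⟩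
    rw [hy, Finset.inl_mem_disjSum, Finset.mem_filter] at h3
    exact h3.2
  · intro x hx y hy hxy
    obtain ⟨hxD, hx1⟩ := hg x hx
    obtain ⟨hyD, hy1⟩ := hg y hy
    rw [hxy, ← hy1] at hx1
    exact congrArg Subtype.val (hf1 hx1)
  · have hsplit := Finset.card_filter_add_card_filter_not (s := D)
      (fun x => ∃ hx : x ∈ D, ∃ y, f ⟨x, hx⟩ = Sum.inl y)
    have hd : (D.filter (fun x => ¬ ∃ hx : x ∈ D, ∃ y, f ⟨x, hx⟩ = Sum.inl y)).card ≤ d := by
      let R := D.filter (fun x => ¬ ∃ hx : x ∈ D, ∃ y, f ⟨x, hx⟩ = Sum.inl y)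
      have hR : ∀ x : R, ∃ e : Fin d, f ⟨x.1, (Finset.mem_filter.1 x.2).1⟩ = Sum.inr e := by
        intro x
        have hx := Finset.mem_filter.1 x.2
        rcases hfx : f ⟨x.1, hx.1⟩ with y | e
        · exact absurd ⟨hx.1, y, hfx⟩ hx.2
        · exact ⟨e, rfl⟩
      choose e he using hR
      have hinj : Function.Injective e := by
        intro x y hxy
        have h4 := he x
        rw [hxy, ← he y] at h4
        have h5 := hf1 h4
        exact Subtype.ext (Subtype.mk.inj h5)
      have := Fintype.card_le_of_injective e hinj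
      rw [Fintype.card_coe, Fintype.card_fin] at this
      exact this
    change D.card ≤ (D.filter (fun x => ∃ hx : x ∈ D, ∃ y, f ⟨x, hx⟩ = Sum.inl y)).card + d
    omega

variable {ι κ : Type*} [Fintype ι] [DecidableEq ι] [DecidableEq κ]

omit [Fintype ι] in
/-- A class meeting both `S` and the blocked set contains at most `c` elements of `S`. -/
theorem class_S (D : Finset ι) (col : ι → κ) (F : ι → Finset κ) (used : ι → Finset ι) (c : ℕ)
    (hFx : ∀ x ∈ D, col x ∉ F x)
    (hused2 : ∀ y, (D.filter (fun x => y ∈ used x)).card ≤ c)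
    (S : Finset ι) (hS : S ⊆ D) (y : ι) (hy : ∀ x ∈ S, y ∈ used x ∨ col y ∈ F x) :
    (S.filter (fun x => col x = col y)).card ≤ c := by
  refine le_trans (Finset.card_le_card ?_) (hused2 y)
  intro x hx
  rw [Finset.mem_filter] at hx ⊢
  refine ⟨hS hx.1, ?_⟩
  rcases hy x hx.1 with h | h
  · exact h
  · exfalso
    rw [← hx.2] at h
    exact hFx x (hS hx.1) h

/-- The deficiency of one column is at most `c + n1 * c`. -/
theorem col_def (D : Finset ι) (col : ι → κ) (F : ι → Finset κ) (used : ι → Finset ι)
    (c n1 : ℕ) (hF : ∀ x ∈ D, (F x).card ≤ n1)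
    (hFx : ∀ x ∈ D, col x ∉ F x)
    (hused1 : ∀ x ∈ D, (used x).card ≤ c)
    (hused2 : ∀ y, (D.filter (fun x => y ∈ used x)).card ≤ c)
    (S : Finset ι) (hS : S ⊆ D) :
    S.card + (univ.filter (fun y => ∀ x ∈ S, y ∈ used x ∨ col y ∈ F x)).card
      ≤ Fintype.card ι + (c + n1 * c) := by
  set Y := univ.filter (fun y => ∀ x ∈ S, y ∈ used x ∨ col y ∈ F x) with hY
  have hmemY : ∀ y, y ∈ Y → ∀ x ∈ S, y ∈ used x ∨ col y ∈ F x := by
    intro y hy
    exact (Finset.mem_filter.1 hy).2
  have h1 := Finset.card_union_add_card_inter S Y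
  have h2 : (S ∪ Y).card ≤ Fintype.card ι := Finset.card_le_univ _
  have h3 : (S ∩ Y).card ≤ c + n1 * c := by
    rcases (S ∩ Y).eq_empty_or_nonempty with h | ⟨x, hx⟩
    · rw [h]; simp
    · rw [Finset.mem_inter] at hx
      have hxD := hS hx.1
      have hsub : S ∩ Y ⊆ used x ∪
          (F x).biUnion (fun a => (S ∩ Y).filter (fun z => col z = a)) := by
        intro z hz
        rw [Finset.mem_union]
        have hz' := Finset.mem_inter.1 hz
        rcases hmemY z hz'.2 x hx.1 with h | h
        · exact Or.inl h
        · right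
          rw [Finset.mem_biUnion]
          exact ⟨col z, h, Finset.mem_filter.2 ⟨hz, rfl⟩⟩
      refine le_trans (Finset.card_le_card hsub) ?_
      refine le_trans (Finset.card_union_le _ _) ?_
      refine add_le_add (hused1 x hxD) ?_
      refine le_trans Finset.card_biUnion_le ?_
      calc ∑ a ∈ F x, ((S ∩ Y).filter (fun z => col z = a)).card ≤ ∑ a ∈ F x, c := by
            apply Finset.sum_le_sum
            intro a _
            rcases ((S ∩ Y).filter (fun z => col z = a)).eq_empty_or_nonempty with h | ⟨y, hy⟩
            · rw [h]; simp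
            · rw [Finset.mem_filter, Finset.mem_inter] at hy
              refine le_trans (Finset.card_le_card ?_)
                (class_S D col F used c hFx hused2 S hS y (hmemY y hy.1.2))
              intro z hz
              rw [Finset.mem_filter, Finset.mem_inter] at hz
              rw [Finset.mem_filter]
              exact ⟨hz.1.1, by rw [hz.2, hy.2]⟩
        _ = (F x).card * c := by simp
        _ ≤ n1 * c := Nat.mul_le_mul_right _ (hF x hxD)
  omega

/-- No deficiency: the symbols of a set `H` occur at least `2 * c` times in the column, and the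
remaining rows are either absent or numerous compared with the frequency of their symbols. -/
theorem col_def_mixed (D : Finset ι) (col : ι → κ) (F : ι → Finset κ) (used : ι → Finset ι)
    (c n1 w w' : ℕ) (hF : ∀ x ∈ D, (F x).card ≤ n1)
    (hFx : ∀ x ∈ D, col x ∉ F x)
    (hused1 : ∀ x ∈ D, (used x).card ≤ c)
    (hused2 : ∀ y, (D.filter (fun x => y ∈ used x)).card ≤ c)
    (H : Set κ) [DecidablePred (· ∈ H)]
    (hheavy : ∀ x, col x ∈ H → 2 * c ≤ (univ.filter (fun y => col y = col x)).card)
    (hcls : ∀ a, a ∉ H → (univ.filter (fun y => col y = a)).card ≤ w)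
    (hF2 : ∀ a, a ∉ H → (D.filter (fun x => a ∈ F x)).card ≤ w')
    (hm : (∀ x, col x ∈ H) ∨
      2 * c + w' + n1 * w ≤ (univ.filter (fun x => ¬ col x ∈ H)).card)
    (S : Finset ι) (hS : S ⊆ D) :
    S.card + (univ.filter (fun y => ∀ x ∈ S, y ∈ used x ∨ col y ∈ F x)).card
      ≤ Fintype.card ι := by
  set Y := univ.filter (fun y => ∀ x ∈ S, y ∈ used x ∨ col y ∈ F x) with hY
  have hmemY : ∀ y, y ∈ Y → ∀ x ∈ S, y ∈ used x ∨ col y ∈ F x := by
    intro y hy
    exact (Finset.mem_filter.1 hy).2
  -- heavy classes
  have hcl : ∀ a ∈ univ.image col, ((S.filter (fun x => col x ∈ H)).filter (fun x => col x = a)).card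
      + ((Y.filter (fun x => col x ∈ H)).filter (fun x => col x = a)).card
      ≤ ((univ.filter (fun x => col x ∈ H)).filter (fun x => col x = a)).card := by
    intro a _
    by_cases haH : a ∈ H
    · have e : ∀ R : Finset ι, (R.filter (fun x => col x ∈ H)).filter (fun x => col x = a)
          = R.filter (fun x => col x = a) := by
        intro R
        ext x
        simp only [Finset.mem_filter]
        constructor
        · rintro ⟨⟨h1, _⟩, h2⟩
          exact ⟨h1, h2⟩
        · rintro ⟨h1, h2⟩
          exact ⟨⟨h1, h2 ▸ haH⟩, h2⟩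
      rw [e, e, e]
      rcases (S.filter (fun x => col x = a)).eq_empty_or_nonempty with h | ⟨x, hx⟩
      · rw [h]
        simp only [Finset.card_empty, zero_add]
        exact Finset.card_le_card (Finset.filter_subset_filter _ (Finset.subset_univ _))
      rcases (Y.filter (fun x => col x = a)).eq_empty_or_nonempty with h | ⟨y, hy⟩
      · rw [h]
        simp only [Finset.card_empty, add_zero]
        exact Finset.card_le_card (Finset.filter_subset_filter _ (Finset.subset_univ _))
      rw [Finset.mem_filter] at hx hy
      have h1 : (S.filter (fun x => col x = a)).card ≤ c := by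
        have := class_S D col F used c hFx hused2 S hS y (hmemY y hy.1)
        rw [hy.2] at this
        exact this
      have h2 : (Y.filter (fun x => col x = a)).card ≤ c := by
        refine le_trans (Finset.card_le_card ?_) (hused1 x (hS hx.1))
        intro z hz
        rw [Finset.mem_filter] at hz
        rcases hmemY z hz.1 x hx.1 with h | h
        · exact h
        · exfalso
          rw [hz.2, ← hx.2] at h
          exact hFx x (hS hx.1) h
      have h3 := hheavy x (by rw [hx.2]; exact haH)
      rw [hx.2] at h3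
      omega
    · have e : ∀ R : Finset ι, (R.filter (fun x => col x ∈ H)).filter (fun x => col x = a) = ∅ := by
        intro R
        apply Finset.filter_eq_empty_iff.2
        intro x hx hxa
        rw [Finset.mem_filter] at hx
        rw [hxa] at hx
        exact haH hx.2
      rw [e, e, e]
      simp
  have hsum : (S.filter (fun x => col x ∈ H)).card + (Y.filter (fun x => col x ∈ H)).card
      ≤ (univ.filter (fun x => col x ∈ H)).card := by
    have e : ∀ R : Finset ι, R.card = ∑ a ∈ univ.image col, (R.filter (fun x => col x = a)).card :=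
      fun R => Finset.card_eq_sum_card_fiberwise (fun x _ => Finset.mem_coe.2
        (Finset.mem_image_of_mem _ (Finset.mem_univ _)))
    rw [e (S.filter (fun x => col x ∈ H)), e (Y.filter (fun x => col x ∈ H)),
      e (univ.filter (fun x => col x ∈ H)), ← Finset.sum_add_distrib]
    exact Finset.sum_le_sum hcl
  -- light rows
  have hlight : (S.filter (fun x => ¬ col x ∈ H)).card + (Y.filter (fun x => ¬ col x ∈ H)).card
      ≤ (univ.filter (fun x => ¬ col x ∈ H)).card := by
    rcases (S.filter (fun x => ¬ col x ∈ H)).eq_empty_or_nonempty with h | ⟨x, hx⟩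
    · rw [h]
      simp only [Finset.card_empty, zero_add]
      exact Finset.card_le_card (Finset.filter_subset_filter _ (Finset.subset_univ _))
    rcases (Y.filter (fun x => ¬ col x ∈ H)).eq_empty_or_nonempty with h | ⟨y, hy⟩
    · rw [h]
      simp only [Finset.card_empty, add_zero]
      exact Finset.card_le_card (Finset.filter_subset_filter _ (Finset.subset_univ _))
    rw [Finset.mem_filter] at hx hy
    have h1 : (Y.filter (fun x => ¬ col x ∈ H)).card ≤ c + n1 * w := by
      have hsub : Y.filter (fun x => ¬ col x ∈ H) ⊆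
          used x ∪ ((F x).filter (fun a => ¬ a ∈ H)).biUnion
            (fun a => univ.filter (fun z => col z = a)) := by
        intro z hz
        rw [Finset.mem_filter] at hz
        rw [Finset.mem_union]
        rcases hmemY z hz.1 x hx.1 with h | h
        · exact Or.inl h
        · right
          rw [Finset.mem_biUnion]
          exact ⟨col z, Finset.mem_filter.2 ⟨h, hz.2⟩, Finset.mem_filter.2 ⟨Finset.mem_univ _, rfl⟩⟩
      refine le_trans (Finset.card_le_card hsub) ?_
      refine le_trans (Finset.card_union_le _ _) ?_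
      refine add_le_add (hused1 x (hS hx.1)) ?_
      refine le_trans Finset.card_biUnion_le ?_
      calc ∑ a ∈ (F x).filter (fun a => ¬ a ∈ H), (univ.filter (fun z => col z = a)).card
          ≤ ∑ a ∈ (F x).filter (fun a => ¬ a ∈ H), w :=
            Finset.sum_le_sum (fun a ha => hcls a (Finset.mem_filter.1 ha).2)
        _ = ((F x).filter (fun a => ¬ a ∈ H)).card * w := by simp
        _ ≤ n1 * w := Nat.mul_le_mul_right _
            (le_trans (Finset.card_filter_le _ _) (hF x (hS hx.1)))
    have h2 : (S.filter (fun x => ¬ col x ∈ H)).card ≤ c + w' := by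
      have hsub : S.filter (fun x => ¬ col x ∈ H)
          ⊆ D.filter (fun x => y ∈ used x) ∪ D.filter (fun x => col y ∈ F x) := by
        intro z hz
        rw [Finset.mem_filter] at hz
        rw [Finset.mem_union, Finset.mem_filter, Finset.mem_filter]
        rcases hmemY y hy.1 z hz.1 with h | h
        · exact Or.inl ⟨hS hz.1, h⟩
        · exact Or.inr ⟨hS hz.1, h⟩
      refine le_trans (Finset.card_le_card hsub) ?_
      refine le_trans (Finset.card_union_le _ _) ?_
      exact add_le_add (hused2 y) (hF2 _ hy.2)
    rcases hm with hm | hm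
    · exact absurd (hm x) hx.2
    · omega
  have s1 := Finset.card_filter_add_card_filter_not (s := S) (fun x => col x ∈ H)
  have s2 := Finset.card_filter_add_card_filter_not (s := Y) (fun x => col x ∈ H)
  have s3 := Finset.card_filter_add_card_filter_not (s := (univ : Finset ι)) (fun x => col x ∈ H)
  rw [Finset.card_univ] at s3
  omega

end H884
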