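import Mathlib

/-!
Definitions for `MP_884cd1_co` (disjoint transversals in row-Latin rectangles).
-/

namespace H884

/-- `A` is a row-Latin rectangle: no symbol occurs twice within the same row. -/
def RowLatin {m n k : ℕ} (A : Fin m → Fin n → Fin k) : Prop :=
  ∀ i, Function.Injective (A i)

/-- A transversal, given by the row `t j` of its cell in column `j`: one cell from each column, the
rows are pairwise distinct and the `n` symbols are pairwise distinct. -/
def IsTransversal {m n k : ℕ} (A : Fin m → Fin n → Fin k) (t : Fin n → Fin m) : Prop :=
  Function.Injective t ∧ Function.Injective (fun j => A (t j) j)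

/-- `A` contains `q` pairwise disjoint transversals (no two of them share a cell). -/
def HasDisjoint {m n k : ℕ} (A : Fin m → Fin n → Fin k) (q : ℕ) : Prop :=
  ∃ T : Fin q → Fin n → Fin m, (∀ s, IsTransversal A (T s)) ∧
    ∀ s s', s ≠ s' → ∀ j, T s j ≠ T s' j

end H884
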