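import Pool.Agent.H884.ExDefs

set_option autoImplicit false

namespace H884

open Finset

theorem hall_avoid {α β : Type} [DecidableEq α] [DecidableEq β] [Nonempty β] (L : Finset α)
    (H : Finset β) (bad : α → β → Prop) (p q : ℕ) (h1 : L.card ≤ H.card)
    (h2 : ∀ a ∈ L, ∀ B : Finset β, B ⊆ H → (∀ b ∈ B, bad a b) → B.card ≤ p)
    (h3 : ∀ b ∈ H, ∀ C : Finset α, C ⊆ L → (∀ a ∈ C, bad a b) → C.card ≤ q)
    (h4 : p + q ≤ H.card) :
    ∃ f : α → β, (∀ a ∈ L, f a ∈ H ∧ ¬ bad a (f a)) ∧ ∀ a ∈ L, ∀ a' ∈ L, f a = f a' → a = a' := by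
  classical
  have hall : ∃ f : {a // a ∈ L} → β, Function.Injective f ∧
      ∀ x, f x ∈ H.filter (fun b => ¬ bad x.1 b) := by
    rw [← Finset.all_card_le_biUnion_card_iff_exists_injective]
    intro s
    rcases s.eq_empty_or_nonempty with rfl | ⟨a, ha⟩
    · simp
    by_cases hs : s.card ≤ H.card - p
    · have e1 : (H.filter (fun b => bad a.1 b)).card ≤ p :=
        h2 a.1 a.2 _ (filter_subset _ _) (fun b hb => (mem_filter.1 hb).2)
      have e2 : (H.filter (fun b => bad a.1 b)).card + (H.filter (fun b => ¬ bad a.1 b)).card =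
          H.card := by
        rw [← Finset.card_filter_add_card_filter_not (s := H) (fun b => bad a.1 b)]
      have e3 : (H.filter (fun b => ¬ bad a.1 b)).card ≤
          (s.biUnion fun x => H.filter (fun b => ¬ bad x.1 b)).card :=
        card_le_card (subset_biUnion_of_mem (fun x : {a // a ∈ L} => H.filter (fun b => ¬ bad x.1 b)) ha)
      omega
    · have e0 : s.card ≤ L.card := by
        calc s.card = (s.map (Function.Embedding.subtype _)).card := (card_map _).symm
          _ ≤ L.card := card_le_card (by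
            intro x hx
            rw [mem_map] at hx
            obtain ⟨y, _, rfl⟩ := hx
            exact y.2)
      have e1 : H ⊆ s.biUnion fun x => H.filter (fun b => ¬ bad x.1 b) := by
        intro b hb
        by_contra hcon
        have hall : ∀ x ∈ s, bad x.1 b := by
          intro x hx
          by_contra hx2
          exact hcon (mem_biUnion.2 ⟨x, hx, mem_filter.2 ⟨hb, hx2⟩⟩)
        have := h3 b hb (s.map (Function.Embedding.subtype _)) (by
            intro x hx
            rw [mem_map] at hx
            obtain ⟨y, _, rfl⟩ := hx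
            exact y.2) (by
            intro x hx
            rw [mem_map] at hx
            obtain ⟨y, hy, rfl⟩ := hx
            exact hall y hy)
        rw [card_map] at this
        omega
      have e2 := card_le_card e1
      omega
  obtain ⟨f, hf1, hf2⟩ := hall
  refine ⟨fun a => if h : a ∈ L then f ⟨a, h⟩ else Classical.arbitrary β, ?_, ?_⟩
  · intro a ha
    simp only [ha, dif_pos]
    exact mem_filter.1 (hf2 ⟨a, ha⟩)
  · intro a ha a' ha' h
    simp only [ha, ha', dif_pos] at h
    exact congrArg Subtype.val (hf1 h)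

theorem x3_build {m n k q : ℕ} {A : Fin m → Fin n → Fin k} (hA : RowLatin A)
    (H R : Finset (Fin m)) (hU : Uniform A H)
    (hcard : 3 * n + R.card + 1 ≤ H.card) (P : Fin q → Finset (Fin m × Fin n))
    (hPR : ∀ a, ∀ z ∈ P a, z.1 ∈ R) (hPc : ∀ a, ClosedClass A H (P a))
    (hPd : ∀ a a', a ≠ a' → Disjoint (P a) (P a'))
    (hcount : ∀ (j : Fin n) (L : Finset (Fin q)), (∀ a ∈ L, ∀ z ∈ P a, z.2 ≠ j) →
      L.card ≤ H.card) (l : ℕ) (hl : l ≤ n) :
    ∃ S : Fin n → Fin q → Fin m,
      (∀ j : Fin n, j.1 < l → ∀ a, (∀ z ∈ P a, z.2 ≠ j) →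
        S j a ∈ H ∧ ∀ z ∈ P a, A (S j a) j ≠ A z.1 z.2) ∧
      (∀ j : Fin n, j.1 < l → ∀ a a', (∀ z ∈ P a, z.2 ≠ j) → (∀ z ∈ P a', z.2 ≠ j) →
        S j a = S j a' → a = a') ∧
      ∀ j j' : Fin n, j.1 < l → j'.1 < l → j ≠ j' → ∀ a, (∀ z ∈ P a, z.2 ≠ j) →
        (∀ z ∈ P a, z.2 ≠ j') → S j a ≠ S j' a := by
  classical
  have hHne : H.Nonempty := by
    rw [← card_pos]; omega
  obtain ⟨h0, hh0⟩ := hHne
  have : Nonempty (Fin m) := ⟨h0⟩
  induction l with
  | zero =>
    exact ⟨fun _ _ => h0, fun j hj => absurd hj (by omega), fun j hj => absurd hj (by omega),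
      fun j j' hj => absurd hj (by omega)⟩
  | succ l ih =>
    obtain ⟨S, hS1, hS2, hS3⟩ := ih (by omega)
    set J : Fin n := ⟨l, by omega⟩ with hJ
    set L : Finset (Fin q) := univ.filter (fun a => ∀ z ∈ P a, z.2 ≠ J) with hL
    have hLm : ∀ a, a ∈ L ↔ ∀ z ∈ P a, z.2 ≠ J := by
      intro a; rw [hL, mem_filter]; simp
    set bad : Fin q → Fin m → Prop := fun a h =>
      (∃ j' : Fin n, j'.1 < l ∧ (∀ z ∈ P a, z.2 ≠ j') ∧ S j' a = h) ∨
        ∃ z ∈ P a, A h J = A z.1 z.2 with hbad
    have hPcard : ∀ a, (P a).card ≤ n := by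
      intro a
      calc (P a).card = ((P a).image Prod.snd).card := by
            rw [card_image_of_injOn]
            intro z hz w hw e
            exact (hPc a).2.1 z hz w hw e
        _ ≤ (univ : Finset (Fin n)).card := card_le_univ _
        _ = n := by simp
    have key2 : ∀ a ∈ L, ∀ B : Finset (Fin m), B ⊆ H → (∀ b ∈ B, bad a b) → B.card ≤ 2 * n := by
      intro a ha B hB hb
      have hsplit : B ⊆ (univ.image fun j' : Fin n => S j' a) ∪
          B.filter (fun b => ∃ z ∈ P a, A b J = A z.1 z.2) := by
        intro b hbB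
        rcases hb b hbB with ⟨j', _, _, e⟩ | h
        · exact mem_union_left _ (mem_image.2 ⟨j', mem_univ _, e⟩)
        · exact mem_union_right _ (mem_filter.2 ⟨hbB, h⟩)
      have e1 : (univ.image fun j' : Fin n => S j' a).card ≤ n := by
        calc _ ≤ (univ : Finset (Fin n)).card := card_image_le
          _ = n := by simp
      have e2 : (B.filter (fun b => ∃ z ∈ P a, A b J = A z.1 z.2)).card ≤ n := by
        rcases hU.2 J with hc | hi
        · have : B.filter (fun b => ∃ z ∈ P a, A b J = A z.1 z.2) = ∅ := by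
            rw [filter_eq_empty_iff]
            rintro b hbB ⟨z, hz, e⟩
            obtain ⟨w, hw, hw2⟩ := (hPc a).2.2.2 z hz J (fun h hh => by
              rw [hc h hh b (hB hbB), e])
            exact (hLm a).1 ha w hw hw2
          rw [this]; simp
        · have hch : ∀ b : Fin m, ∃ z : Fin m × Fin n, b ∈ B.filter (fun b => ∃ z ∈ P a, A b J = A z.1 z.2) →
              z ∈ P a ∧ A b J = A z.1 z.2 := by
            intro b
            by_cases hbf : b ∈ B.filter (fun b => ∃ z ∈ P a, A b J = A z.1 z.2)
            · obtain ⟨z, hz, e⟩ := (mem_filter.1 hbf).2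
              exact ⟨z, fun _ => ⟨hz, e⟩⟩
            · exact ⟨(b, J), fun h => absurd h hbf⟩
          choose g hg using hch
          calc _ ≤ (P a).card := by
                apply card_le_card_of_injOn g
                · intro b hb'
                  exact (hg b hb').1
                · intro b hb1 b' hb2 e
                  have x1 := (hg b hb1).2
                  have x2 := (hg b' hb2).2
                  rw [e, ← x2] at x1
                  exact hi b (hB (mem_filter.1 hb1).1) b' (hB (mem_filter.1 hb2).1) x1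
            _ ≤ n := hPcard a
      have e3 := card_le_card hsplit
      have e4 := card_union_le (univ.image fun j' : Fin n => S j' a)
        (B.filter (fun b => ∃ z ∈ P a, A b J = A z.1 z.2))
      omega
    have key3 : ∀ b ∈ H, ∀ C : Finset (Fin q), C ⊆ L → (∀ a ∈ C, bad a b) →
        C.card ≤ n + R.card := by
      intro b hbH C hC hb
      have hsplit : C ⊆ C.filter (fun a => ∃ j' : Fin n, j'.1 < l ∧ (∀ z ∈ P a, z.2 ≠ j') ∧ S j' a = b) ∪
          C.filter (fun a => ∃ z ∈ P a, A b J = A z.1 z.2) := by
        intro a haC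
        rcases hb a haC with h | h
        · exact mem_union_left _ (mem_filter.2 ⟨haC, h⟩)
        · exact mem_union_right _ (mem_filter.2 ⟨haC, h⟩)
      have e1 : (C.filter (fun a => ∃ j' : Fin n, j'.1 < l ∧ (∀ z ∈ P a, z.2 ≠ j') ∧ S j' a = b)).card
          ≤ n := by
        have hch : ∀ a : Fin q, ∃ j' : Fin n,
            a ∈ C.filter (fun a => ∃ j' : Fin n, j'.1 < l ∧ (∀ z ∈ P a, z.2 ≠ j') ∧ S j' a = b) →
              (j'.1 < l ∧ (∀ z ∈ P a, z.2 ≠ j') ∧ S j' a = b) := by
          intro a
          by_cases haf : a ∈ C.filter (fun a => ∃ j' : Fin n, j'.1 < l ∧ (∀ z ∈ P a, z.2 ≠ j') ∧ S j' a = b)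
          · obtain ⟨j', h⟩ := (mem_filter.1 haf).2
            exact ⟨j', fun _ => h⟩
          · exact ⟨J, fun h => absurd h haf⟩
        choose g hg using hch
        calc _ ≤ (univ : Finset (Fin n)).card := by
              apply card_le_card_of_injOn g
              · intro a _; exact mem_coe.2 (mem_univ _)
              · intro a ha1 a' ha2 e
                obtain ⟨x1, x2, x3⟩ := hg a ha1
                obtain ⟨y1, y2, y3⟩ := hg a' ha2
                have e' : g a = g a' := e
                rw [← e'] at y2 y3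
                exact hS2 (g a) x1 a a' x2 y2 (x3.trans y3.symm)
          _ = n := by simp
      have e2 : (C.filter (fun a => ∃ z ∈ P a, A b J = A z.1 z.2)).card ≤ R.card := by
        have hch : ∀ a : Fin q, ∃ z : Fin m × Fin n,
            a ∈ C.filter (fun a => ∃ z ∈ P a, A b J = A z.1 z.2) →
              (z ∈ P a ∧ A b J = A z.1 z.2) := by
          intro a
          by_cases haf : a ∈ C.filter (fun a => ∃ z ∈ P a, A b J = A z.1 z.2)
          · obtain ⟨z, h⟩ := (mem_filter.1 haf).2
            exact ⟨z, fun _ => h⟩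
          · exact ⟨(b, J), fun h => absurd h haf⟩
        choose g hg using hch
        apply card_le_card_of_injOn (fun a => (g a).1)
        · intro a ha
          exact hPR a _ (hg a ha).1
        · intro a ha1 a' ha2 e
          have x := hg a ha1
          have y := hg a' ha2
          have e' : (g a).1 = (g a').1 := e
          by_contra hne
          have e2 : A (g a).1 (g a).2 = A (g a).1 (g a').2 := by
            rw [← x.2, y.2, e']
          have e3 := hA _ e2
          have e4 : g a = g a' := Prod.ext e' e3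
          exact (Finset.disjoint_left.1 (hPd a a' hne) x.1) (e4 ▸ y.1)
      have e3 := card_le_card hsplit
      have e4 := card_union_le
        (C.filter (fun a => ∃ j' : Fin n, j'.1 < l ∧ (∀ z ∈ P a, z.2 ≠ j') ∧ S j' a = b))
        (C.filter (fun a => ∃ z ∈ P a, A b J = A z.1 z.2))
      omega
    obtain ⟨f, hf1, hf2⟩ := hall_avoid L H bad (2 * n) (n + R.card)
      (hcount J L (fun a ha => (hLm a).1 ha)) key2 key3 (by omega)
    refine ⟨Function.update S J f, ?_, ?_, ?_⟩
    · intro j hj a hz
      by_cases hjJ : j = J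
      · subst hjJ
        rw [Function.update_self]
        have := hf1 a ((hLm a).2 hz)
        exact ⟨this.1, fun z hzP e => this.2 (Or.inr ⟨z, hzP, e⟩)⟩
      · rw [Function.update_of_ne hjJ]
        have : j.1 < l := by
          have : j.1 ≠ l := fun e => hjJ (Fin.ext e)
          omega
        exact hS1 j this a hz
    · intro j hj a a' hz hz'
      by_cases hjJ : j = J
      · subst hjJ
        rw [Function.update_self]
        exact hf2 a ((hLm a).2 hz) a' ((hLm a').2 hz')
      · rw [Function.update_of_ne hjJ]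
        have : j.1 < l := by
          have : j.1 ≠ l := fun e => hjJ (Fin.ext e)
          omega
        exact hS2 j this a a' hz hz'
    · have main : ∀ j : Fin n, j.1 < l → ∀ a, (∀ z ∈ P a, z.2 ≠ J) → (∀ z ∈ P a, z.2 ≠ j) →
          f a ≠ S j a := by
        intro j hj a hz hz' e
        exact (hf1 a ((hLm a).2 hz)).2 (Or.inl ⟨j, hj, hz', e.symm⟩)
      intro j j' hj hj' hne a hz hz'
      by_cases hjJ : j = J
      · have hj'J : j' ≠ J := fun e => hne (hjJ.trans e.symm)
        rw [Function.update_of_ne hj'J, hjJ, Function.update_self]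
        have : j'.1 < l := by
          have : j'.1 ≠ l := fun e => hj'J (Fin.ext e)
          omega
        exact main j' this a (hjJ ▸ hz) hz'
      · rw [Function.update_of_ne hjJ]
        have hjl : j.1 < l := by
          have : j.1 ≠ l := fun e => hjJ (Fin.ext e)
          omega
        by_cases hj'J : j' = J
        · rw [hj'J, Function.update_self]
          exact fun e => main j hjl a (hj'J ▸ hz') hz e.symm
        · rw [Function.update_of_ne hj'J]
          have hj'l : j'.1 < l := by
            have : j'.1 ≠ l := fun e => hj'J (Fin.ext e)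
            omega
          exact hS3 j j' hjl hj'l hne a hz hz'

theorem completion {m n k q : ℕ} {A : Fin m → Fin n → Fin k} (hA : RowLatin A)
    (H R : Finset (Fin m)) (hHR : Disjoint H R) (hU : Uniform A H)
    (hcard : 3 * n + R.card + 1 ≤ H.card) (P : Fin q → Finset (Fin m × Fin n))
    (hPR : ∀ a, ∀ z ∈ P a, z.1 ∈ R) (hPc : ∀ a, ClosedClass A H (P a))
    (hPd : ∀ a a', a ≠ a' → Disjoint (P a) (P a'))
    (hcount : ∀ (j : Fin n) (L : Finset (Fin q)), (∀ a ∈ L, ∀ z ∈ P a, z.2 ≠ j) →
      L.card ≤ H.card) :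
    HasDisjointIn A (H ∪ R) q := by
  classical
  obtain ⟨S, hS1, hS2, hS3⟩ := x3_build hA H R hU hcard P hPR hPc hPd hcount n le_rfl
  obtain ⟨⟨c, hc⟩, -⟩ := hU
  have hT : ∀ (s : Fin q) (j : Fin n), ∃ t : Fin m,
      ((t, j) ∈ P s) ∨ ((∀ z ∈ P s, z.2 ≠ j) ∧ t = S j s) := by
    intro s j
    by_cases h : ∃ z ∈ P s, z.2 = j
    · obtain ⟨z, hz, rfl⟩ := h
      exact ⟨z.1, Or.inl hz⟩
    · push Not at h
      exact ⟨S j s, Or.inr ⟨h, rfl⟩⟩
  choose T hT using hT
  have hHn : ∀ x, x ∈ H → x ∈ R → False := fun x h1 h2 => Finset.disjoint_left.1 hHR h1 h2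
  refine ⟨T, ?_, ?_, ?_⟩
  · intro s
    constructor
    · intro j j' e
      by_contra hne
      rcases hT s j with h | ⟨h, h'⟩ <;> rcases hT s j' with g | ⟨g, g'⟩
      · have := (hPc s).1 _ h _ g e
        exact hne (congrArg Prod.snd this)
      · have x1 := hPR s _ h
        have x2 := (hS1 j' j'.2 s g).1
        rw [← g', ← e] at x2
        exact hHn _ x2 x1
      · have x1 := hPR s _ g
        have x2 := (hS1 j j.2 s h).1
        rw [← h', e] at x2
        exact hHn _ x2 x1
      · rw [h', g'] at e
        exact hS3 j j' j.2 j'.2 hne s h g e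
    · intro j j' e
      simp only at e
      by_contra hne
      rcases hT s j with h | ⟨h, h'⟩ <;> rcases hT s j' with g | ⟨g, g'⟩
      · have := (hPc s).2.2.1 _ h _ g e
        exact hne (congrArg Prod.snd this)
      · rw [g'] at e
        exact (hS1 j' j'.2 s g).2 _ h e.symm
      · rw [h'] at e
        exact (hS1 j j.2 s h).2 _ g e
      · have x1 := (hS1 j j.2 s h).1
        have x2 := (hS1 j' j'.2 s g).1
        rw [← h'] at x1
        rw [← g'] at x2
        have := congrArg c e
        rw [hc _ x1 j, hc _ x2 j'] at this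
        exact hne this
  · intro s j
    rcases hT s j with h | ⟨h, h'⟩
    · exact mem_union_right _ (hPR s _ h)
    · rw [h']
      exact mem_union_left _ (hS1 j j.2 s h).1
  · intro s s' hne j e
    rcases hT s j with h | ⟨h, h'⟩ <;> rcases hT s' j with g | ⟨g, g'⟩
    · rw [← e] at g
      exact Finset.disjoint_left.1 (hPd s s' hne) h g
    · have x1 := hPR s _ h
      have x2 := (hS1 j j.2 s' g).1
      rw [← g', ← e] at x2
      exact hHn _ x2 x1
    · have x1 := hPR s' _ g
      have x2 := (hS1 j j.2 s h).1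
      rw [← h', e] at x2
      exact hHn _ x2 x1
    · rw [h', g'] at e
      exact hne (hS2 j j.2 s s' h g e)

end H884
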