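import Pool.Agent.H884.Parts

/-!
`MP_884cd1_co`: notions for the exact number of disjoint transversals when `m` is large.
-/

namespace H884

/-- The rows of `H` are uniform: every symbol occurs in only one column of these rows, and every
column of these rows is constant or has pairwise distinct symbols. -/
def Uniform {m n k : ℕ} (A : Fin m → Fin n → Fin k) (H : Finset (Fin m)) : Prop :=
  (∃ c : Fin k → Fin n, ∀ i ∈ H, ∀ j, c (A i j) = j) ∧
  ∀ j, (∀ i ∈ H, ∀ i' ∈ H, A i j = A i' j) ∨ (∀ i ∈ H, ∀ i' ∈ H, A i j = A i' j → i = i')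

/-- A set `P` of cells is a closed class: rows, columns and symbols of its cells are pairwise
distinct, and if the symbol of a cell of `P` is the symbol of a constant column `j` of `H`, then
`P` has a cell in column `j`. -/
def ClosedClass {m n k : ℕ} (A : Fin m → Fin n → Fin k) (H : Finset (Fin m))
    (P : Finset (Fin m × Fin n)) : Prop :=
  (∀ z ∈ P, ∀ w ∈ P, z.1 = w.1 → z = w) ∧ (∀ z ∈ P, ∀ w ∈ P, z.2 = w.2 → z = w) ∧
  (∀ z ∈ P, ∀ w ∈ P, A z.1 z.2 = A w.1 w.2 → z = w) ∧
  ∀ z ∈ P, ∀ j, (∀ h ∈ H, A h j = A z.1 z.2) → ∃ w ∈ P, w.2 = j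

end H884
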