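import Pool.Agent.H884.ExInfluence

/-!
`MP_884cd1_co`: rainbow closed walks in balanced digraphs. In a digraph on `n` vertices in which every
vertex has as many outgoing as incoming arcs, coloured so that arcs of one colour have distinct
tails and distinct heads, every vertex with at least `n` outgoing arcs forces a rainbow closed walk.
-/

set_option autoImplicit false

namespace H884

open Finset

/-- `x` is reached from `v` by a set `W` of cells of `U` with distinct colours from `X`. -/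
def Reach {ι α : Type} (π : ι → α → α) (U : Finset (ι × α)) (v : α) (X : Finset ι) (x : α) :
    Prop :=
  ∃ W : Finset (ι × α), W ⊆ U ∧ (∀ z ∈ W, ∀ w ∈ W, z.1 = w.1 → z = w) ∧ (∀ z ∈ W, z.1 ∈ X) ∧
    (∀ z ∈ W, π z.1 z.2 = x ∨ ∃ w ∈ W, w.2 = π z.1 z.2) ∧ (v = x ∨ ∃ w ∈ W, w.2 = v)

theorem rainbow {ι α : Type} [Fintype ι] [DecidableEq ι] [Fintype α] [DecidableEq α]
    (π : ι → α → α) (hπ : ∀ i, Function.Injective (π i)) (U : Finset (ι × α))
    (hbal : ∀ x, (U.filter (fun z => z.2 = x)).card = (U.filter (fun z => π z.1 z.2 = x)).card)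
    (v : α) (hv : Fintype.card α ≤ (U.filter (fun z => z.2 = v)).card) :
    ∃ Z ⊆ U, Z.Nonempty ∧ (∀ z ∈ Z, ∀ w ∈ Z, z.1 = w.1 → z = w) ∧
      ∀ z ∈ Z, ∃ w ∈ Z, w.2 = π z.1 z.2 := by
  classical
  by_contra hno
  -- the step of the walk
  have hstep : ∀ (X : Finset ι) (z : ι × α), z ∈ U → z.1 ∉ X → Reach π U v X z.2 →
      Reach π U v (insert z.1 X) (π z.1 z.2) ∧ π z.1 z.2 ≠ v := by
    intro X z hz hzX ⟨W, hWU, hW1, hW2, hW3, hW4⟩
    have hzW : ∀ w ∈ W, w.1 ≠ z.1 := fun w hw e => hzX (e ▸ hW2 w hw)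
    have hr : ∀ a ∈ insert z W, ∀ b ∈ insert z W, a.1 = b.1 → a = b := by
      intro a ha b hb hab
      rw [mem_insert] at ha hb
      rcases ha with rfl | ha <;> rcases hb with rfl | hb
      · rfl
      · exact absurd hab.symm (hzW b hb)
      · exact absurd hab (hzW a ha)
      · exact hW1 a ha b hb hab
    have hsub : insert z W ⊆ U := by
      intro a ha
      rw [mem_insert] at ha
      rcases ha with rfl | ha
      · exact hz
      · exact hWU ha
    have hold : ∀ a ∈ W, ∃ w ∈ insert z W, w.2 = π a.1 a.2 := by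
      intro a ha
      rcases hW3 a ha with e | ⟨w, hw, e⟩
      · exact ⟨z, mem_insert_self _ _, e.symm⟩
      · exact ⟨w, mem_insert_of_mem hw, e⟩
    have hvv : ∃ w ∈ insert z W, w.2 = v := by
      rcases hW4 with e | ⟨w, hw, e⟩
      · exact ⟨z, mem_insert_self _ _, e.symm⟩
      · exact ⟨w, mem_insert_of_mem hw, e⟩
    constructor
    · refine ⟨insert z W, hsub, hr, ?_, ?_, Or.inr hvv⟩
      · intro a ha
        rw [mem_insert] at ha
        rcases ha with rfl | ha
        · exact mem_insert_self _ _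
        · exact mem_insert_of_mem (hW2 a ha)
      · intro a ha
        rw [mem_insert] at ha
        rcases ha with rfl | ha
        · exact Or.inl rfl
        · exact Or.inr (hold a ha)
    · intro e
      apply hno
      refine ⟨insert z W, hsub, ⟨z, mem_insert_self _ _⟩, hr, ?_⟩
      intro a ha
      rw [mem_insert] at ha
      rcases ha with rfl | ha
      · obtain ⟨w, hw, e'⟩ := hvv
        exact ⟨w, hw, by rw [e', e]⟩
      · exact hold a ha
  have hmono : ∀ (X Y : Finset ι) (x : α), X ⊆ Y → Reach π U v X x → Reach π U v Y x := by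
    intro X Y x hXY ⟨W, h1, h2, h3, h4, h5⟩
    exact ⟨W, h1, h2, fun z hz => hXY (h3 z hz), h4, h5⟩
  let S : Finset ι → Finset α := fun X => univ.filter (fun x => Reach π U v X x)
  have hS : ∀ X x, x ∈ S X ↔ Reach π U v X x := fun X x => by simp [S]
  have hvS : ∀ X, v ∈ S X := fun X => by
    rw [hS]
    exact ⟨∅, by simp, by simp, by simp, by simp, Or.inl rfl⟩
  obtain ⟨X, hX⟩ := influence (fun X => ((S X).card : ℤ))
  -- the cells that leave `S X`
  set A : Finset (ι × α) := U.filter (fun z => z.2 ∈ S X) with hA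
  set B : Finset (ι × α) := U.filter (fun z => π z.1 z.2 ∈ (S X).erase v) with hB
  have hAc : A.card = ∑ x ∈ S X, (U.filter (fun z => z.2 = x)).card := by
    rw [hA, card_eq_sum_card_fiberwise (f := fun z => z.2) (t := S X)]
    · refine sum_congr rfl (fun x hx => ?_)
      congr 1
      ext z
      simp only [mem_filter]
      constructor
      · rintro ⟨⟨h1, _⟩, h2⟩; exact ⟨h1, h2⟩
      · rintro ⟨h1, h2⟩; exact ⟨⟨h1, h2 ▸ hx⟩, h2⟩
    · intro z hz
      exact (mem_filter.1 hz).2
  have hBc : B.card = ∑ x ∈ (S X).erase v, (U.filter (fun z => π z.1 z.2 = x)).card := by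
    rw [hB, card_eq_sum_card_fiberwise (f := fun z => π z.1 z.2) (t := (S X).erase v)]
    · refine sum_congr rfl (fun x hx => ?_)
      congr 1
      ext z
      simp only [mem_filter]
      constructor
      · rintro ⟨⟨h1, _⟩, h2⟩; exact ⟨h1, h2⟩
      · rintro ⟨h1, h2⟩; exact ⟨⟨h1, h2 ▸ hx⟩, h2⟩
    · intro z hz
      exact (mem_filter.1 hz).2
  have hAB : A.card = (U.filter (fun z => z.2 = v)).card + B.card := by
    rw [hAc, hBc, ← add_sum_erase (S X) _ (hvS X)]
    congr 1
    exact sum_congr rfl (fun x _ => hbal x)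
  have hN : Fintype.card α ≤ (A \ B).card := by
    have h1 : A.card ≤ (A \ B).card + B.card := by
      have := card_le_card_sdiff_add_card (s := A) (t := B)
      omega
    omega
  -- colour by colour
  have hcol : ∀ i : ι, (((A \ B).filter (fun z => z.1 = i)).card : ℤ) ≤
      ((S (insert i X)).card : ℤ) - ((S (X.erase i)).card : ℤ) := by
    intro i
    have hsub : S (X.erase i) ⊆ S (insert i X) := by
      intro x hx
      rw [hS] at hx ⊢
      exact hmono _ _ _ ((erase_subset _ _).trans (subset_insert _ _)) hx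
    have hcard : (((S (insert i X)) \ (S (X.erase i))).card : ℤ) =
        ((S (insert i X)).card : ℤ) - ((S (X.erase i)).card : ℤ) := by
      rw [card_sdiff_of_subset hsub, Nat.cast_sub (card_le_card hsub)]
    rw [← hcard, Nat.cast_le]
    by_cases hi : i ∈ X
    · -- tails are new
      refine card_le_card_of_injOn (fun z => z.2) ?_ ?_
      · intro z hz
        rw [mem_coe, mem_filter, mem_sdiff] at hz
        obtain ⟨⟨hzA, hzB⟩, hzi⟩ := hz
        rw [hA, mem_filter] at hzA
        rw [mem_coe, mem_sdiff, hS, hS]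
        refine ⟨hmono _ _ _ (subset_insert _ _) ((hS _ _).1 hzA.2), fun hcon => ?_⟩
        have hzi' : z.1 ∉ X.erase i := by rw [hzi]; simp
        obtain ⟨h1, h2⟩ := hstep (X.erase i) z hzA.1 hzi' hcon
        rw [hzi, insert_erase hi] at h1
        apply hzB
        rw [hB, mem_filter, mem_erase, hS]
        exact ⟨hzA.1, h2, hzi ▸ h1⟩
      · intro z hz w hw e
        have h1 := (mem_filter.1 hz).2
        have h2 := (mem_filter.1 hw).2
        exact Prod.ext (h1.trans h2.symm) e
    · -- heads are new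
      refine card_le_card_of_injOn (fun z => π z.1 z.2) ?_ ?_
      · intro z hz
        rw [mem_coe, mem_filter, mem_sdiff] at hz
        obtain ⟨⟨hzA, hzB⟩, hzi⟩ := hz
        rw [hA, mem_filter] at hzA
        have hzi' : z.1 ∉ X := by rw [hzi]; exact hi
        obtain ⟨h1, h2⟩ := hstep X z hzA.1 hzi' ((hS _ _).1 hzA.2)
        rw [mem_coe, mem_sdiff, hS]
        refine ⟨hzi ▸ h1, fun hcon => ?_⟩
        rw [erase_eq_of_notMem hi] at hcon
        apply hzB
        rw [hB, mem_filter, mem_erase]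
        exact ⟨hzA.1, h2, hcon⟩
      · intro z hz w hw e
        have h1 := (mem_filter.1 hz).2
        have h2 := (mem_filter.1 hw).2
        have e' : π z.1 z.2 = π w.1 w.2 := e
        rw [h1, h2] at e'
        exact Prod.ext (h1.trans h2.symm) (hπ i e')
  have hsum : ((A \ B).card : ℤ) ≤ ∑ i, (((S (insert i X)).card : ℤ) - ((S (X.erase i)).card : ℤ)) := by
    rw [card_eq_sum_card_fiberwise (f := fun z => z.1) (t := univ) (fun z _ => by simp)]
    push_cast
    exact sum_le_sum (fun i _ => hcol i)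
  have h0 : 1 ≤ (S ∅).card := card_pos.2 ⟨v, hvS ∅⟩
  have h1 : (S univ).card ≤ Fintype.card α := card_le_univ _
  have hX' : ∑ i, (((S (insert i X)).card : ℤ) - ((S (X.erase i)).card : ℤ)) ≤
      ((S univ).card : ℤ) - ((S ∅).card : ℤ) := hX
  have h2 : (Fintype.card α : ℤ) ≤ ((A \ B).card : ℤ) := by exact_mod_cast hN
  have h3 : (1 : ℤ) ≤ ((S ∅).card : ℤ) := by exact_mod_cast h0
  have h4 : ((S univ).card : ℤ) ≤ (Fintype.card α : ℤ) := by exact_mod_cast h1
  omega

/-- `rainbow` with a simple cycle structure: distinct columns and the heads permute the columns. -/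
theorem rainbow_simple {ι α : Type} [Fintype ι] [DecidableEq ι] [Fintype α] [DecidableEq α]
    (π : ι → α → α) (Z : Finset (ι × α)) (hne : Z.Nonempty)
    (_h1 : ∀ z ∈ Z, ∀ w ∈ Z, z.1 = w.1 → z = w) (h2 : ∀ z ∈ Z, ∃ w ∈ Z, w.2 = π z.1 z.2) :
    ∃ Z' ⊆ Z, Z'.Nonempty ∧ (∀ z ∈ Z', ∀ w ∈ Z', z.2 = w.2 → z = w) ∧
      (∀ z ∈ Z', ∃ w ∈ Z', w.2 = π z.1 z.2) ∧
      (∀ z ∈ Z', ∀ w ∈ Z', π z.1 z.2 = π w.1 w.2 → z = w) := by
  classical
  -- a successor map on the cells of `Z`, depending on the head only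
  have hnext : ∃ g : α → ι × α, ∀ z ∈ Z, g (π z.1 z.2) ∈ Z ∧ (g (π z.1 z.2)).2 = π z.1 z.2 := by
    obtain ⟨z0, hz0⟩ := hne
    have : ∀ x : α, ∃ w : ι × α, (∃ w' ∈ Z, w'.2 = x) → w ∈ Z ∧ w.2 = x := by
      intro x
      by_cases h : ∃ w' ∈ Z, w'.2 = x
      · obtain ⟨w', hw', e⟩ := h
        exact ⟨w', fun _ => ⟨hw', e⟩⟩
      · exact ⟨z0, fun h' => absurd h' h⟩
    choose g hg using this
    exact ⟨g, fun z hz => hg _ (h2 z hz)⟩
  obtain ⟨g, hg⟩ := hnext
  let s : ι × α → ι × α := fun z => g (π z.1 z.2)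
  -- the closed nonempty subsets of `Z`
  let C : Finset (Finset (ι × α)) := Z.powerset.filter (fun Y => Y.Nonempty ∧ ∀ z ∈ Y, s z ∈ Y)
  have hC : C.Nonempty := ⟨Z, by
    rw [mem_filter, mem_powerset]
    exact ⟨subset_rfl, hne, fun z hz => (hg z hz).1⟩⟩
  obtain ⟨Y, hYC, hYmin⟩ := exists_min_image C card hC
  rw [mem_filter, mem_powerset] at hYC
  obtain ⟨hYZ, hYne, hYs⟩ := hYC
  have himg : Y.image s = Y := by
    apply eq_of_subset_of_card_le
    · intro y hy
      obtain ⟨z, hz, rfl⟩ := mem_image.1 hy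
      exact hYs z hz
    · refine hYmin (Y.image s) ?_
      rw [mem_filter, mem_powerset]
      refine ⟨?_, hYne.image s, ?_⟩
      · intro y hy
        obtain ⟨z, hz, rfl⟩ := mem_image.1 hy
        exact hYZ (hYs z hz)
      · intro y hy
        obtain ⟨z, hz, rfl⟩ := mem_image.1 hy
        exact mem_image_of_mem _ (hYs z hz)
  have hinj : Set.InjOn s Y := by
    rw [← card_image_iff, himg]
  have hs2 : ∀ z ∈ Y, (s z).2 = π z.1 z.2 := fun z hz => (hg z (hYZ hz)).2
  refine ⟨Y, hYZ, hYne, ?_, ?_, ?_⟩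
  · intro z hz w hw e
    rw [← himg, mem_image] at hz hw
    obtain ⟨z', hz', rfl⟩ := hz
    obtain ⟨w', hw', rfl⟩ := hw
    rw [hs2 z' hz', hs2 w' hw'] at e
    show g _ = g _
    rw [e]
  · intro z hz
    exact ⟨s z, hYs z hz, hs2 z hz⟩
  · intro z hz w hw e
    apply hinj hz hw
    show g _ = g _
    rw [e]

end H884
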