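import Pool.Agent.H884.ExDefs

set_option autoImplicit false

namespace H884

open Finset

open Classical in
/-- the label of a point: the first free iterate -/
noncomputable def x2_t {α : Type} (g : α → α) (free : α → Prop) (x : α) : Option α :=
  if h : ∃ m : ℕ, free (g^[m] x) then some (g^[Nat.find h] x) else none

theorem x2_t_free {α : Type} (g : α → α) (free : α → Prop) (x : α) (hx : free x) :
    x2_t g free x = some x := by
  classical
  have h : ∃ m : ℕ, free (g^[m] x) := ⟨0, hx⟩
  have h0 : Nat.find h = 0 := by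
    rw [Nat.find_eq_zero]
    exact hx
  unfold x2_t
  rw [dif_pos h]
  have : g^[Nat.find h] x = x := by rw [h0]; rfl
  rw [this]

theorem x2_t_step {α : Type} (g : α → α) (free : α → Prop) (x : α) (hx : ¬ free x) :
    x2_t g free (g x) = x2_t g free x := by
  classical
  by_cases h : ∃ m : ℕ, free (g^[m] x)
  · have hpos : Nat.find h ≠ 0 := by
      intro h0
      have := Nat.find_spec h
      rw [h0] at this
      exact hx this
    obtain ⟨k, hk⟩ := Nat.exists_eq_succ_of_ne_zero hpos
    have hspec := Nat.find_spec h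
    have h' : ∃ m : ℕ, free (g^[m] (g x)) := by
      refine ⟨k, ?_⟩
      rw [hk, Function.iterate_succ_apply] at hspec
      exact hspec
    have hfind : Nat.find h' = k := by
      rw [Nat.find_eq_iff]
      refine ⟨?_, ?_⟩
      · rw [hk, Function.iterate_succ_apply] at hspec
        exact hspec
      · intro n hn hfree
        have h2 : n + 1 < Nat.find h := by rw [hk]; exact Nat.succ_lt_succ hn
        apply Nat.find_min h h2
        rw [Function.iterate_succ_apply]
        exact hfree
    unfold x2_t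
    rw [dif_pos h, dif_pos h']
    have : g^[Nat.find h] x = g^[Nat.find h'] (g x) := by
      rw [hfind, hk, Function.iterate_succ_apply]
    rw [this]
  · have h' : ¬ ∃ m : ℕ, free (g^[m] (g x)) := by
      rintro ⟨m, hm⟩
      exact h ⟨m + 1, by rw [Function.iterate_succ_apply]; exact hm⟩
    unfold x2_t
    rw [dif_neg h, dif_neg h']

theorem split_orbits {α : Type} [DecidableEq α] (O : Finset α) (g : α → α)
    (hg : ∀ x ∈ O, g x ∈ O) (hinj : ∀ x ∈ O, ∀ y ∈ O, g x = g y → x = y) (free : α → Prop) :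
    ∃ F : Finset (Finset α), (∀ Q ∈ F, Q.Nonempty ∧ Q ⊆ O ∧ (∀ x ∈ Q, ¬ free x → g x ∈ Q) ∧
      ∀ x ∈ Q, ∀ y ∈ Q, free x → free y → x = y) ∧
      (∀ Q ∈ F, ∀ Q' ∈ F, Q ≠ Q' → Disjoint Q Q') ∧ ∀ x ∈ O, ∃ Q ∈ F, x ∈ Q := by
  refine ⟨O.image (fun x => O.filter (fun y => x2_t g free y = x2_t g free x)), ?_, ?_, ?_⟩
  · intro Q hQ
    rw [mem_image] at hQ
    obtain ⟨x0, hx0, rfl⟩ := hQ
    refine ⟨⟨x0, by simp [hx0]⟩, filter_subset _ _, ?_, ?_⟩
    · intro x hx hf
      rw [mem_filter] at hx ⊢
      exact ⟨hg x hx.1, by rw [x2_t_step g free x hf]; exact hx.2⟩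
    · intro x hx y hy hfx hfy
      rw [mem_filter] at hx hy
      have h1 := hx.2.trans hy.2.symm
      rw [x2_t_free g free x hfx, x2_t_free g free y hfy] at h1
      exact Option.some.inj h1
  · intro Q hQ Q' hQ' hne
    rw [mem_image] at hQ hQ'
    obtain ⟨x0, hx0, rfl⟩ := hQ
    obtain ⟨x1, hx1, rfl⟩ := hQ'
    rw [Finset.disjoint_left]
    intro y hy hy'
    rw [mem_filter] at hy hy'
    apply hne
    have h1 : x2_t g free x0 = x2_t g free x1 := hy.2.symm.trans hy'.2
    rw [h1]
  · intro x hx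
    exact ⟨_, mem_image_of_mem _ hx, by simp [hx]⟩

end H884
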