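import Pool.Agent.H884.ExPerms
import Pool.Agent.H884.ExRainbow
import Pool.Agent.H884.ExSplit

set_option autoImplicit false

namespace H884

open Finset

theorem x6_fib {β γ : Type} [DecidableEq γ] (Z : Finset β) (f : β → γ)
    (hf : ∀ z ∈ Z, ∀ w ∈ Z, f z = f w → z = w) (x : γ) :
    (Z.filter (fun z => f z = x)).card = if x ∈ Z.image f then 1 else 0 := by
  split_ifs with h
  · obtain ⟨z, hz, hzx⟩ := Finset.mem_image.1 h
    rw [Finset.card_eq_one]
    refine ⟨z, ?_⟩
    ext w
    rw [Finset.mem_filter, Finset.mem_singleton]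
    constructor
    · rintro ⟨hw, hwx⟩
      exact hf w hw z hz (hwx.trans hzx.symm)
    · rintro rfl
      exact ⟨hz, hzx⟩
  · rw [Finset.card_eq_zero]
    ext w
    rw [Finset.mem_filter]
    constructor
    · rintro ⟨hw, hwx⟩
      exact absurd (Finset.mem_image.2 ⟨w, hw, hwx⟩) h
    · intro h'
      exact absurd h' (Finset.notMem_empty w)

theorem x6_bal {m n : ℕ} (π : Fin m → Fin n → Fin n) (U Z : Finset (Fin m × Fin n)) (hZU : Z ⊆ U)
    (hbal : ∀ x, (U.filter (fun z => z.2 = x)).card = (U.filter (fun z => π z.1 z.2 = x)).card)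
    (hc : ∀ z ∈ Z, ∀ w ∈ Z, z.2 = w.2 → z = w) (hh : ∀ z ∈ Z, ∃ w ∈ Z, w.2 = π z.1 z.2)
    (hi : ∀ z ∈ Z, ∀ w ∈ Z, π z.1 z.2 = π w.1 w.2 → z = w) :
    ∀ x, ((U \ Z).filter (fun z => z.2 = x)).card =
      ((U \ Z).filter (fun z => π z.1 z.2 = x)).card := by
  intro x
  have hsub : Z.image (fun z => π z.1 z.2) ⊆ Z.image (fun z => z.2) := by
    intro y hy
    obtain ⟨z, hz, rfl⟩ := Finset.mem_image.1 hy
    obtain ⟨w, hw, hwz⟩ := hh z hz
    exact Finset.mem_image.2 ⟨w, hw, hwz⟩
  have h1 : (Z.image (fun z => π z.1 z.2)).card = Z.card :=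
    Finset.card_image_of_injOn (fun z hz w hw h => hi z hz w hw h)
  have h2 : (Z.image (fun z : Fin m × Fin n => z.2)).card = Z.card :=
    Finset.card_image_of_injOn (fun z hz w hw h => hc z hz w hw h)
  have heq : Z.image (fun z => π z.1 z.2) = Z.image (fun z => z.2) :=
    Finset.eq_of_subset_of_card_le hsub (by rw [h1, h2])
  have key : ∀ f : Fin m × Fin n → Fin n,
      ((U \ Z).filter (fun z => f z = x)).card + (Z.filter (fun z => f z = x)).card =
        (U.filter (fun z => f z = x)).card := by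
    intro f
    rw [← Finset.card_union_of_disjoint]
    · congr 1
      ext z
      simp only [Finset.mem_union, Finset.mem_filter, Finset.mem_sdiff]
      constructor
      · rintro (⟨⟨h, _⟩, h'⟩ | ⟨h, h'⟩)
        · exact ⟨h, h'⟩
        · exact ⟨hZU h, h'⟩
      · rintro ⟨h, h'⟩
        by_cases hz : z ∈ Z
        · exact Or.inr ⟨hz, h'⟩
        · exact Or.inl ⟨⟨h, hz⟩, h'⟩
    · rw [Finset.disjoint_left]
      intro z hz hz'
      rw [Finset.mem_filter, Finset.mem_sdiff] at hz
      rw [Finset.mem_filter] at hz'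
      exact hz.1.2 hz'.1
  have k1 := key (fun z => z.2)
  have k2 := key (fun z => π z.1 z.2)
  have f1 := x6_fib Z (fun z => z.2) hc x
  have f2 := x6_fib Z (fun z => π z.1 z.2) hi x
  rw [heq] at f2
  have hb := hbal x

  omega

theorem x6_claim {m n k : ℕ} {A : Fin m → Fin n → Fin k} (H : Finset (Fin m))
    (π : Fin m → Fin n → Fin n) (hπ : ∀ i, Function.Injective (π i))
    (hcon : ∀ i j j', (∀ h ∈ H, A h j' = A i j) → π i j = j') :
    ∀ (N : ℕ) (U : Finset (Fin m × Fin n)), U.card ≤ N →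
      (∀ x, (U.filter (fun z => z.2 = x)).card = (U.filter (fun z => π z.1 z.2 = x)).card) →
      ∃ F : Finset (Finset (Fin m × Fin n)),
        (∀ P ∈ F, P.Nonempty ∧ P ⊆ U ∧ ClosedClass A H P) ∧
        (∀ P ∈ F, ∀ P' ∈ F, P ≠ P' → Disjoint P P') ∧
        ∀ j : Fin n, (U.filter (fun z => z.2 = j ∧ ∀ P ∈ F, z ∉ P)).card ≤ n - 1 := by
  classical
  intro N
  induction N with
  | zero =>
    intro U hU _
    have hU0 : U = ∅ := Finset.card_eq_zero.1 (Nat.le_zero.1 hU)
    subst hU0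
    exact ⟨∅, fun P hP => absurd hP (Finset.notMem_empty P),
      fun P hP => absurd hP (Finset.notMem_empty P), fun j => by simp⟩
  | succ N ih =>
    intro U hU hbal
    by_cases h : ∀ j : Fin n, (U.filter (fun z => z.2 = j)).card ≤ n - 1
    · refine ⟨∅, fun P hP => absurd hP (Finset.notMem_empty P),
        fun P hP => absurd hP (Finset.notMem_empty P), fun j => ?_⟩
      refine le_trans (Finset.card_le_card ?_) (h j)
      intro z hz
      rw [Finset.mem_filter] at hz ⊢
      exact ⟨hz.1, hz.2.1⟩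
    · push Not at h
      obtain ⟨v, hv⟩ := h
      have hv' : Fintype.card (Fin n) ≤ (U.filter (fun z => z.2 = v)).card := by
        rw [Fintype.card_fin]
        omega
      obtain ⟨Z₀, hZ₀U, hZ₀ne, hrow₀, hhead₀⟩ := rainbow π hπ U hbal v hv'
      obtain ⟨Z, hZZ₀, hZne, hcol, hhead, hinj⟩ := rainbow_simple π Z₀ hZ₀ne hrow₀ hhead₀
      have hZU : Z ⊆ U := hZZ₀.trans hZ₀U
      have hrow : ∀ z ∈ Z, ∀ w ∈ Z, z.1 = w.1 → z = w := fun z hz w hw =>
        hrow₀ z (hZZ₀ hz) w (hZZ₀ hw)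
      have hbal' := x6_bal π U Z hZU hbal hcol hhead hinj
      have hcard : (U \ Z).card ≤ N := by
        have h1 := Finset.card_sdiff_add_card_eq_card hZU
        have h2 : 0 < Z.card := hZne.card_pos
        omega
      obtain ⟨F', hF1, hF2, hF3⟩ := ih (U \ Z) hcard hbal'
      -- the permutation of the columns
      let g : Fin n → Fin n := fun x =>
        if h : ∃ z ∈ Z, z.2 = x then π (Classical.choose h).1 (Classical.choose h).2 else x
      have hg : ∀ z ∈ Z, g z.2 = π z.1 z.2 := by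
        intro z hz
        have h : ∃ w ∈ Z, w.2 = z.2 := ⟨z, hz, rfl⟩
        have h1 : Classical.choose h = z :=
          hcol _ (Classical.choose_spec h).1 z hz (Classical.choose_spec h).2
        change (if h : ∃ w ∈ Z, w.2 = z.2 then
          π (Classical.choose h).1 (Classical.choose h).2 else z.2) = _
        rw [dif_pos h, h1]
      let O : Finset (Fin n) := Z.image (fun z => z.2)
      have hO : ∀ x, x ∈ O ↔ ∃ z ∈ Z, z.2 = x := fun x => Finset.mem_image
      have hgO : ∀ x ∈ O, g x ∈ O := by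
        intro x hx
        obtain ⟨z, hz, rfl⟩ := (hO x).1 hx
        rw [hg z hz]
        obtain ⟨w, hw, hwz⟩ := hhead z hz
        exact (hO _).2 ⟨w, hw, hwz⟩
      have hginj : ∀ x ∈ O, ∀ y ∈ O, g x = g y → x = y := by
        intro x hx y hy hxy
        obtain ⟨z, hz, rfl⟩ := (hO x).1 hx
        obtain ⟨w, hw, rfl⟩ := (hO y).1 hy
        rw [hg z hz, hg w hw] at hxy
        rw [hinj z hz w hw hxy]
      let free : Fin n → Prop := fun x => ∃ z ∈ Z, z.2 = x ∧ ¬ ∃ j', ∀ h ∈ H, A h j' = A z.1 z.2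
      obtain ⟨Fo, hQ1, hQ2, hQ3⟩ := split_orbits O g hgO hginj free
      have hnf : ∀ z ∈ Z, ∀ j', (∀ h ∈ H, A h j' = A z.1 z.2) → ¬ free z.2 := by
        rintro z hz j' hj' ⟨w, hw, hwz, hn⟩
        have hwz' := hcol w hw z hz hwz
        subst hwz'
        exact hn ⟨j', hj'⟩
      have hP : ∀ Q ∈ Fo, (Z.filter (fun z => z.2 ∈ Q)).Nonempty ∧
          Z.filter (fun z => z.2 ∈ Q) ⊆ U ∧ ClosedClass A H (Z.filter (fun z => z.2 ∈ Q)) := by
        intro Q hQ
        obtain ⟨hQne, hQO, hQg, hQf⟩ := hQ1 Q hQ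
        refine ⟨?_, (Finset.filter_subset _ _).trans hZU, ?_, ?_, ?_, ?_⟩
        · obtain ⟨x, hx⟩ := hQne
          obtain ⟨z, hz, rfl⟩ := (hO x).1 (hQO hx)
          exact ⟨z, Finset.mem_filter.2 ⟨hz, hx⟩⟩
        · intro z hz w hw
          exact hrow z (Finset.mem_filter.1 hz).1 w (Finset.mem_filter.1 hw).1
        · intro z hz w hw
          exact hcol z (Finset.mem_filter.1 hz).1 w (Finset.mem_filter.1 hw).1
        · intro z hz w hw hA'
          obtain ⟨hz1, hz2⟩ := Finset.mem_filter.1 hz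
          obtain ⟨hw1, hw2⟩ := Finset.mem_filter.1 hw
          by_cases hc : ∃ j', ∀ h ∈ H, A h j' = A z.1 z.2
          · obtain ⟨j', hj'⟩ := hc
            have e1 := hcon z.1 z.2 j' hj'
            have e2 := hcon w.1 w.2 j' (fun h hh => (hj' h hh).trans hA')
            exact hinj z hz1 w hw1 (e1.trans e2.symm)
          · have fz : free z.2 := ⟨z, hz1, rfl, hc⟩
            have fw : free w.2 := ⟨w, hw1, rfl, by rw [← hA']; exact hc⟩
            exact hcol z hz1 w hw1 (hQf z.2 hz2 w.2 hw2 fz fw)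
        · intro z hz j hj
          obtain ⟨hz1, hz2⟩ := Finset.mem_filter.1 hz
          have e1 := hcon z.1 z.2 j hj
          have e2 := hQg z.2 hz2 (hnf z hz1 j hj)
          rw [hg z hz1, e1] at e2
          obtain ⟨w, hw, hwj⟩ := (hO j).1 (hQO e2)
          exact ⟨w, Finset.mem_filter.2 ⟨hw, by rw [hwj]; exact e2⟩, hwj⟩
      refine ⟨F' ∪ Fo.image (fun Q => Z.filter (fun z => z.2 ∈ Q)), ?_, ?_, ?_⟩
      · intro P hPF
        rcases Finset.mem_union.1 hPF with h1 | h1
        · obtain ⟨a1, a2, a3⟩ := hF1 P h1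
          exact ⟨a1, a2.trans Finset.sdiff_subset, a3⟩
        · obtain ⟨Q, hQ, rfl⟩ := Finset.mem_image.1 h1
          exact hP Q hQ
      · intro P hPF P' hPF' hne
        rcases Finset.mem_union.1 hPF with h1 | h1
        · rcases Finset.mem_union.1 hPF' with h2 | h2
          · exact hF2 P h1 P' h2 hne
          · obtain ⟨Q, hQ, rfl⟩ := Finset.mem_image.1 h2
            rw [Finset.disjoint_left]
            intro z hz hz'
            exact (Finset.mem_sdiff.1 ((hF1 P h1).2.1 hz)).2 (Finset.mem_filter.1 hz').1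
        · obtain ⟨Q, hQ, rfl⟩ := Finset.mem_image.1 h1
          rcases Finset.mem_union.1 hPF' with h2 | h2
          · rw [Finset.disjoint_left]
            intro z hz hz'
            exact (Finset.mem_sdiff.1 ((hF1 P' h2).2.1 hz')).2 (Finset.mem_filter.1 hz).1
          · obtain ⟨Q', hQ', rfl⟩ := Finset.mem_image.1 h2
            have hQQ : Q ≠ Q' := by
              rintro rfl
              exact hne rfl
            have hd := hQ2 Q hQ Q' hQ' hQQ
            rw [Finset.disjoint_left] at hd ⊢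
            intro z hz hz'
            exact hd (Finset.mem_filter.1 hz).2 (Finset.mem_filter.1 hz').2
      · intro j
        refine le_trans (Finset.card_le_card ?_) (hF3 j)
        intro z hz
        rw [Finset.mem_filter] at hz ⊢
        obtain ⟨hz1, hz2, hz3⟩ := hz
        refine ⟨?_, hz2, fun P hP' => hz3 P (Finset.mem_union_left _ hP')⟩
        rw [Finset.mem_sdiff]
        refine ⟨hz1, fun hzZ => ?_⟩
        obtain ⟨Q, hQ, hzQ⟩ := hQ3 z.2 ((hO _).2 ⟨z, hzZ, rfl⟩)
        exact hz3 _ (Finset.mem_union_right _ (Finset.mem_image.2 ⟨Q, hQ, rfl⟩))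
          (Finset.mem_filter.2 ⟨hzZ, hzQ⟩)

theorem x6_start {m n : ℕ} (π : Fin m → Fin n → Fin n) (hπ : ∀ i, Function.Injective (π i))
    (R : Finset (Fin m)) (x : Fin n) :
    ((R ×ˢ (Finset.univ : Finset (Fin n))).filter (fun z => z.2 = x)).card =
      ((R ×ˢ (Finset.univ : Finset (Fin n))).filter (fun z => π z.1 z.2 = x)).card := by
  have hs : ∀ i, ∃ y, π i y = x := fun i => (Finite.injective_iff_surjective.1 (hπ i)) x
  choose s hs using hs
  have e1 : (R ×ˢ (Finset.univ : Finset (Fin n))).filter (fun z => z.2 = x) =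
      R.image (fun i => (i, x)) := by
    ext ⟨i, y⟩
    simp only [Finset.mem_filter, Finset.mem_product, Finset.mem_univ, and_true,
      Finset.mem_image, Prod.mk.injEq]
    constructor
    · rintro ⟨h1, h2⟩
      exact ⟨i, h1, rfl, h2.symm⟩
    · rintro ⟨i', h1, rfl, h2⟩
      exact ⟨h1, h2.symm⟩
  have e2 : (R ×ˢ (Finset.univ : Finset (Fin n))).filter (fun z => π z.1 z.2 = x) =
      R.image (fun i => (i, s i)) := by
    ext ⟨i, y⟩
    simp only [Finset.mem_filter, Finset.mem_product, Finset.mem_univ, and_true,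
      Finset.mem_image, Prod.mk.injEq]
    constructor
    · rintro ⟨h1, h2⟩
      exact ⟨i, h1, rfl, hπ i ((hs i).trans h2.symm)⟩
    · rintro ⟨i', h1, rfl, h2⟩
      exact ⟨h1, by rw [← h2]; exact hs i'⟩
  rw [e1, e2, Finset.card_image_of_injective _ (fun i i' h => (Prod.mk.inj h).1),
    Finset.card_image_of_injective _ (fun i i' h => (Prod.mk.inj h).1)]

theorem packing {m n k : ℕ} {A : Fin m → Fin n → Fin k} (hA : RowLatin A)
    (H R : Finset (Fin m)) (hne : H.Nonempty) (hU : Uniform A H) :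
    ∃ F : Finset (Finset (Fin m × Fin n)),
      (∀ P ∈ F, P.Nonempty ∧ (∀ z ∈ P, z.1 ∈ R) ∧ ClosedClass A H P) ∧
      (∀ P ∈ F, ∀ P' ∈ F, P ≠ P' → Disjoint P P') ∧
      ∀ (j : Fin n) (L : Finset (Fin m)), L ⊆ R → (∀ i ∈ L, ∀ P ∈ F, (i, j) ∉ P) →
        L.card ≤ n - 1 := by
  classical
  obtain ⟨π, hπ, hcon⟩ := exists_perms hA H hne hU
  obtain ⟨F, h1, h2, h3⟩ := x6_claim (A := A) H π hπ hcon _ (R ×ˢ Finset.univ) le_rfl
    (x6_start π hπ R)
  refine ⟨F, fun P hP => ⟨(h1 P hP).1, fun z hz => ?_, (h1 P hP).2.2⟩, h2, ?_⟩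
  · exact (Finset.mem_product.1 ((h1 P hP).2.1 hz)).1
  · intro j L hL hLP
    have h4 : (L.image (fun i => (i, j))).card = L.card :=
      Finset.card_image_of_injective _ (fun i i' h => (Prod.mk.inj h).1)
    rw [← h4]
    refine le_trans (Finset.card_le_card ?_) (h3 j)
    intro z hz
    obtain ⟨i, hi, rfl⟩ := Finset.mem_image.1 hz
    rw [Finset.mem_filter]
    exact ⟨Finset.mem_product.2 ⟨hL hi, Finset.mem_univ _⟩, rfl, hLP i hi⟩


end H884
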