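import Pool.Agent.H884.ExDefs

set_option autoImplicit false

namespace H884

open Finset

theorem x4_stepA {m n k K : ℕ} (hn : 1 ≤ n) {A : Fin m → Fin n → Fin k} (hA : RowLatin A)
    (S : Finset (Fin m)) (hS : (K - 1) * n ^ n < S.card) :
    ∃ c : Fin k → Fin n, K ≤ (S.filter (fun i => ∀ j, c (A i j) = j)).card := by
  classical
  have : NeZero n := ⟨by omega⟩
  by_contra hcon
  push Not at hcon
  have hpos : 0 < (univ : Finset (Fin k → Fin n)).card := by
    rw [card_pos]; exact univ_nonempty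
  have h1 : S.card * (univ : Finset (Fin k → Fin n)).card ≤
      ∑ i ∈ S, (univ.filter (fun c : Fin k → Fin n => ∀ j, c (A i j) = j)).card * n ^ n := by
    rw [← smul_eq_mul, ← sum_const]
    exact sum_le_sum (fun i _ => card_le_compat hA i)
  have h2 : ∑ i ∈ S, (univ.filter (fun c : Fin k → Fin n => ∀ j, c (A i j) = j)).card =
      ∑ c : Fin k → Fin n, (S.filter (fun i => ∀ j, c (A i j) = j)).card := by
    simp only [card_filter]
    exact sum_comm
  have h3 : ∑ c : Fin k → Fin n, (S.filter (fun i => ∀ j, c (A i j) = j)).card ≤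
      (univ : Finset (Fin k → Fin n)).card * (K - 1) := by
    rw [← smul_eq_mul, ← sum_const]
    exact sum_le_sum (fun c _ => by have := hcon c; omega)
  rw [← sum_mul, h2] at h1
  have h4 : S.card * (univ : Finset (Fin k → Fin n)).card ≤
      ((K - 1) * n ^ n) * (univ : Finset (Fin k → Fin n)).card := by
    calc S.card * (univ : Finset (Fin k → Fin n)).card
        ≤ (∑ c : Fin k → Fin n, (S.filter (fun i => ∀ j, c (A i j) = j)).card) * n ^ n := h1
      _ ≤ ((univ : Finset (Fin k → Fin n)).card * (K - 1)) * n ^ n :=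
          Nat.mul_le_mul_right _ h3
      _ = ((K - 1) * n ^ n) * (univ : Finset (Fin k → Fin n)).card := by ring
  have h5 := Nat.le_of_mul_le_mul_right h4 hpos
  omega

theorem x4_stepB {m k q : ℕ} (hq : 1 ≤ q) (f : Fin m → Fin k) (B : Finset (Fin m))
    (hB : q * q ≤ B.card) :
    ∃ B' ⊆ B, q ≤ B'.card ∧
      ((∀ i ∈ B', ∀ i' ∈ B', f i = f i') ∨ (∀ i ∈ B', ∀ i' ∈ B', f i = f i' → i = i')) := by
  classical
  by_cases h : ∃ s : Fin k, q ≤ (B.filter (fun i => f i = s)).card
  · obtain ⟨s, hs⟩ := h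
    refine ⟨B.filter (fun i => f i = s), filter_subset _ _, hs, Or.inl ?_⟩
    intro i hi i' hi'
    rw [(mem_filter.1 hi).2, (mem_filter.1 hi').2]
  · push Not at h
    have h1 : B.card ≤ (q - 1) * (B.image f).card := by
      refine card_le_mul_card_image B (q - 1) ?_
      intro b _
      have := h b
      omega
    have h2 : q ≤ (B.image f).card := by
      by_contra hcon
      have h3 : (B.image f).card ≤ q - 1 := by omega
      have h4 : (q - 1) * (B.image f).card ≤ (q - 1) * (q - 1) := Nat.mul_le_mul_left _ h3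
      obtain ⟨r, rfl⟩ : ∃ r, q = r + 1 := ⟨q - 1, by omega⟩
      simp only [Nat.add_sub_cancel] at h4 h1
      nlinarith
    have h5 : ∀ s : Fin k, ∃ i : Fin m, s ∈ B.image f → i ∈ B ∧ f i = s := by
      intro s
      by_cases hs : s ∈ B.image f
      · obtain ⟨i, hi, hi2⟩ := mem_image.1 hs
        exact ⟨i, fun _ => ⟨hi, hi2⟩⟩
      · have hne : B.Nonempty := by
          rw [← card_pos]
          have : 0 < q * q := Nat.mul_pos hq hq
          omega
        obtain ⟨i, _⟩ := hne
        exact ⟨i, fun h => absurd h hs⟩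
    choose g hg using h5
    refine ⟨(B.image f).image g, ?_, ?_, Or.inr ?_⟩
    · intro i hi
      obtain ⟨s, hs, rfl⟩ := mem_image.1 hi
      exact (hg s hs).1
    · rw [card_image_of_injOn]
      · exact h2
      · intro s hs s' hs' he
        have h6 := (hg s hs).2
        have h7 := (hg s' hs').2
        rw [he] at h6
        exact h6.symm.trans h7
    · intro i hi i' hi' he
      obtain ⟨s, hs, rfl⟩ := mem_image.1 hi
      obtain ⟨s', hs', rfl⟩ := mem_image.1 hi'
      rw [(hg s hs).2, (hg s' hs').2] at he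
      rw [he]

theorem x4_stepC {m n k q : ℕ} (hq : 1 ≤ q) (A : Fin m → Fin n → Fin k) (J : Finset (Fin n)) :
    ∀ B : Finset (Fin m), q ^ (2 ^ J.card) ≤ B.card →
    ∃ B' ⊆ B, q ≤ B'.card ∧ ∀ j ∈ J,
      ((∀ i ∈ B', ∀ i' ∈ B', A i j = A i' j) ∨
        (∀ i ∈ B', ∀ i' ∈ B', A i j = A i' j → i = i')) := by
  classical
  induction J using Finset.induction_on generalizing q with
  | empty =>
    intro B hB
    refine ⟨B, Subset.refl _, ?_, ?_⟩
    · simpa using hB
    · intro j hj
      simp at hj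
  | insert j J hj ih =>
    intro B hB
    rw [card_insert_of_notMem hj] at hB
    have h1 : (q * q) ^ (2 ^ J.card) ≤ B.card := by
      have : (q * q) ^ (2 ^ J.card) = q ^ (2 ^ (J.card + 1)) := by
        rw [← pow_two, ← pow_mul, pow_succ, mul_comm]
      rw [this]
      exact hB
    obtain ⟨B1, hB1, hc1, hp1⟩ := ih (Nat.mul_pos hq hq) B h1
    obtain ⟨B2, hB2, hc2, hp2⟩ := x4_stepB hq (fun i => A i j) B1 hc1
    refine ⟨B2, hB2.trans hB1, hc2, ?_⟩
    intro j' hj'
    rcases mem_insert.1 hj' with rfl | hj''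
    · exact hp2
    · rcases hp1 j' hj'' with h | h
      · exact Or.inl fun i hi i' hi' => h i (hB2 hi) i' (hB2 hi')
      · exact Or.inr fun i hi i' hi' => h i (hB2 hi) i' (hB2 hi')

theorem exists_uniform {m n k q : ℕ} (hn : 1 ≤ n) {A : Fin m → Fin n → Fin k} (hA : RowLatin A)
    (S : Finset (Fin m)) (hS : q ^ (2 ^ n) * n ^ n ≤ S.card) :
    ∃ H ⊆ S, H.card = q ∧ Uniform A H := by
  classical
  rcases Nat.eq_zero_or_pos q with rfl | hq
  · refine ⟨∅, empty_subset _, card_empty, ⟨fun _ => ⟨0, by omega⟩, ?_⟩, ?_⟩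
    · intro i hi
      simp at hi
    · intro j
      left
      intro i hi
      simp at hi
  · have hnn : 0 < n ^ n := Nat.pow_pos (by omega)
    have hK : 0 < q ^ (2 ^ n) := Nat.pow_pos hq
    have h1 : (q ^ (2 ^ n) - 1) * n ^ n < S.card := by
      refine lt_of_lt_of_le ?_ hS
      exact Nat.mul_lt_mul_of_pos_right (by omega) hnn
    obtain ⟨c, hc⟩ := x4_stepA hn hA S h1
    have h2 : q ^ (2 ^ (univ : Finset (Fin n)).card) ≤
        (S.filter (fun i => ∀ j, c (A i j) = j)).card := by
      rw [card_univ, Fintype.card_fin]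
      exact hc
    obtain ⟨B, hB, hBc, hBp⟩ := x4_stepC hq A univ _ h2
    obtain ⟨H, hH, hHc⟩ := exists_subset_card_eq hBc
    refine ⟨H, fun i hi => (mem_filter.1 (hB (hH hi))).1, hHc, ⟨c, ?_⟩, ?_⟩
    · intro i hi
      exact (mem_filter.1 (hB (hH hi))).2
    · intro j
      rcases hBp j (mem_univ j) with h | h
      · exact Or.inl fun i hi i' hi' => h i (hH hi) i' (hH hi')
      · exact Or.inr fun i hi i' hi' => h i (hH hi) i' (hH hi')

end H884
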