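import Pool.Agent.H884.ExCompletion
import Pool.Agent.H884.ExPacking
import Pool.Agent.H884.ExUniform

set_option autoImplicit false

namespace H884

open Finset

/-- The exact number of disjoint transversals in a uniform set of rows together with a small set
`R` of arbitrary rows. -/
theorem uniform_union {m n k : ℕ} (hn : 1 ≤ n) {A : Fin m → Fin n → Fin k} (hA : RowLatin A)
    (H R : Finset (Fin m)) (hHR : Disjoint H R) (hU : Uniform A H)
    (hcard : (n + 1) * R.card + 3 * n + 1 ≤ H.card) :
    HasDisjointIn A (H ∪ R) (H.card + R.card - (n - 1)) := by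
  classical
  have hexp : (n + 1) * R.card = n * R.card + R.card := by ring
  have hne : H.Nonempty := by
    rw [← card_pos]; omega
  obtain ⟨F, hF1, hF2, hF3⟩ := packing hA H R hne hU
  set q := H.card + R.card - (n - 1) with hq
  -- the number of classes is small
  have hFc : F.card ≤ q := by
    have h1 : F.card ≤ (F.biUnion id).card := by
      apply card_le_card_biUnion
      · intro P hP P' hP' hne'
        exact hF2 P hP P' hP' hne'
      · intro P hP
        exact (hF1 P hP).1
    have h2 : F.biUnion id ⊆ R ×ˢ (univ : Finset (Fin n)) := by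
      intro z hz
      obtain ⟨P, hP, hzP⟩ := mem_biUnion.1 hz
      rw [mem_product]
      exact ⟨(hF1 P hP).2.1 z hzP, mem_univ _⟩
    have h3 := card_le_card h2
    rw [card_product, card_univ, Fintype.card_fin] at h3
    have h4 : R.card * n = n * R.card := Nat.mul_comm _ _
    omega
  let e := F.equivFin
  let P : Fin q → Finset (Fin m × Fin n) := fun a =>
    if h : a.1 < F.card then (e.symm ⟨a.1, h⟩ : Finset (Fin m × Fin n)) else ∅
  have hPF : ∀ a, P a ∈ F ∨ P a = ∅ := by
    intro a
    by_cases h : a.1 < F.card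
    · left
      simp only [P, h, dite_true]
      exact (e.symm ⟨a.1, h⟩).2
    · right
      simp only [P, h, dite_false]
  have hPd : ∀ a a', a ≠ a' → Disjoint (P a) (P a') := by
    intro a a' haa
    by_cases h : a.1 < F.card
    · by_cases h' : a'.1 < F.card
      · have hne' : (e.symm ⟨a.1, h⟩ : Finset (Fin m × Fin n)) ≠ e.symm ⟨a'.1, h'⟩ := by
          intro hcon
          have := e.symm.injective (Subtype.ext hcon)
          simp only [Fin.mk.injEq] at this
          exact haa (Fin.ext this)
        simp only [P, h, h', dite_true]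
        exact hF2 _ (e.symm ⟨a.1, h⟩).2 _ (e.symm ⟨a'.1, h'⟩).2 hne'
      · simp only [P, h', dite_false]
        exact disjoint_empty_right _
    · simp only [P, h, dite_false]
      exact disjoint_empty_left _
  have hsurj : ∀ Q ∈ F, ∃ a, P a = Q := by
    intro Q hQ
    refine ⟨⟨(e ⟨Q, hQ⟩).1, lt_of_lt_of_le (e ⟨Q, hQ⟩).2 hFc⟩, ?_⟩
    simp [P]
  refine completion hA H R hHR hU (by nlinarith) P ?_ ?_ hPd ?_
  · intro a z hz
    rcases hPF a with h | h
    · exact (hF1 _ h).2.1 z hz
    · rw [h] at hz; simp at hz
  · intro a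
    rcases hPF a with h | h
    · exact (hF1 _ h).2.2
    · rw [h]
      refine ⟨?_, ?_, ?_, ?_⟩ <;> intro z hz <;> simp at hz
  · intro j L hL
    -- the covered rows of column `j`
    set Cv : Finset (Fin m) := R.filter (fun i => ∃ Q ∈ F, (i, j) ∈ Q) with hCv
    have hunc : (R \ Cv).card ≤ n - 1 := by
      refine hF3 j (R \ Cv) sdiff_subset ?_
      intro i hi Q hQ hcon
      rw [mem_sdiff, hCv, mem_filter] at hi
      exact hi.2 ⟨hi.1, Q, hQ, hcon⟩
    have hCR : Cv ⊆ R := filter_subset _ _
    have hC : R.card ≤ Cv.card + (n - 1) := by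
      have := card_sdiff_of_subset hCR
      have := card_le_card hCR
      omega
    -- each covered row has its own class, outside `L`
    have hcl : ∀ i : Fin m, ∃ a : Fin q ⊕ Unit, i ∈ Cv → ∃ a', a = Sum.inl a' ∧ (i, j) ∈ P a' := by
      intro i
      by_cases hi : i ∈ Cv
      · rw [hCv, mem_filter] at hi
        obtain ⟨_, Q, hQ, hQi⟩ := hi
        obtain ⟨a, ha⟩ := hsurj Q hQ
        exact ⟨Sum.inl a, fun _ => ⟨a, rfl, ha ▸ hQi⟩⟩
      · exact ⟨Sum.inr (), fun h => absurd h hi⟩
    choose κ hκ using hcl
    have hCL : Cv.card ≤ ((univ \ L).image (Sum.inl : Fin q → Fin q ⊕ Unit)).card := by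
      refine card_le_card_of_injOn κ ?_ ?_
      · intro i hi
        obtain ⟨a, ha, hai⟩ := hκ i hi
        rw [ha, mem_coe, mem_image]
        refine ⟨a, ?_, rfl⟩
        rw [mem_sdiff]
        exact ⟨mem_univ _, fun haL => hL a haL _ hai rfl⟩
      · intro i hi i' hi' hii
        obtain ⟨a, ha, hai⟩ := hκ i hi
        obtain ⟨a', ha', hai'⟩ := hκ i' hi'
        have haa : a = a' := by
          have : (Sum.inl a : Fin q ⊕ Unit) = Sum.inl a' := by rw [← ha, ← ha', hii]
          exact Sum.inl_injective this
        subst haa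
        rcases hPF a with h | h
        · have := (hF1 _ h).2.2.2.1 _ hai _ hai' rfl
          exact congrArg Prod.fst this
        · rw [h] at hai; simp at hai
    rw [card_image_of_injective _ Sum.inl_injective, card_sdiff_of_subset (subset_univ L), card_univ,
      Fintype.card_fin] at hCL
    have hLq : L.card ≤ q := by simpa using card_le_univ L
    omega

/-- Q1 for every `n` and all large `m`. -/
theorem exact_large {m n k : ℕ} (hn : 1 ≤ n)
    (hm : ((n + 1) * ((n - 1) * n ^ n) + 3 * n + 1) ^ (2 ^ n) * n ^ n ≤ m)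
    (A : Fin m → Fin n → Fin k) (hA : RowLatin A) : HasDisjoint A (m - (n - 1)) := by
  classical
  obtain ⟨H, -, hHc, hU⟩ := exists_uniform (q := (n + 1) * ((n - 1) * n ^ n) + 3 * n + 1) hn hA
    (univ : Finset (Fin m)) (by rw [card_univ, Fintype.card_fin]; exact hm)
  obtain ⟨R, hR, hRc, hRd⟩ := peel_rest hn hA (univ \ H)
  have hHR : Disjoint H R := disjoint_of_subset_right hR (disjoint_sdiff (s := H) (t := univ))
  have hmul : (n + 1) * R.card ≤ (n + 1) * ((n - 1) * n ^ n) := Nat.mul_le_mul_left _ hRc
  have h1 := uniform_union hn hA H R hHR hU (by omega)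
  have hdis : Disjoint ((univ \ H) \ R) (H ∪ R) := by
    rw [disjoint_left]
    intro x hx hx'
    rw [mem_sdiff, mem_sdiff] at hx
    rw [mem_union] at hx'
    rcases hx' with h | h
    · exact hx.1.2 h
    · exact hx.2 h
  have h2 := (hRd.union hdis h1).hasDisjoint
  refine h2.mono ?_
  have hcH : (univ \ H : Finset (Fin m)).card = m - H.card := by
    rw [card_sdiff_of_subset (subset_univ H), card_univ, Fintype.card_fin]
  have hHm : H.card ≤ m := by simpa using card_le_univ H
  have hRm := card_le_card hR
  have hexp : (n + 1) * R.card = n * R.card + R.card := by ring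
  omega

end H884
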