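import Pool.Agent.H884.ExDefs

set_option autoImplicit false

namespace H884

open Finset

theorem x1_pos {ι : Type} [Fintype ι] [DecidableEq ι] (c : Finset ι → ℤ) :
    ∑ i : ι, ∑ Y : Finset ι, (if i ∈ Y then c Y else 0) = ∑ Y : Finset ι, (Y.card : ℤ) * c Y := by
  rw [Finset.sum_comm]
  apply Finset.sum_congr rfl
  intro Y _
  rw [Finset.sum_ite_mem, Finset.univ_inter, Finset.sum_const, nsmul_eq_mul]

theorem x1_neg {ι : Type} [Fintype ι] [DecidableEq ι] (c : Finset ι → ℤ) :
    ∑ i : ι, ∑ Y : Finset ι, (if i ∈ Y then 0 else c Y) =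
      ∑ Y : Finset ι, ((Fintype.card ι : ℤ) - (Y.card : ℤ)) * c Y := by
  rw [Finset.sum_comm]
  apply Finset.sum_congr rfl
  intro Y _
  have h : ∀ i : ι, (if i ∈ Y then 0 else c Y) = c Y - (if i ∈ Y then c Y else 0) := by
    intro i
    by_cases h : i ∈ Y <;> simp [h]
  simp only [h]
  rw [Finset.sum_sub_distrib, Finset.sum_ite_mem, Finset.univ_inter, Finset.sum_const,
    Finset.sum_const, nsmul_eq_mul, nsmul_eq_mul, Finset.card_univ, sub_mul]

/-- the insert part -/
theorem x1_ins {ι : Type} [Fintype ι] [DecidableEq ι] (f : Finset ι → ℤ) (W : ℕ → ℤ) :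
    ∑ i : ι, ∑ X : Finset ι, W X.card * f (insert i X) =
      ∑ Y : Finset ι, (Y.card : ℤ) * ((W Y.card + W (Y.card - 1)) * f Y) := by
  rw [← x1_pos]
  apply Finset.sum_congr rfl
  intro i _
  rw [← Finset.sum_filter_add_sum_filter_not univ (fun X : Finset ι => i ∈ X)
    (fun X => W X.card * f (insert i X)), ← Finset.sum_filter]
  have h1 : ∑ X ∈ univ.filter (fun X : Finset ι => i ∈ X), W X.card * f (insert i X) =
      ∑ X ∈ univ.filter (fun X : Finset ι => i ∈ X), W X.card * f X := by
    apply Finset.sum_congr rfl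
    intro X hX
    rw [Finset.insert_eq_of_mem (Finset.mem_filter.1 hX).2]
  have h2 : ∑ X ∈ univ.filter (fun X : Finset ι => ¬ i ∈ X), W X.card * f (insert i X) =
      ∑ X ∈ univ.filter (fun X : Finset ι => i ∈ X), W (X.card - 1) * f X := by
    apply Finset.sum_nbij' (fun X => insert i X) (fun X => X.erase i)
    · intro X hX
      simp
    · intro X hX
      simp
    · intro X hX
      exact Finset.erase_insert (Finset.mem_filter.1 hX).2
    · intro X hX
      exact Finset.insert_erase (Finset.mem_filter.1 hX).2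
    · intro X hX
      rw [Finset.card_insert_of_notMem (Finset.mem_filter.1 hX).2, Nat.add_sub_cancel]
  rw [h1, h2, ← Finset.sum_add_distrib]
  apply Finset.sum_congr rfl
  intro X _
  ring

/-- the erase part -/
theorem x1_era {ι : Type} [Fintype ι] [DecidableEq ι] (f : Finset ι → ℤ) (W : ℕ → ℤ) :
    ∑ i : ι, ∑ X : Finset ι, W X.card * f (X.erase i) =
      ∑ Y : Finset ι, ((Fintype.card ι : ℤ) - (Y.card : ℤ)) *
        ((W Y.card + W (Y.card + 1)) * f Y) := by
  rw [← x1_neg]
  apply Finset.sum_congr rfl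
  intro i _
  rw [← Finset.sum_filter_add_sum_filter_not univ (fun X : Finset ι => i ∈ X)
    (fun X => W X.card * f (X.erase i))]
  have h0 : ∑ Y : Finset ι, (if i ∈ Y then 0 else (W Y.card + W (Y.card + 1)) * f Y) =
      ∑ Y ∈ univ.filter (fun X : Finset ι => ¬ i ∈ X), (W Y.card + W (Y.card + 1)) * f Y := by
    rw [Finset.sum_filter]
    apply Finset.sum_congr rfl
    intro Y _
    by_cases h : i ∈ Y <;> simp [h]
  have h1 : ∑ X ∈ univ.filter (fun X : Finset ι => ¬ i ∈ X), W X.card * f (X.erase i) =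
      ∑ X ∈ univ.filter (fun X : Finset ι => ¬ i ∈ X), W X.card * f X := by
    apply Finset.sum_congr rfl
    intro X hX
    rw [Finset.erase_eq_of_notMem (Finset.mem_filter.1 hX).2]
  have h2 : ∑ X ∈ univ.filter (fun X : Finset ι => i ∈ X), W X.card * f (X.erase i) =
      ∑ X ∈ univ.filter (fun X : Finset ι => ¬ i ∈ X), W (X.card + 1) * f X := by
    apply Finset.sum_nbij' (fun X => X.erase i) (fun X => insert i X)
    · intro X hX
      simp
    · intro X hX
      simp
    · intro X hX
      exact Finset.insert_erase (Finset.mem_filter.1 hX).2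
    · intro X hX
      exact Finset.erase_insert (Finset.mem_filter.1 hX).2
    · intro X hX
      rw [Finset.card_erase_add_one (Finset.mem_filter.1 hX).2]
  rw [h0, h1, h2, ← Finset.sum_add_distrib]
  apply Finset.sum_congr rfl
  intro X _
  ring

/-- the coefficients -/
theorem x1_coef (k a : ℕ) (ha : a ≤ k) :
    (a : ℤ) * (((a.factorial * (k - a).factorial : ℕ) : ℤ) +
        (((a - 1).factorial * (k - (a - 1)).factorial : ℕ) : ℤ)) -
      ((k : ℤ) - a) * (((a.factorial * (k - a).factorial : ℕ) : ℤ) +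
        (((a + 1).factorial * (k - (a + 1)).factorial : ℕ) : ℤ)) =
      (if a = k then ((k + 1).factorial : ℤ) else 0) - (if a = 0 then ((k + 1).factorial : ℤ) else 0) := by
  obtain ⟨b, rfl⟩ := Nat.exists_eq_add_of_le ha
  rcases a with _ | a
  · rcases b with _ | b
    · simp
    · have e1 : 0 + (b + 1) - 0 = b + 1 := by omega
      have e2 : 0 + (b + 1) - (0 + 1) = b := by omega
      have e3 : ¬ (0 = 0 + (b + 1)) := by omega
      rw [e1, e2, if_neg e3, if_pos rfl]
      simp only [Nat.zero_add, Nat.factorial_succ, Nat.factorial_zero, Nat.cast_mul, Nat.cast_add,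
        Nat.cast_one, Nat.cast_zero]
      ring
  · rcases b with _ | b
    · have e1 : a + 1 + 0 - (a + 1) = 0 := by omega
      have e2 : a + 1 + 0 - (a + 1 - 1) = 1 := by omega
      have e4 : a + 1 - 1 = a := by omega
      have e5 : a + 1 = a + 1 + 0 := by omega
      rw [e1, e2, e4, if_pos e5, if_neg (Nat.succ_ne_zero a)]
      simp only [Nat.add_zero, Nat.factorial_succ, Nat.factorial_zero, Nat.cast_mul, Nat.cast_add,
        Nat.cast_one, Nat.cast_zero]
      ring
    · have e1 : a + 1 + (b + 1) - (a + 1) = b + 1 := by omega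
      have e2 : a + 1 + (b + 1) - (a + 1 - 1) = b + 2 := by omega
      have e3 : a + 1 + (b + 1) - (a + 1 + 1) = b := by omega
      have e4 : a + 1 - 1 = a := by omega
      have e5 : ¬ (a + 1 = a + 1 + (b + 1)) := by omega
      rw [e1, e2, e3, e4, if_neg e5, if_neg (Nat.succ_ne_zero a)]
      simp only [Nat.factorial_succ, Nat.cast_mul, Nat.cast_add,
        Nat.cast_one]
      ring

theorem influence {ι : Type} [Fintype ι] [DecidableEq ι] (f : Finset ι → ℤ) :
    ∃ X : Finset ι, ∑ i, (f (insert i X) - f (X.erase i)) ≤ f univ - f ∅ := by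
  by_contra hcon
  push Not at hcon
  obtain ⟨k, hk⟩ : ∃ k, k = Fintype.card ι := ⟨_, rfl⟩
  let W : ℕ → ℤ := fun a => ((a.factorial * (k - a).factorial : ℕ) : ℤ)
  have hWpos : ∀ a, 0 < W a := by
    intro a
    show (0 : ℤ) < ((a.factorial * (k - a).factorial : ℕ) : ℤ)
    exact_mod_cast Nat.mul_pos (Nat.factorial_pos _) (Nat.factorial_pos _)
  -- total weight
  have hW : ∑ X : Finset ι, W X.card = ((k + 1).factorial : ℤ) := by
    have h1 := Finset.sum_powerset_apply_card W (x := (univ : Finset ι))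
    rw [Finset.powerset_univ] at h1
    rw [h1, Finset.card_univ, ← hk]
    have h2 : ∀ m ∈ Finset.range (k + 1), k.choose m • W m = (k.factorial : ℤ) := by
      intro m hm
      have hm' : m ≤ k := by
        have := Finset.mem_range.1 hm
        omega
      rw [nsmul_eq_mul]
      show ((k.choose m : ℕ) : ℤ) * ((m.factorial * (k - m).factorial : ℕ) : ℤ) = _
      rw [← Nat.cast_mul, ← mul_assoc, Nat.choose_mul_factorial_mul_factorial hm']
    rw [Finset.sum_congr rfl h2, Finset.sum_const, Finset.card_range, nsmul_eq_mul,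
      Nat.factorial_succ]
    push_cast
    ring
  -- the weighted sum
  have hS : ∑ X : Finset ι, W X.card * ∑ i, (f (insert i X) - f (X.erase i)) =
      ((k + 1).factorial : ℤ) * (f univ - f ∅) := by
    have h1 : ∑ X : Finset ι, W X.card * ∑ i, (f (insert i X) - f (X.erase i)) =
        (∑ i : ι, ∑ X : Finset ι, W X.card * f (insert i X)) -
          ∑ i : ι, ∑ X : Finset ι, W X.card * f (X.erase i) := by
      rw [← Finset.sum_sub_distrib]
      simp only [← Finset.sum_sub_distrib, ← mul_sub]
      rw [Finset.sum_comm]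
      simp only [Finset.mul_sum]
    rw [h1, x1_ins, x1_era, ← Finset.sum_sub_distrib]
    have h2 : ∀ Y : Finset ι, (Y.card : ℤ) * ((W Y.card + W (Y.card - 1)) * f Y) -
        ((Fintype.card ι : ℤ) - (Y.card : ℤ)) * ((W Y.card + W (Y.card + 1)) * f Y) =
        (if Y = univ then ((k + 1).factorial : ℤ) * f Y else 0) -
          (if Y = ∅ then ((k + 1).factorial : ℤ) * f Y else 0) := by
      intro Y
      have h3 := x1_coef k Y.card (by rw [hk]; exact Finset.card_le_univ Y)
      have h4 : (Y.card = k) ↔ Y = univ := by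
        rw [hk]
        exact Finset.card_eq_iff_eq_univ Y
      have h5 : (Y.card = 0) ↔ Y = ∅ := Finset.card_eq_zero
      rw [← hk]
      have h6 : (Y.card : ℤ) * ((W Y.card + W (Y.card - 1)) * f Y) -
          ((k : ℤ) - (Y.card : ℤ)) * ((W Y.card + W (Y.card + 1)) * f Y) =
          ((Y.card : ℤ) * (W Y.card + W (Y.card - 1)) -
          ((k : ℤ) - (Y.card : ℤ)) * (W Y.card + W (Y.card + 1))) * f Y := by ring
      rw [h6]
      show ((Y.card : ℤ) * (((Y.card.factorial * (k - Y.card).factorial : ℕ) : ℤ) +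
        (((Y.card - 1).factorial * (k - (Y.card - 1)).factorial : ℕ) : ℤ)) -
      ((k : ℤ) - Y.card) * (((Y.card.factorial * (k - Y.card).factorial : ℕ) : ℤ) +
        (((Y.card + 1).factorial * (k - (Y.card + 1)).factorial : ℕ) : ℤ))) * f Y = _
      rw [h3, sub_mul, ite_mul, ite_mul, zero_mul]
      simp only [h4, h5]
    simp only [h2]
    rw [Finset.sum_sub_distrib, Finset.sum_ite_eq' univ univ, Finset.sum_ite_eq' univ ∅,
      if_pos (Finset.mem_univ _), if_pos (Finset.mem_univ _)]
    ring
  have hlt : ∑ X : Finset ι, W X.card * (f univ - f ∅) <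
      ∑ X : Finset ι, W X.card * ∑ i, (f (insert i X) - f (X.erase i)) := by
    apply Finset.sum_lt_sum_of_nonempty ⟨∅, Finset.mem_univ _⟩
    intro X _
    exact mul_lt_mul_of_pos_left (hcon X) (hWpos _)
  rw [hS, ← Finset.sum_mul, hW] at hlt
  exact lt_irrefl _ hlt

end H884
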