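import Pool.Agent.H884.ExDefs

set_option autoImplicit false

namespace H884

open Finset

theorem exists_perms {m n k : ℕ} {A : Fin m → Fin n → Fin k} (hA : RowLatin A)
    (H : Finset (Fin m)) (hne : H.Nonempty) (hU : Uniform A H) :
    ∃ π : Fin m → Fin n → Fin n, (∀ i, Function.Injective (π i)) ∧
      ∀ i j j', (∀ h ∈ H, A h j' = A i j) → π i j = j' := by
  classical
  obtain ⟨⟨c, hc⟩, -⟩ := hU
  obtain ⟨h0, hh0⟩ := hne
  have key : ∀ i : Fin m, ∃ p : Fin n → Fin n, Function.Injective p ∧
      ∀ j j', (∀ h ∈ H, A h j' = A i j) → p j = j' := by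
    intro i
    have hcj : ∀ j j', (∀ h ∈ H, A h j' = A i j) → c (A i j) = j' := by
      intro j j' h
      rw [← h h0 hh0]
      exact hc h0 hh0 j'
    set D : Finset (Fin n) := univ.filter (fun j => ∃ j', ∀ h ∈ H, A h j' = A i j) with hD
    have hinj : Set.InjOn (fun j => c (A i j)) (D : Set (Fin n)) := by
      intro j1 h1 j2 h2 he
      have h1' := (mem_filter.1 (mem_coe.1 h1)).2
      have h2' := (mem_filter.1 (mem_coe.1 h2)).2
      obtain ⟨a, ha⟩ := h1'
      obtain ⟨b, hb⟩ := h2'
      have e1 := hcj j1 a ha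
      have e2 := hcj j2 b hb
      have he' : c (A i j1) = c (A i j2) := he
      have hab : a = b := by rw [← e1, ← e2, he']
      subst hab
      have := (ha h0 hh0).symm.trans (hb h0 hh0)
      exact hA i this
    obtain ⟨g, hg⟩ := Finset.exists_equiv_extend_of_card_eq (α := Fin n) (β := Fin n)
      (t := univ) (by simp) (s := D) (f := fun j => c (A i j)) (subset_univ _) hinj
    refine ⟨fun j => (g j : Fin n), ?_, ?_⟩
    · intro a b hab
      exact g.injective (Subtype.ext hab)
    · intro j j' h
      have hj : j ∈ D := mem_filter.2 ⟨mem_univ _, j', h⟩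
      have := hg j hj
      exact this.trans (hcj j j' h)
  choose π h1 h2 using key
  exact ⟨π, h1, h2⟩

theorem peel_rest {m n k : ℕ} (hn : 1 ≤ n) {A : Fin m → Fin n → Fin k} (hA : RowLatin A)
    (S : Finset (Fin m)) : ∃ R ⊆ S, R.card ≤ (n - 1) * n ^ n ∧
      HasDisjointIn A (S \ R) (S.card - R.card) := by
  classical
  induction S using Finset.strongInduction with
  | H S ih =>
    by_cases hlt : (n - 1) * n ^ n < S.card
    · obtain ⟨B, hB, hBc, hBd⟩ := block hn hA S hlt
      have hBne : B.Nonempty := by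
        rw [← card_pos, hBc]; omega
      have hss : S \ B ⊂ S := sdiff_ssubset hB hBne
      have hc : (S \ B).card = S.card - n := by rw [card_sdiff_of_subset hB, hBc]
      have hle : n ≤ S.card := hBc ▸ card_le_card hB
      obtain ⟨R, hR, hRc, hRd⟩ := ih (S \ B) hss
      have hRle : R.card ≤ (S \ B).card := card_le_card hR
      refine ⟨R, hR.trans sdiff_subset, hRc, ?_⟩
      have hdisj : Disjoint B ((S \ B) \ R) :=
        disjoint_sdiff.mono_right sdiff_subset
      have hun := hBd.union hdisj hRd
      have e1 : B ∪ ((S \ B) \ R) = S \ R := by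
        ext x
        simp only [mem_union, mem_sdiff]
        constructor
        · rintro (hx | ⟨⟨hx1, hx2⟩, hx3⟩)
          · exact ⟨hB hx, fun hxR => (mem_sdiff.1 (hR hxR)).2 hx⟩
          · exact ⟨hx1, hx3⟩
        · rintro ⟨hx1, hx2⟩
          by_cases hxB : x ∈ B
          · exact Or.inl hxB
          · exact Or.inr ⟨⟨hx1, hxB⟩, hx2⟩
      have e2 : n + ((S \ B).card - R.card) = S.card - R.card := by omega
      rw [e1, e2] at hun
      exact hun
    · refine ⟨S, Subset.rfl, by omega, ?_⟩
      rw [Nat.sub_self]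
      exact ⟨fun s => s.elim0, fun s => s.elim0, fun s => s.elim0, fun s => s.elim0⟩

end H884
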