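import Pool.Agent.H884.ExCompletion
import Pool.Agent.H884.ExPacking

/-!
`MP_884cd1_co`: the exact number `m - (n - 1)` of disjoint transversals for `m ≥ (4 n) ^ (2 n)`.
A set `H` of rows is used in which each column is constant or has no frequent symbol.
-/

set_option autoImplicit false

namespace H884

open Finset

/-- Every column of the rows `H` is constant, or each symbol fills at most the fraction `1 / (4n)`
of the column. -/
def Steady {m n k : ℕ} (A : Fin m → Fin n → Fin k) (H : Finset (Fin m)) : Prop :=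
  ∀ j, (∀ i ∈ H, ∀ i' ∈ H, A i j = A i' j) ∨
    ∀ s, 4 * n * (H.filter (fun i => A i j = s)).card ≤ H.card

theorem exists_steady_aux {m n k q : ℕ} (hn : 1 ≤ n) (A : Fin m → Fin n → Fin k) (d : ℕ) :
    ∀ B : Finset (Fin m),
      ((univ : Finset (Fin n)).filter (fun j => ¬ ∀ i ∈ B, ∀ i' ∈ B, A i j = A i' j)).card ≤ d →
      q * (4 * n) ^ d ≤ B.card → ∃ H ⊆ B, q ≤ H.card ∧ Steady A H := by
  classical
  induction d with
  | zero =>
    intro B hB hc
    refine ⟨B, Subset.rfl, by simpa using hc, fun j => Or.inl ?_⟩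
    by_contra hcon
    have h0 := card_eq_zero.1 (Nat.le_zero.1 hB)
    have : j ∈ (univ : Finset (Fin n)).filter
        (fun j => ¬ ∀ i ∈ B, ∀ i' ∈ B, A i j = A i' j) := by
      rw [mem_filter]; exact ⟨mem_univ _, hcon⟩
    rw [h0] at this
    simp at this
  | succ d ih =>
    intro B hB hc
    have h4 : 1 ≤ 4 * n := by omega
    have hpow : q * (4 * n) ^ (d + 1) = 4 * n * (q * (4 * n) ^ d) := by ring
    by_cases hst : Steady A B
    · refine ⟨B, Subset.rfl, ?_, hst⟩
      have : 1 ≤ (4 * n) ^ (d + 1) := Nat.one_le_pow _ _ (by omega)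
      nlinarith
    · rw [Steady] at hst
      push Not at hst
      obtain ⟨j, ⟨i1, hi1, i2, hi2, hne⟩, s, hs⟩ := hst
      set B' := B.filter (fun i => A i j = s) with hB'
      have hsub : B' ⊆ B := filter_subset _ _
      have hc' : q * (4 * n) ^ d ≤ B'.card := by
        rw [hpow] at hc
        have : 4 * n * (q * (4 * n) ^ d) < 4 * n * B'.card := lt_of_le_of_lt hc hs
        exact (Nat.lt_of_mul_lt_mul_left this).le
      have hcol : ((univ : Finset (Fin n)).filter
          (fun j => ¬ ∀ i ∈ B', ∀ i' ∈ B', A i j = A i' j)).card ≤ d := by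
        have hlt : (univ : Finset (Fin n)).filter
            (fun j => ¬ ∀ i ∈ B', ∀ i' ∈ B', A i j = A i' j) ⊆
            ((univ : Finset (Fin n)).filter
              (fun j => ¬ ∀ i ∈ B, ∀ i' ∈ B, A i j = A i' j)).erase j := by
          intro x hx
          rw [mem_filter] at hx
          rw [mem_erase, mem_filter]
          refine ⟨?_, mem_univ _, fun h => hx.2 fun i hi i' hi' => h i (hsub hi) i' (hsub hi')⟩
          rintro rfl
          apply hx.2
          intro i hi i' hi'
          rw [(mem_filter.1 hi).2, (mem_filter.1 hi').2]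
        have hj : j ∈ (univ : Finset (Fin n)).filter
            (fun j => ¬ ∀ i ∈ B, ∀ i' ∈ B, A i j = A i' j) := by
          rw [mem_filter]
          exact ⟨mem_univ _, fun h => hne (h i1 hi1 i2 hi2)⟩
        have h1 := card_le_card hlt
        rw [card_erase_of_mem hj] at h1
        have h2 := card_pos.2 ⟨j, hj⟩
        omega
      obtain ⟨H, hH, hHq, hHs⟩ := ih B' hcol hc'
      exact ⟨H, hH.trans hsub, hHq, hHs⟩

theorem exists_steady {m n k q : ℕ} (hn : 1 ≤ n) (A : Fin m → Fin n → Fin k)
    (S : Finset (Fin m)) (hS : q * (4 * n) ^ n ≤ S.card) :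
    ∃ H ⊆ S, q ≤ H.card ∧ Steady A H := by
  classical
  refine exists_steady_aux hn A n S ?_ hS
  refine (card_filter_le _ _).trans ?_
  simp

theorem exists_perms2 {m n k : ℕ} {A : Fin m → Fin n → Fin k} (hA : RowLatin A)
    (H : Finset (Fin m)) (hne : H.Nonempty) :
    ∃ π : Fin m → Fin n → Fin n, (∀ i, Function.Injective (π i)) ∧
      ∀ i j j', (∀ h ∈ H, A h j' = A i j) → π i j = j' := by
  classical
  obtain ⟨h0, hh0⟩ := hne
  have key : ∀ i : Fin m, ∃ p : Fin n → Fin n, Function.Injective p ∧
      ∀ j j', (∀ h ∈ H, A h j' = A i j) → p j = j' := by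
    intro i
    have huniq : ∀ j j' j'', (∀ h ∈ H, A h j' = A i j) → (∀ h ∈ H, A h j'' = A i j) → j' = j'' := by
      intro j j' j'' h1 h2
      exact hA h0 ((h1 h0 hh0).trans (h2 h0 hh0).symm)
    have hp : ∀ j : Fin n, ∃ j' : Fin n, (∃ j'', ∀ h ∈ H, A h j'' = A i j) →
        ∀ h ∈ H, A h j' = A i j := by
      intro j
      by_cases h : ∃ j'', ∀ h ∈ H, A h j'' = A i j
      · obtain ⟨j'', hj''⟩ := h
        exact ⟨j'', fun _ => hj''⟩
      · exact ⟨j, fun h' => absurd h' h⟩
    choose p hp using hp
    set D : Finset (Fin n) := univ.filter (fun j => ∃ j', ∀ h ∈ H, A h j' = A i j) with hD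
    have hinj : Set.InjOn p (D : Set (Fin n)) := by
      intro j1 h1 j2 h2 he
      have h1' := hp j1 (mem_filter.1 (mem_coe.1 h1)).2 h0 hh0
      have h2' := hp j2 (mem_filter.1 (mem_coe.1 h2)).2 h0 hh0
      rw [he] at h1'
      exact hA i (h1'.symm.trans h2')
    obtain ⟨g, hg⟩ := Finset.exists_equiv_extend_of_card_eq (α := Fin n) (β := Fin n)
      (t := univ) (by simp) (s := D) (f := p) (subset_univ _) hinj
    refine ⟨fun j => (g j : Fin n), ?_, ?_⟩
    · intro a b hab
      exact g.injective (Subtype.ext hab)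
    · intro j j' h
      have hj : j ∈ D := mem_filter.2 ⟨mem_univ _, j', h⟩
      have := hg j hj
      exact this.trans (huniq j _ _ (hp j ⟨j', h⟩) h)
  choose π h1 h2 using key
  exact ⟨π, h1, h2⟩

theorem packing2 {m n k : ℕ} {A : Fin m → Fin n → Fin k} (hA : RowLatin A)
    (H R : Finset (Fin m)) (hne : H.Nonempty) :
    ∃ F : Finset (Finset (Fin m × Fin n)),
      (∀ P ∈ F, P.Nonempty ∧ (∀ z ∈ P, z.1 ∈ R) ∧ ClosedClass A H P) ∧
      (∀ P ∈ F, ∀ P' ∈ F, P ≠ P' → Disjoint P P') ∧
      ∀ (j : Fin n) (L : Finset (Fin m)), L ⊆ R → (∀ i ∈ L, ∀ P ∈ F, (i, j) ∉ P) →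
        L.card ≤ n - 1 := by
  classical
  obtain ⟨π, hπ, hcon⟩ := exists_perms2 hA H hne
  obtain ⟨F, h1, h2, h3⟩ := x6_claim (A := A) H π hπ hcon _ (R ×ˢ Finset.univ) le_rfl
    (x6_start π hπ R)
  refine ⟨F, fun P hP => ⟨(h1 P hP).1, fun z hz => ?_, (h1 P hP).2.2⟩, h2, ?_⟩
  · exact (Finset.mem_product.1 ((h1 P hP).2.1 hz)).1
  · intro j L hL hLP
    have h4 : (L.image (fun i => (i, j))).card = L.card :=
      Finset.card_image_of_injective _ (fun i i' h => (Prod.mk.inj h).1)
    rw [← h4]
    refine le_trans (Finset.card_le_card ?_) (h3 j)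
    intro z hz
    obtain ⟨i, hi, rfl⟩ := Finset.mem_image.1 hz
    rw [Finset.mem_filter]
    exact ⟨Finset.mem_product.2 ⟨hL hi, Finset.mem_univ _⟩, rfl, hLP i hi⟩

theorem build2 {m n k q : ℕ} {A : Fin m → Fin n → Fin k} (hA : RowLatin A)
    (H R : Finset (Fin m)) (hU : Steady A H)
    (hcard : 8 * n + 4 * R.card + 1 ≤ H.card) (P : Fin q → Finset (Fin m × Fin n))
    (hPR : ∀ a, ∀ z ∈ P a, z.1 ∈ R) (hPc : ∀ a, ClosedClass A H (P a))
    (hPd : ∀ a a', a ≠ a' → Disjoint (P a) (P a'))
    (hcount : ∀ (j : Fin n) (L : Finset (Fin q)), (∀ a ∈ L, ∀ z ∈ P a, z.2 ≠ j) →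
      L.card ≤ H.card) (l : ℕ) (hl : l ≤ n) :
    ∃ S : Fin n → Fin q → Fin m,
      (∀ j : Fin n, j.1 < l → ∀ a, (∀ z ∈ P a, z.2 ≠ j) →
        S j a ∈ H ∧ ∀ z ∈ P a, A (S j a) j ≠ A z.1 z.2) ∧
      (∀ j : Fin n, j.1 < l → ∀ a a', (∀ z ∈ P a, z.2 ≠ j) → (∀ z ∈ P a', z.2 ≠ j) →
        S j a = S j a' → a = a') ∧
      ∀ j j' : Fin n, j.1 < l → j'.1 < l → j ≠ j' → ∀ a, (∀ z ∈ P a, z.2 ≠ j) →
        (∀ z ∈ P a, z.2 ≠ j') → S j a ≠ S j' a ∧ A (S j a) j ≠ A (S j' a) j' := by
  classical
  have hHne : H.Nonempty := by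
    rw [← card_pos]; omega
  obtain ⟨h0, hh0⟩ := hHne
  have : Nonempty (Fin m) := ⟨h0⟩
  induction l with
  | zero =>
    exact ⟨fun _ _ => h0, fun j hj => absurd hj (by omega), fun j hj => absurd hj (by omega),
      fun j j' hj => absurd hj (by omega)⟩
  | succ l ih =>
    obtain ⟨S, hS1, hS2, hS3⟩ := ih (by omega)
    set J : Fin n := ⟨l, by omega⟩ with hJ
    have hn : 1 ≤ n := by omega
    set μ : ℕ := H.card / (4 * n) with hμ
    have hμ4 : 4 * (n * μ) ≤ H.card := by
      have := Nat.mul_div_le H.card (4 * n)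
      rw [← hμ] at this
      calc 4 * (n * μ) = 4 * n * μ := by ring
        _ ≤ H.card := this
    have hspread : ∀ j, (∀ s, 4 * n * (H.filter (fun i => A i j = s)).card ≤ H.card) →
        ∀ s, (H.filter (fun i => A i j = s)).card ≤ μ := by
      intro j h s
      rw [hμ, Nat.le_div_iff_mul_le (by omega)]
      calc _ = 4 * n * (H.filter (fun i => A i j = s)).card := by ring
        _ ≤ H.card := h s
    set L : Finset (Fin q) := univ.filter (fun a => ∀ z ∈ P a, z.2 ≠ J) with hL
    have hLm : ∀ a, a ∈ L ↔ ∀ z ∈ P a, z.2 ≠ J := by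
      intro a; rw [hL, mem_filter]; simp
    set bad : Fin q → Fin m → Prop := fun a h =>
      (∃ j' : Fin n, j'.1 < l ∧ (∀ z ∈ P a, z.2 ≠ j') ∧ S j' a = h) ∨
        (∃ z ∈ P a, A h J = A z.1 z.2) ∨
        ∃ j' : Fin n, j'.1 < l ∧ (∀ z ∈ P a, z.2 ≠ j') ∧ A h J = A (S j' a) j' with hbad
    have hPcard : ∀ a, (P a).card ≤ n := by
      intro a
      calc (P a).card = ((P a).image Prod.snd).card := by
            rw [card_image_of_injOn]
            intro z hz w hw e
            exact (hPc a).2.1 z hz w hw e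
        _ ≤ (univ : Finset (Fin n)).card := card_le_univ _
        _ = n := by simp
    have key2 : ∀ a ∈ L, ∀ B : Finset (Fin m), B ⊆ H → (∀ b ∈ B, bad a b) →
        B.card ≤ n + 2 * (n * μ) := by
      intro a ha B hB hb
      set B2 : Finset (Fin m) := B.filter (fun b => (∃ z ∈ P a, A b J = A z.1 z.2) ∨
        ∃ j' : Fin n, j'.1 < l ∧ (∀ z ∈ P a, z.2 ≠ j') ∧ A b J = A (S j' a) j') with hB2
      have hsplit : B ⊆ (univ.image fun j' : Fin n => S j' a) ∪ B2 := by
        intro b hbB
        rcases hb b hbB with ⟨j', _, _, e⟩ | h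
        · exact mem_union_left _ (mem_image.2 ⟨j', mem_univ _, e⟩)
        · exact mem_union_right _ (mem_filter.2 ⟨hbB, h⟩)
      have e1 : (univ.image fun j' : Fin n => S j' a).card ≤ n := by
        calc _ ≤ (univ : Finset (Fin n)).card := card_image_le
          _ = n := by simp
      have e2 : B2.card ≤ 2 * (n * μ) := by
        rcases hU J with hc | hi
        · have : B2 = ∅ := by
            rw [hB2, filter_eq_empty_iff]
            rintro b hbB (⟨z, hz, e⟩ | ⟨j', hj', hz', e⟩)
            · obtain ⟨w, hw, hw2⟩ := (hPc a).2.2.2 z hz J (fun h hh => by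
                rw [hc h hh b (hB hbB), e])
              exact (hLm a).1 ha w hw hw2
            · have hSH := (hS1 j' hj' a hz').1
              rw [hc b (hB hbB) _ hSH] at e
              have := hA _ e
              rw [← this, hJ] at hj'
              simp at hj'
          rw [this]; simp
        · have hsub : B2 ⊆ (((P a).image (fun z => A z.1 z.2)) ∪
              (univ.image fun j' : Fin n => A (S j' a) j')).biUnion
                (fun s => H.filter (fun i => A i J = s)) := by
            intro b hb'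
            rw [hB2, mem_filter] at hb'
            rw [mem_biUnion]
            refine ⟨A b J, ?_, mem_filter.2 ⟨hB hb'.1, rfl⟩⟩
            rcases hb'.2 with ⟨z, hz, e⟩ | ⟨j', _, _, e⟩
            · exact mem_union_left _ (mem_image.2 ⟨z, hz, e.symm⟩)
            · exact mem_union_right _ (mem_image.2 ⟨j', mem_univ _, e.symm⟩)
          have h1 := card_le_card hsub
          have h2 := card_biUnion_le_card_mul (((P a).image (fun z => A z.1 z.2)) ∪
              (univ.image fun j' : Fin n => A (S j' a) j'))
                (fun s => H.filter (fun i => A i J = s)) μ (fun s _ => hspread J hi s)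
          have h3 : (((P a).image (fun z => A z.1 z.2)) ∪
              (univ.image fun j' : Fin n => A (S j' a) j')).card ≤ 2 * n := by
            have x1 := card_union_le ((P a).image (fun z => A z.1 z.2))
              (univ.image fun j' : Fin n => A (S j' a) j')
            have x2 : ((P a).image (fun z => A z.1 z.2)).card ≤ n := card_image_le.trans (hPcard a)
            have x3 : (univ.image fun j' : Fin n => A (S j' a) j').card ≤ n := by
              calc _ ≤ (univ : Finset (Fin n)).card := card_image_le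
                _ = n := by simp
            omega
          have h4 := Nat.mul_le_mul_right μ h3
          calc B2.card ≤ _ := h1
            _ ≤ _ := h2
            _ ≤ 2 * n * μ := h4
            _ = 2 * (n * μ) := by ring
      have e3 := card_le_card hsplit
      have e4 := card_union_le (univ.image fun j' : Fin n => S j' a) B2
      omega
    have key3 : ∀ b ∈ H, ∀ C : Finset (Fin q), C ⊆ L → (∀ a ∈ C, bad a b) →
        C.card ≤ n + R.card + n * μ := by
      intro b hbH C hC hb
      set C1 := C.filter (fun a => ∃ j' : Fin n, j'.1 < l ∧ (∀ z ∈ P a, z.2 ≠ j') ∧ S j' a = b)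
        with hC1
      set C2 := C.filter (fun a => ∃ z ∈ P a, A b J = A z.1 z.2) with hC2
      set C3 : Fin n → Finset (Fin q) := fun j' =>
        C.filter (fun a => j'.1 < l ∧ (∀ z ∈ P a, z.2 ≠ j') ∧ A b J = A (S j' a) j') with hC3
      have hsplit : C ⊆ (C1 ∪ C2) ∪ univ.biUnion C3 := by
        intro a haC
        rcases hb a haC with h | h | ⟨j', h⟩
        · exact mem_union_left _ (mem_union_left _ (mem_filter.2 ⟨haC, h⟩))
        · exact mem_union_left _ (mem_union_right _ (mem_filter.2 ⟨haC, h⟩))
        · exact mem_union_right _ (mem_biUnion.2 ⟨j', mem_univ _, mem_filter.2 ⟨haC, h⟩⟩)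
      have e1 : C1.card ≤ n := by
        have hch : ∀ a : Fin q, ∃ j' : Fin n,
            a ∈ C1 → (j'.1 < l ∧ (∀ z ∈ P a, z.2 ≠ j') ∧ S j' a = b) := by
          intro a
          by_cases haf : a ∈ C1
          · obtain ⟨j', h⟩ := (mem_filter.1 haf).2
            exact ⟨j', fun _ => h⟩
          · exact ⟨J, fun h => absurd h haf⟩
        choose g hg using hch
        calc _ ≤ (univ : Finset (Fin n)).card := by
              apply card_le_card_of_injOn g
              · intro a _; exact mem_coe.2 (mem_univ _)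
              · intro a ha1 a' ha2 e
                obtain ⟨x1, x2, x3⟩ := hg a ha1
                obtain ⟨y1, y2, y3⟩ := hg a' ha2
                have e' : g a = g a' := e
                rw [← e'] at y2 y3
                exact hS2 (g a) x1 a a' x2 y2 (x3.trans y3.symm)
          _ = n := by simp
      have e2 : C2.card ≤ R.card := by
        have hch : ∀ a : Fin q, ∃ z : Fin m × Fin n,
            a ∈ C2 → (z ∈ P a ∧ A b J = A z.1 z.2) := by
          intro a
          by_cases haf : a ∈ C2
          · obtain ⟨z, h⟩ := (mem_filter.1 haf).2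
            exact ⟨z, fun _ => h⟩
          · exact ⟨(b, J), fun h => absurd h haf⟩
        choose g hg using hch
        apply card_le_card_of_injOn (fun a => (g a).1)
        · intro a ha
          exact hPR a _ (hg a ha).1
        · intro a ha1 a' ha2 e
          have x := hg a ha1
          have y := hg a' ha2
          have e' : (g a).1 = (g a').1 := e
          by_contra hne
          have e2 : A (g a).1 (g a).2 = A (g a).1 (g a').2 := by
            rw [← x.2, y.2, e']
          have e3 := hA _ e2
          have e4 : g a = g a' := Prod.ext e' e3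
          exact (Finset.disjoint_left.1 (hPd a a' hne) x.1) (e4 ▸ y.1)
      have e3 : (univ.biUnion C3).card ≤ n * μ := by
        have h1 := card_biUnion_le_card_mul (univ : Finset (Fin n)) C3 μ (fun j' _ => ?_)
        · simpa using h1
        · rcases hU j' with hc | hi
          · have : C3 j' = ∅ := by
              rw [hC3, filter_eq_empty_iff]
              rintro a _ ⟨h1, h2, h3⟩
              have hSH := (hS1 j' h1 a h2).1
              rw [hc _ hSH b hbH] at h3
              have := hA _ h3
              rw [← this, hJ] at h1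
              simp at h1
            rw [this]; simp
          · calc (C3 j').card ≤ (H.filter (fun i => A i j' = A b J)).card := by
                  apply card_le_card_of_injOn (fun a => S j' a)
                  · intro a ha
                    rw [mem_coe, hC3, mem_filter] at ha
                    rw [mem_coe, mem_filter]
                    exact ⟨(hS1 j' ha.2.1 a ha.2.2.1).1, ha.2.2.2.symm⟩
                  · intro a ha a' ha' e
                    rw [mem_coe, hC3, mem_filter] at ha ha'
                    exact hS2 j' ha.2.1 a a' ha.2.2.1 ha'.2.2.1 e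
              _ ≤ μ := hspread j' hi _
      have e4 := card_le_card hsplit
      have e5 := card_union_le (C1 ∪ C2) (univ.biUnion C3)
      have e6 := card_union_le C1 C2
      omega
    obtain ⟨f, hf1, hf2⟩ := hall_avoid L H bad (n + 2 * (n * μ)) (n + R.card + n * μ)
      (hcount J L (fun a ha => (hLm a).1 ha)) key2 key3 (by omega)
    refine ⟨Function.update S J f, ?_, ?_, ?_⟩
    · intro j hj a hz
      by_cases hjJ : j = J
      · subst hjJ
        rw [Function.update_self]
        have := hf1 a ((hLm a).2 hz)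
        exact ⟨this.1, fun z hzP e => this.2 (Or.inr (Or.inl ⟨z, hzP, e⟩))⟩
      · rw [Function.update_of_ne hjJ]
        have : j.1 < l := by
          have : j.1 ≠ l := fun e => hjJ (Fin.ext e)
          omega
        exact hS1 j this a hz
    · intro j hj a a' hz hz'
      by_cases hjJ : j = J
      · subst hjJ
        rw [Function.update_self]
        exact hf2 a ((hLm a).2 hz) a' ((hLm a').2 hz')
      · rw [Function.update_of_ne hjJ]
        have : j.1 < l := by
          have : j.1 ≠ l := fun e => hjJ (Fin.ext e)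
          omega
        exact hS2 j this a a' hz hz'
    · have main : ∀ j : Fin n, j.1 < l → ∀ a, (∀ z ∈ P a, z.2 ≠ J) → (∀ z ∈ P a, z.2 ≠ j) →
          f a ≠ S j a ∧ A (f a) J ≠ A (S j a) j := by
        intro j hj a hz hz'
        have hnb := (hf1 a ((hLm a).2 hz)).2
        refine ⟨fun e => hnb (Or.inl ⟨j, hj, hz', e.symm⟩), fun e => hnb ?_⟩
        exact Or.inr (Or.inr ⟨j, hj, hz', e⟩)
      intro j j' hj hj' hne a hz hz'
      by_cases hjJ : j = J
      · have hj'J : j' ≠ J := fun e => hne (hjJ.trans e.symm)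
        rw [Function.update_of_ne hj'J, hjJ, Function.update_self]
        have : j'.1 < l := by
          have : j'.1 ≠ l := fun e => hj'J (Fin.ext e)
          omega
        exact main j' this a (hjJ ▸ hz) hz'
      · rw [Function.update_of_ne hjJ]
        have hjl : j.1 < l := by
          have : j.1 ≠ l := fun e => hjJ (Fin.ext e)
          omega
        by_cases hj'J : j' = J
        · rw [hj'J, Function.update_self]
          have := main j hjl a (hj'J ▸ hz') hz
          exact ⟨fun e => this.1 e.symm, fun e => this.2 e.symm⟩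
        · rw [Function.update_of_ne hj'J]
          have hj'l : j'.1 < l := by
            have : j'.1 ≠ l := fun e => hj'J (Fin.ext e)
            omega
          exact hS3 j j' hjl hj'l hne a hz hz'

theorem completion2 {m n k q : ℕ} {A : Fin m → Fin n → Fin k} (hA : RowLatin A)
    (H R : Finset (Fin m)) (hHR : Disjoint H R) (hU : Steady A H)
    (hcard : 8 * n + 4 * R.card + 1 ≤ H.card) (P : Fin q → Finset (Fin m × Fin n))
    (hPR : ∀ a, ∀ z ∈ P a, z.1 ∈ R) (hPc : ∀ a, ClosedClass A H (P a))
    (hPd : ∀ a a', a ≠ a' → Disjoint (P a) (P a'))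
    (hcount : ∀ (j : Fin n) (L : Finset (Fin q)), (∀ a ∈ L, ∀ z ∈ P a, z.2 ≠ j) →
      L.card ≤ H.card) :
    HasDisjointIn A (H ∪ R) q := by
  classical
  obtain ⟨S, hS1, hS2, hS3⟩ := build2 hA H R hU hcard P hPR hPc hPd hcount n le_rfl
  have hT : ∀ (s : Fin q) (j : Fin n), ∃ t : Fin m,
      ((t, j) ∈ P s) ∨ ((∀ z ∈ P s, z.2 ≠ j) ∧ t = S j s) := by
    intro s j
    by_cases h : ∃ z ∈ P s, z.2 = j
    · obtain ⟨z, hz, rfl⟩ := h
      exact ⟨z.1, Or.inl hz⟩
    · push Not at h
      exact ⟨S j s, Or.inr ⟨h, rfl⟩⟩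
  choose T hT using hT
  have hHn : ∀ x, x ∈ H → x ∈ R → False := fun x h1 h2 => Finset.disjoint_left.1 hHR h1 h2
  refine ⟨T, ?_, ?_, ?_⟩
  · intro s
    constructor
    · intro j j' e
      by_contra hne
      rcases hT s j with h | ⟨h, h'⟩ <;> rcases hT s j' with g | ⟨g, g'⟩
      · have := (hPc s).1 _ h _ g e
        exact hne (congrArg Prod.snd this)
      · have x1 := hPR s _ h
        have x2 := (hS1 j' j'.2 s g).1
        rw [← g', ← e] at x2
        exact hHn _ x2 x1
      · have x1 := hPR s _ g
        have x2 := (hS1 j j.2 s h).1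
        rw [← h', e] at x2
        exact hHn _ x2 x1
      · rw [h', g'] at e
        exact (hS3 j j' j.2 j'.2 hne s h g).1 e
    · intro j j' e
      simp only at e
      by_contra hne
      rcases hT s j with h | ⟨h, h'⟩ <;> rcases hT s j' with g | ⟨g, g'⟩
      · have := (hPc s).2.2.1 _ h _ g e
        exact hne (congrArg Prod.snd this)
      · rw [g'] at e
        exact (hS1 j' j'.2 s g).2 _ h e.symm
      · rw [h'] at e
        exact (hS1 j j.2 s h).2 _ g e
      · rw [h', g'] at e
        exact (hS3 j j' j.2 j'.2 hne s h g).2 e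
  · intro s j
    rcases hT s j with h | ⟨h, h'⟩
    · exact mem_union_right _ (hPR s _ h)
    · rw [h']
      exact mem_union_left _ (hS1 j j.2 s h).1
  · intro s s' hne j e
    rcases hT s j with h | ⟨h, h'⟩ <;> rcases hT s' j with g | ⟨g, g'⟩
    · rw [← e] at g
      exact Finset.disjoint_left.1 (hPd s s' hne) h g
    · have x1 := hPR s _ h
      have x2 := (hS1 j j.2 s' g).1
      rw [← g', ← e] at x2
      exact hHn _ x2 x1
    · have x1 := hPR s' _ g
      have x2 := (hS1 j j.2 s h).1
      rw [← h', e] at x2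
      exact hHn _ x2 x1
    · rw [h', g'] at e
      exact hne (hS2 j j.2 s s' h g e)

/-- The exact number of disjoint transversals in a steady set of rows together with a small set
`R` of arbitrary rows. -/
theorem steady_union {m n k : ℕ} (hn : 1 ≤ n) {A : Fin m → Fin n → Fin k} (hA : RowLatin A)
    (H R : Finset (Fin m)) (hHR : Disjoint H R) (hU : Steady A H)
    (hcard : (n + 4) * R.card + 8 * n + 1 ≤ H.card) :
    HasDisjointIn A (H ∪ R) (H.card + R.card - (n - 1)) := by
  classical
  have hexp : (n + 4) * R.card = n * R.card + 4 * R.card := by ring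
  have hne : H.Nonempty := by
    rw [← card_pos]; omega
  obtain ⟨F, hF1, hF2, hF3⟩ := packing2 hA H R hne
  set q := H.card + R.card - (n - 1) with hq
  -- the number of classes is small
  have hFc : F.card ≤ q := by
    have h1 : F.card ≤ (F.biUnion id).card := by
      apply card_le_card_biUnion
      · intro P hP P' hP' hne'
        exact hF2 P hP P' hP' hne'
      · intro P hP
        exact (hF1 P hP).1
    have h2 : F.biUnion id ⊆ R ×ˢ (univ : Finset (Fin n)) := by
      intro z hz
      obtain ⟨P, hP, hzP⟩ := mem_biUnion.1 hz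
      rw [mem_product]
      exact ⟨(hF1 P hP).2.1 z hzP, mem_univ _⟩
    have h3 := card_le_card h2
    rw [card_product, card_univ, Fintype.card_fin] at h3
    have h4 : R.card * n = n * R.card := Nat.mul_comm _ _
    omega
  let e := F.equivFin
  let P : Fin q → Finset (Fin m × Fin n) := fun a =>
    if h : a.1 < F.card then (e.symm ⟨a.1, h⟩ : Finset (Fin m × Fin n)) else ∅
  have hPF : ∀ a, P a ∈ F ∨ P a = ∅ := by
    intro a
    by_cases h : a.1 < F.card
    · left
      simp only [P, h, dite_true]
      exact (e.symm ⟨a.1, h⟩).2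
    · right
      simp only [P, h, dite_false]
  have hPd : ∀ a a', a ≠ a' → Disjoint (P a) (P a') := by
    intro a a' haa
    by_cases h : a.1 < F.card
    · by_cases h' : a'.1 < F.card
      · have hne' : (e.symm ⟨a.1, h⟩ : Finset (Fin m × Fin n)) ≠ e.symm ⟨a'.1, h'⟩ := by
          intro hcon
          have := e.symm.injective (Subtype.ext hcon)
          simp only [Fin.mk.injEq] at this
          exact haa (Fin.ext this)
        simp only [P, h, h', dite_true]
        exact hF2 _ (e.symm ⟨a.1, h⟩).2 _ (e.symm ⟨a'.1, h'⟩).2 hne'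
      · simp only [P, h', dite_false]
        exact disjoint_empty_right _
    · simp only [P, h, dite_false]
      exact disjoint_empty_left _
  have hsurj : ∀ Q ∈ F, ∃ a, P a = Q := by
    intro Q hQ
    refine ⟨⟨(e ⟨Q, hQ⟩).1, lt_of_lt_of_le (e ⟨Q, hQ⟩).2 hFc⟩, ?_⟩
    simp [P]
  refine completion2 hA H R hHR hU (by nlinarith) P ?_ ?_ hPd ?_
  · intro a z hz
    rcases hPF a with h | h
    · exact (hF1 _ h).2.1 z hz
    · rw [h] at hz; simp at hz
  · intro a
    rcases hPF a with h | h
    · exact (hF1 _ h).2.2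
    · rw [h]
      refine ⟨?_, ?_, ?_, ?_⟩ <;> intro z hz <;> simp at hz
  · intro j L hL
    -- the covered rows of column `j`
    set Cv : Finset (Fin m) := R.filter (fun i => ∃ Q ∈ F, (i, j) ∈ Q) with hCv
    have hunc : (R \ Cv).card ≤ n - 1 := by
      refine hF3 j (R \ Cv) sdiff_subset ?_
      intro i hi Q hQ hcon
      rw [mem_sdiff, hCv, mem_filter] at hi
      exact hi.2 ⟨hi.1, Q, hQ, hcon⟩
    have hCR : Cv ⊆ R := filter_subset _ _
    have hC : R.card ≤ Cv.card + (n - 1) := by
      have := card_sdiff_of_subset hCR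
      have := card_le_card hCR
      omega
    -- each covered row has its own class, outside `L`
    have hcl : ∀ i : Fin m, ∃ a : Fin q ⊕ Unit, i ∈ Cv → ∃ a', a = Sum.inl a' ∧ (i, j) ∈ P a' := by
      intro i
      by_cases hi : i ∈ Cv
      · rw [hCv, mem_filter] at hi
        obtain ⟨_, Q, hQ, hQi⟩ := hi
        obtain ⟨a, ha⟩ := hsurj Q hQ
        exact ⟨Sum.inl a, fun _ => ⟨a, rfl, ha ▸ hQi⟩⟩
      · exact ⟨Sum.inr (), fun h => absurd h hi⟩
    choose κ hκ using hcl
    have hCL : Cv.card ≤ ((univ \ L).image (Sum.inl : Fin q → Fin q ⊕ Unit)).card := by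
      refine card_le_card_of_injOn κ ?_ ?_
      · intro i hi
        obtain ⟨a, ha, hai⟩ := hκ i hi
        rw [ha, mem_coe, mem_image]
        refine ⟨a, ?_, rfl⟩
        rw [mem_sdiff]
        exact ⟨mem_univ _, fun haL => hL a haL _ hai rfl⟩
      · intro i hi i' hi' hii
        obtain ⟨a, ha, hai⟩ := hκ i hi
        obtain ⟨a', ha', hai'⟩ := hκ i' hi'
        have haa : a = a' := by
          have : (Sum.inl a : Fin q ⊕ Unit) = Sum.inl a' := by rw [← ha, ← ha', hii]
          exact Sum.inl_injective this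
        subst haa
        rcases hPF a with h | h
        · have := (hF1 _ h).2.2.2.1 _ hai _ hai' rfl
          exact congrArg Prod.fst this
        · rw [h] at hai; simp at hai
    rw [card_image_of_injective _ Sum.inl_injective, card_sdiff_of_subset (subset_univ L), card_univ,
      Fintype.card_fin] at hCL
    have hLq : L.card ≤ q := by simpa using card_le_univ L
    omega

/-- Q1 for `n ≥ 1` and all `m` above an explicit bound. -/
theorem exact_large_aux {m n k : ℕ} (hn : 1 ≤ n)
    (hm : ((n + 4) * ((n - 1) * n ^ n) + 8 * n + 1) * (4 * n) ^ n ≤ m)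
    (A : Fin m → Fin n → Fin k) (hA : RowLatin A) : HasDisjoint A (m - (n - 1)) := by
  classical
  obtain ⟨H, -, hHc, hU⟩ := exists_steady (q := (n + 4) * ((n - 1) * n ^ n) + 8 * n + 1) hn A
    (univ : Finset (Fin m)) (by rw [card_univ, Fintype.card_fin]; exact hm)
  obtain ⟨R, hR, hRc, hRd⟩ := peel_rest hn hA (univ \ H)
  have hHR : Disjoint H R := disjoint_of_subset_right hR (disjoint_sdiff (s := H) (t := univ))
  have hmul : (n + 4) * R.card ≤ (n + 4) * ((n - 1) * n ^ n) := Nat.mul_le_mul_left _ hRc
  have h1 := steady_union hn hA H R hHR hU (by omega)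
  have hdis : Disjoint ((univ \ H) \ R) (H ∪ R) := by
    rw [disjoint_left]
    intro x hx hx'
    rw [mem_sdiff, mem_sdiff] at hx
    rw [mem_union] at hx'
    rcases hx' with h | h
    · exact hx.1.2 h
    · exact hx.2 h
  have h2 := (hRd.union hdis h1).hasDisjoint
  refine h2.mono ?_
  have hcH : (univ \ H : Finset (Fin m)).card = m - H.card := by
    rw [card_sdiff_of_subset (subset_univ H), card_univ, Fintype.card_fin]
  have hHm : H.card ≤ m := by simpa using card_le_univ H
  have hRm := card_le_card hR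
  have hexp : (n + 4) * R.card = n * R.card + 4 * R.card := by ring
  have hHn : n ≤ H.card := by omega
  omega

/-- Q1 for every `n ≥ 1` and all `m ≥ (4 n) ^ (2 n)`. -/
theorem exact_of_le {m n k : ℕ} (hn : 1 ≤ n) (hm : (4 * n) ^ (2 * n) ≤ m)
    (A : Fin m → Fin n → Fin k) (hA : RowLatin A) : HasDisjoint A (m - (n - 1)) := by
  rcases Nat.lt_or_ge 1 n with h2 | h2
  · refine exact_large_aux hn (le_trans ?_ hm) A hA
    have e0 : (4 * n) ^ (2 * n) = (4 * n) ^ n * (4 * n) ^ n := by
      rw [two_mul, pow_add]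
    rw [e0]
    refine Nat.mul_le_mul_right _ ?_
    have e1 : n ^ 2 ≤ n ^ n := Nat.pow_le_pow_right (by omega) h2
    have e2 : ∀ t : ℕ, (t + 2) ^ 2 + 3 * (t + 2) + 1 ≤ 4 ^ (t + 2) := by
      intro t
      induction t with
      | zero => norm_num
      | succ t ih =>
        have : 4 ^ (t + 1 + 2) = 4 * 4 ^ (t + 2) := by ring
        rw [this]
        nlinarith
    obtain ⟨t, rfl⟩ : ∃ t, n = t + 2 := ⟨n - 2, by omega⟩
    have e3 := e2 t
    have e4 : t + 2 - 1 = t + 1 := by omega
    rw [e4, mul_pow]
    set N := (t + 2) ^ (t + 2) with hN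
    have e5 : 8 * (t + 2) + 1 ≤ 5 * N := by nlinarith
    have e6 : (t + 2 + 4) * ((t + 1) * N) + 5 * N = ((t + 2) ^ 2 + 3 * (t + 2) + 1) * N := by ring
    calc (t + 2 + 4) * ((t + 1) * N) + 8 * (t + 2) + 1
        ≤ (t + 2 + 4) * ((t + 1) * N) + 5 * N := by omega
      _ = ((t + 2) ^ 2 + 3 * (t + 2) + 1) * N := e6
      _ ≤ 4 ^ (t + 2) * N := Nat.mul_le_mul_right _ e3
  · have h1 : n = 1 := by omega
    subst h1
    obtain ⟨q, hq, hq'⟩ := peel (le_refl 1) hA m univ (by simp)
    refine hq'.hasDisjoint.mono ?_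
    simp at hq
    omega

end H884
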