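import Pool.Agent.H884.Defs

/-!
`MP_884cd1_co`: the case `n = 2`, the block lemma and the finite reduction.
-/

namespace H884

open Finset

/-- `q` pairwise disjoint transversals which use rows of `S` only. -/
def HasDisjointIn {m n k : ℕ} (A : Fin m → Fin n → Fin k) (S : Finset (Fin m)) (q : ℕ) : Prop :=
  ∃ T : Fin q → Fin n → Fin m, (∀ s, IsTransversal A (T s)) ∧ (∀ s j, T s j ∈ S) ∧
    ∀ s s', s ≠ s' → ∀ j, T s j ≠ T s' j

theorem HasDisjointIn.hasDisjoint {m n k : ℕ} {A : Fin m → Fin n → Fin k} {S : Finset (Fin m)}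
    {q : ℕ} (h : HasDisjointIn A S q) : HasDisjoint A q := by
  obtain ⟨T, h1, _, h3⟩ := h
  exact ⟨T, h1, h3⟩

theorem HasDisjoint.mono {m n k : ℕ} {A : Fin m → Fin n → Fin k} {q q' : ℕ}
    (h : HasDisjoint A q) (hq : q' ≤ q) : HasDisjoint A q' := by
  obtain ⟨T, h1, h3⟩ := h
  refine ⟨fun s => T (Fin.castLE hq s), fun s => h1 _, fun s s' hs j => h3 _ _ ?_ j⟩
  intro e
  exact hs (Fin.castLE_injective hq e)

theorem HasDisjointIn.union {m n k : ℕ} {A : Fin m → Fin n → Fin k} {S S' : Finset (Fin m)}
    {p q : ℕ} (hd : Disjoint S S') (h : HasDisjointIn A S p) (h' : HasDisjointIn A S' q) :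
    HasDisjointIn A (S ∪ S') (p + q) := by
  obtain ⟨T, h1, h2, h3⟩ := h
  obtain ⟨T', h1', h2', h3'⟩ := h'
  refine ⟨Fin.append T T', ?_, ?_, ?_⟩
  · intro s
    refine Fin.addCases (fun a => ?_) (fun a => ?_) s
    · rw [Fin.append_left]; exact h1 a
    · rw [Fin.append_right]; exact h1' a
  · intro s j
    refine Fin.addCases (fun a => ?_) (fun a => ?_) s
    · rw [Fin.append_left]; exact mem_union_left _ (h2 a j)
    · rw [Fin.append_right]; exact mem_union_right _ (h2' a j)
  · intro s s'
    refine Fin.addCases (fun a => ?_) (fun a => ?_) s <;>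
    refine Fin.addCases (fun b => ?_) (fun b => ?_) s'
    · intro hne j
      rw [Fin.append_left, Fin.append_left]
      exact h3 a b (fun e => hne (by rw [e])) j
    · intro _ j
      rw [Fin.append_left, Fin.append_right]
      intro e
      exact (Finset.disjoint_left.1 hd (h2 a j)) (e ▸ h2' b j)
    · intro _ j
      rw [Fin.append_left, Fin.append_right]
      intro e
      exact (Finset.disjoint_left.1 hd (h2 b j)) (e ▸ h2' a j)
    · intro hne j
      rw [Fin.append_right, Fin.append_right]
      exact h3' a b (fun e => hne (by rw [e])) j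

/-- For each row, at least the fraction `n ^ (-n)` of all maps `c` from symbols to columns sends
every symbol of the row to its column. -/
theorem card_le_compat {m n k : ℕ} {A : Fin m → Fin n → Fin k} (hA : RowLatin A) (i : Fin m) :
    (univ : Finset (Fin k → Fin n)).card ≤
      (univ.filter (fun c : Fin k → Fin n => ∀ j, c (A i j) = j)).card * n ^ n := by
  classical
  have h1 : (univ : Finset (Fin n → Fin n)).card = n ^ n := by simp
  rw [← h1, ← card_product]
  refine card_le_card_of_injOn
    (fun c => (Function.extend (A i) id c, fun j => c (A i j))) ?_ ?_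
  · intro c _
    simp only [coe_product, Set.mem_prod, mem_coe, mem_filter, mem_univ, true_and, and_true]
    intro j
    rw [(hA i).extend_apply]
    rfl
  · intro c _ c' _ h
    simp only [Prod.mk.injEq] at h
    obtain ⟨ha, hb⟩ := h
    funext s
    by_cases hs : ∃ j, A i j = s
    · obtain ⟨j, rfl⟩ := hs
      exact congrFun hb j
    · have := congrFun ha s
      rwa [Function.extend_apply' _ _ _ hs, Function.extend_apply' _ _ _ hs] at this

/-- More than `(n - 1) * n ^ n` rows contain `n` rows that are the union of `n` disjoint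
transversals. -/
theorem block {m n k : ℕ} (hn : 1 ≤ n) {A : Fin m → Fin n → Fin k} (hA : RowLatin A)
    (S : Finset (Fin m)) (hS : (n - 1) * n ^ n < S.card) :
    ∃ B ⊆ S, B.card = n ∧ HasDisjointIn A B n := by
  classical
  have : NeZero n := ⟨by omega⟩
  obtain ⟨c, hc⟩ : ∃ c : Fin k → Fin n, n ≤ (S.filter (fun i => ∀ j, c (A i j) = j)).card := by
    by_contra hcon
    push Not at hcon
    have hpos : 0 < (univ : Finset (Fin k → Fin n)).card := by
      rw [card_pos]; exact univ_nonempty
    have h1 : S.card * (univ : Finset (Fin k → Fin n)).card ≤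
        ∑ i ∈ S, (univ.filter (fun c : Fin k → Fin n => ∀ j, c (A i j) = j)).card * n ^ n := by
      rw [← smul_eq_mul, ← sum_const]
      exact sum_le_sum (fun i _ => card_le_compat hA i)
    have h2 : ∑ i ∈ S, (univ.filter (fun c : Fin k → Fin n => ∀ j, c (A i j) = j)).card =
        ∑ c : Fin k → Fin n, (S.filter (fun i => ∀ j, c (A i j) = j)).card := by
      simp only [card_filter]
      exact sum_comm
    have h3 : ∑ c : Fin k → Fin n, (S.filter (fun i => ∀ j, c (A i j) = j)).card ≤
        (univ : Finset (Fin k → Fin n)).card * (n - 1) := by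
      rw [← smul_eq_mul, ← sum_const]
      exact sum_le_sum (fun c _ => by have := hcon c; omega)
    rw [← sum_mul, h2] at h1
    have h4 : S.card * (univ : Finset (Fin k → Fin n)).card ≤
        ((n - 1) * n ^ n) * (univ : Finset (Fin k → Fin n)).card := by
      calc S.card * (univ : Finset (Fin k → Fin n)).card
          ≤ (∑ c : Fin k → Fin n, (S.filter (fun i => ∀ j, c (A i j) = j)).card) * n ^ n := h1
        _ ≤ ((univ : Finset (Fin k → Fin n)).card * (n - 1)) * n ^ n :=
            Nat.mul_le_mul_right _ h3
        _ = ((n - 1) * n ^ n) * (univ : Finset (Fin k → Fin n)).card := by ring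
    have h5 := Nat.le_of_mul_le_mul_right h4 hpos
    omega
  obtain ⟨B, hB, hBc⟩ := exists_subset_card_eq hc
  let r := B.orderEmbOfFin hBc
  have hr : ∀ a, r a ∈ B := fun a => orderEmbOfFin_mem B hBc a
  have hrc : ∀ a j, c (A (r a) j) = j := fun a => (mem_filter.1 (hB (hr a))).2
  refine ⟨B, fun i hi => (mem_filter.1 (hB hi)).1, hBc, fun s j => r (j + s), ?_, ?_, ?_⟩
  · intro s
    refine ⟨fun j j' h => ?_, fun j j' h => ?_⟩
    · exact add_right_cancel (r.injective h)
    · have h' : A (r (j + s)) j = A (r (j' + s)) j' := h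
      have := congrArg c h'
      rwa [hrc, hrc] at this
  · intro s j
    exact hr _
  · intro s s' hs j h
    exact hs (add_left_cancel (r.injective h))

/-- Every set of rows `S` carries at least `S.card - (n - 1) * n ^ n` disjoint transversals. -/
theorem peel {m n k : ℕ} (hn : 1 ≤ n) {A : Fin m → Fin n → Fin k} (hA : RowLatin A) :
    ∀ (N : ℕ) (S : Finset (Fin m)), S.card = N →
      ∃ q, S.card ≤ q + (n - 1) * n ^ n ∧ HasDisjointIn A S q := by
  classical
  intro N
  induction N using Nat.strong_induction_on with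
  | _ N ih =>
    intro S hS
    by_cases hlt : (n - 1) * n ^ n < S.card
    · obtain ⟨B, hB, hBc, hBd⟩ := block hn hA S hlt
      have hc : (S \ B).card = S.card - n := by rw [card_sdiff_of_subset hB, hBc]
      have hle : n ≤ S.card := hBc ▸ card_le_card hB
      obtain ⟨q, hq, hq'⟩ := ih (S.card - n) (by omega) (S \ B) hc
      refine ⟨n + q, by omega, ?_⟩
      have := hBd.union (disjoint_sdiff (s := B) (t := S)) hq'
      rwa [union_sdiff_of_subset hB] at this
    · refine ⟨0, by omega, fun s => s.elim0, fun s => s.elim0, fun s => s.elim0, fun s => s.elim0⟩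

/-- Restriction to a set of rows. -/
theorem of_rows {m n k N : ℕ} {A : Fin m → Fin n → Fin k} (S : Finset (Fin m)) (hS : S.card = N)
    {q : ℕ} (h : HasDisjoint (fun i => A (S.orderEmbOfFin hS i)) q) : HasDisjointIn A S q := by
  obtain ⟨T, h1, h2⟩ := h
  refine ⟨fun s j => S.orderEmbOfFin hS (T s j), fun s => ⟨?_, (h1 s).2⟩, fun s j => ?_,
    fun s s' hs j e => h2 s s' hs j ((S.orderEmbOfFin hS).injective e)⟩
  · exact (S.orderEmbOfFin hS).injective.comp (h1 s).1
  · exact orderEmbOfFin_mem S hS _

/-- Relabelling of the symbols: `m * n` symbols suffice. -/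
theorem relabel {m n k : ℕ} (A : Fin m → Fin n → Fin k) :
    ∃ A' : Fin m → Fin n → Fin (m * n), ∀ i j i' j', A' i j = A' i' j' ↔ A i j = A i' j' := by
  classical
  set I : Finset (Fin k) := univ.image (fun p : Fin m × Fin n => A p.1 p.2) with hI
  have hc : I.card ≤ m * n := by
    refine card_image_le.trans ?_
    simp
  have hm : ∀ i j, A i j ∈ I := fun i j => by
    rw [hI, mem_image]; exact ⟨(i, j), mem_univ _, rfl⟩
  refine ⟨fun i j => Fin.castLE hc (I.equivFin ⟨A i j, hm i j⟩), fun i j i' j' => ?_⟩
  constructor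
  · intro h
    have := I.equivFin.injective (Fin.castLE_injective hc h)
    exact congrArg Subtype.val this
  · intro h
    simp only [h]

theorem relabel_hasDisjoint {m n k k' : ℕ} {A : Fin m → Fin n → Fin k}
    {A' : Fin m → Fin n → Fin k'} (h : ∀ i j i' j', A' i j = A' i' j' ↔ A i j = A i' j') {q : ℕ}
    (h' : HasDisjoint A' q) : HasDisjoint A q := by
  obtain ⟨T, h1, h2⟩ := h'
  exact ⟨T, fun s => ⟨(h1 s).1, fun j j' e => (h1 s).2 ((h _ _ _ _).2 e)⟩, h2⟩

/-- Finite reduction: for fixed `n ≥ 1`, the rectangles with `2n-1 ≤ m ≤ (n-1) n^n` rows and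
`m n` symbols decide the question for all `m` and `k`. -/
theorem reduction (n : ℕ) (hn : 1 ≤ n)
    (h : ∀ m, 2 * n - 1 ≤ m → m ≤ (n - 1) * n ^ n → ∀ A : Fin m → Fin n → Fin (m * n),
      RowLatin A → HasDisjoint A (m - (n - 1))) :
    ∀ m k, 2 * n - 1 ≤ m → ∀ A : Fin m → Fin n → Fin k, RowLatin A →
      HasDisjoint A (m - (n - 1)) := by
  classical
  intro m
  induction m using Nat.strong_induction_on with
  | _ m ih =>
    intro k hm A hA
    by_cases hle : m ≤ (n - 1) * n ^ n
    · obtain ⟨A', hA'⟩ := relabel A
      refine relabel_hasDisjoint hA' (h m hm hle A' ?_)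
      intro i j j' e
      exact hA i ((hA' _ _ _ _).1 e)
    · rcases Nat.lt_or_ge 1 n with h2 | h2
      · -- `n ≥ 2`
        obtain ⟨B, -, hBc, hBd⟩ := block hn hA univ (by rw [card_univ, Fintype.card_fin]; omega)
        have hc : (univ \ B).card = m - n := by
          rw [card_sdiff_of_subset (subset_univ B), hBc, card_univ, Fintype.card_fin]
        have hbig : 3 * n - 1 ≤ m := by
          have e1 : n ^ 2 ≤ n ^ n := Nat.pow_le_pow_right (by omega) h2
          have e2 : (n - 1) * n ^ 2 ≤ (n - 1) * n ^ n := Nat.mul_le_mul_left _ e1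
          obtain ⟨t, rfl⟩ : ∃ t, n = t + 2 := ⟨n - 2, by omega⟩
          have e3 : t + 2 - 1 = t + 1 := by omega
          rw [e3] at e2 hle
          have e4 : 3 * (t + 2) ≤ (t + 1) * (t + 2) ^ 2 + 2 := by nlinarith
          omega
        have hnm : n ≤ m := by omega
        have ih' := ih (m - n) (by omega) k (by omega)
          (fun i => A ((univ \ B).orderEmbOfFin hc i)) (fun i => hA _)
        have hD := hBd.union (disjoint_sdiff (s := B) (t := univ)) (of_rows (univ \ B) hc ih')
        refine hD.hasDisjoint.mono ?_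
        omega
      · -- `n = 1`
        have h1 : n = 1 := by omega
        subst h1
        obtain ⟨q, hq, hq'⟩ := peel (le_refl 1) hA m univ (by simp)
        refine hq'.hasDisjoint.mono ?_
        simp at hq
        omega

/-- The case `n = 2`. -/
theorem case_two {m k : ℕ} (hm : 3 ≤ m) (A : Fin m → Fin 2 → Fin k) (hA : RowLatin A) :
    HasDisjoint A (m - 1) := by
  classical
  have hne : ∀ i, A i 0 ≠ A i 1 := fun i e => by
    have := hA i e
    exact absurd this (by decide)
  -- Hall's theorem with one dummy column-two cell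
  let t : Fin m → Finset (Option (Fin m)) := fun i =>
    insert none ((univ.filter (fun l => l ≠ i ∧ A l 1 ≠ A i 0)).image some)
  have hall : ∀ s : Finset (Fin m), s.card ≤ (s.biUnion t).card := by
    intro s
    rcases s.eq_empty_or_nonempty with rfl | ⟨i0, hi0⟩
    · simp
    set M : Finset (Fin m) := univ.filter (fun l => ∀ i ∈ s, l = i ∨ A l 1 = A i 0) with hM
    have hMm : ∀ l, l ∈ M ↔ ∀ i ∈ s, l = i ∨ A l 1 = A i 0 := by
      intro l; rw [hM, mem_filter]; simp
    have key : s.card + M.card ≤ m + 1 := by
      by_cases hcase : (s ∩ M).card ≤ 1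
      · have h1 := card_union_add_card_inter s M
        have h2 : (s ∪ M).card ≤ m := by
          simpa using card_le_univ (s ∪ M)
        omega
      · push Not at hcase
        obtain ⟨l, hl, l', hl', hll⟩ := one_lt_card.1 hcase
        rw [mem_inter, hMm] at hl hl'
        have e1 : A l 1 = A l' 0 := (hl.2 l' hl'.1).resolve_left hll
        have e2 : A l' 1 = A l 0 := (hl'.2 l hl.1).resolve_left (Ne.symm hll)
        have hs2 : s ⊆ {l, l'} := by
          intro i hi
          by_contra hcon
          rw [mem_insert, mem_singleton, not_or] at hcon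
          have e3 : A l 1 = A i 0 := (hl.2 i hi).resolve_left (fun e => hcon.1 e.symm)
          have e4 : A l' 1 = A i 0 := (hl'.2 i hi).resolve_left (fun e => hcon.2 e.symm)
          exact hne l' (by rw [← e1, e3, e4])
        have hM2 : M ⊆ {l, l'} := by
          intro i hi
          rw [hMm] at hi
          by_contra hcon
          rw [mem_insert, mem_singleton, not_or] at hcon
          have e3 : A i 1 = A l 0 := (hi l hl.1).resolve_left hcon.1
          have e4 : A i 1 = A l' 0 := (hi l' hl'.1).resolve_left hcon.2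
          exact hne l (by rw [← e3, e4, e1])
        have c1 := card_le_card hs2
        have c2 := card_le_card hM2
        have c3 : ({l, l'} : Finset (Fin m)).card ≤ 2 := card_le_two
        omega
    have hsub : insert none ((univ \ M).image some) ⊆ s.biUnion t := by
      intro x hx
      rw [mem_insert, mem_image] at hx
      rw [mem_biUnion]
      rcases hx with rfl | ⟨l, hl, rfl⟩
      · exact ⟨i0, hi0, mem_insert_self _ _⟩
      · rw [mem_sdiff, hMm] at hl
        have := hl.2
        push Not at this
        obtain ⟨i, hi, h1, h2⟩ := this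
        refine ⟨i, hi, mem_insert_of_mem (mem_image.2 ⟨l, ?_, rfl⟩)⟩
        rw [mem_filter]
        exact ⟨mem_univ _, h1, h2⟩
    have hcard : (insert none ((univ \ M).image some)).card = (m - M.card) + 1 := by
      rw [card_insert_of_notMem (by simp), card_image_of_injective _ (Option.some_injective _),
        card_sdiff_of_subset (subset_univ M)]
      simp
    have := card_le_card hsub
    rw [hcard] at this
    have hMle : M.card ≤ m := by simpa using card_le_univ M
    omega
  obtain ⟨f, hf, hft⟩ := (all_card_le_biUnion_card_iff_exists_injective t).1 hall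
  obtain ⟨m', rfl⟩ : ∃ m', m = m' + 1 := ⟨m - 1, by omega⟩
  -- the row whose first cell stays uncovered
  obtain ⟨i0, hi0⟩ : ∃ i0 : Fin (m' + 1), ∀ i, i ≠ i0 → f i ≠ none := by
    by_cases hex : ∃ i, f i = none
    · obtain ⟨i, hi⟩ := hex
      exact ⟨i, fun i' hne' e => hne' (hf (e.trans hi.symm))⟩
    · push Not at hex
      exact ⟨0, fun i _ => hex i⟩
  have hg : ∀ s : Fin m', ∃ l, f (i0.succAbove s) = some l ∧ l ≠ i0.succAbove s ∧
      A l 1 ≠ A (i0.succAbove s) 0 := by
    intro s
    have h1 := hi0 (i0.succAbove s) (Fin.succAbove_ne i0 s)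
    have h2 := hft (i0.succAbove s)
    rw [mem_insert, mem_image] at h2
    rcases h2 with h2 | ⟨l, hl, hl'⟩
    · exact absurd h2 h1
    · rw [mem_filter] at hl
      exact ⟨l, hl'.symm, hl.2.1, hl.2.2⟩
  choose g hg1 hg2 hg3 using hg
  have hm' : m' + 1 - 1 = m' := by omega
  rw [hm']
  refine ⟨fun s => ![i0.succAbove s, g s], fun s => ⟨?_, ?_⟩, ?_⟩
  · intro j j' h
    fin_cases j <;> fin_cases j' <;> simp at h ⊢
    · exact hg2 s h.symm
    · exact hg2 s h
  · intro j j' h
    fin_cases j <;> fin_cases j' <;> simp at h ⊢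
    · exact hg3 s h.symm
    · exact hg3 s h
  · intro s s' hs j
    fin_cases j
    · simp only [Fin.zero_eta, Matrix.cons_val_zero, ne_eq]
      intro e
      exact hs (Fin.succAbove_right_injective e)
    · simp only [Fin.mk_one, Matrix.cons_val_one, ne_eq]
      intro e
      have e' : g s = g s' := e
      have := hf ((hg1 s).trans ((congrArg some e').trans (hg1 s').symm))
      exact hs (Fin.succAbove_right_injective this)

end H884
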