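import Pool.Agent.H884.Defs
import Pool.Agent.H884.Core
import Pool.Agent.H884.Parts

/-!
Column-by-column construction of disjoint transversals (`MP_884cd1_co`).
-/

namespace H884

open Finset

section Step

variable {ι κ : Type*} [Fintype ι] [DecidableEq ι] [DecidableEq κ] {n : ℕ}

/-- the rows carrying symbol `a` in column `c` -/
def cls (A : ι → Fin n → κ) (c : Fin n) (a : κ) : Finset ι := univ.filter (fun r => A r c = a)

/-- partial transversals after the columns `< c` -/
structure State (A : ι → Fin n → κ) (c : ℕ) (D : Finset ι) (ρ : Fin n → ι → ι) : Prop where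
  inj : ∀ j : Fin n, j.val < c → Set.InjOn (ρ j) D
  rows : ∀ r ∈ D, ∀ j j' : Fin n, j.val < c → j'.val < c → j ≠ j' → ρ j r ≠ ρ j' r
  syms : ∀ r ∈ D, ∀ j j' : Fin n, j.val < c → j'.val < c → j ≠ j' →
    A (ρ j r) j ≠ A (ρ j' r) j'
  fut : ∀ r ∈ D, ∀ j j' : Fin n, j.val < c → c ≤ j'.val → A (ρ j r) j ≠ A r j'

/-- no deficiency in column `c` -/
def Exact (A : ι → Fin n → κ) (c : Fin n) : Prop :=
  ∃ (H : Set κ) (w w' : ℕ), (∀ a ∈ H, (∃ r, A r c = a) → 2 * c.val ≤ (cls A c a).card) ∧
    (∀ a, a ∉ H → (cls A c a).card ≤ w ∧ ∑ j ∈ univ.erase c, (cls A j a).card ≤ w') ∧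
    ((∀ r, A r c ∈ H) ∨
      ∃ L : Finset ι, (∀ r ∈ L, A r c ∉ H) ∧ 2 * c.val + (n - 1) * w + w' ≤ L.card)

/-- `d` is an admissible deficiency for column `c` -/
def Good (A : ι → Fin n → κ) (c : Fin n) (d : ℕ) : Prop :=
  d = n * c.val ∨ Exact A c

theorem step (A : ι → Fin n → κ) (hA : ∀ i, Function.Injective (A i)) (cc : Fin n)
    (D : Finset ι) (ρ : Fin n → ι → ι) (hS : State A cc.val D ρ) (d : ℕ) (hd : Good A cc d) :
    ∃ D' : Finset ι, ∃ ρ' : Fin n → ι → ι, State A (cc.val + 1) D' ρ' ∧
      D.card ≤ D'.card + d := by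
  classical
  set c := cc.val with hc
  have hn1 : n - 1 + 1 = n := by
    have := cc.isLt
    omega
  let used : ι → Finset ι := fun x => (univ.filter (fun j : Fin n => j.val < c)).image (fun j => ρ j x)
  have hcardlt : (univ.filter (fun j : Fin n => j.val < c)).card = c := by
    have : (univ.filter (fun j : Fin n => j.val < c)) = Finset.Iio cc := by
      ext j; simp only [Finset.mem_filter, Finset.mem_univ, true_and, Finset.mem_Iio]; exact Iff.rfl
    rw [this, Fin.card_Iio]
  have hused1 : ∀ x ∈ D, (used x).card ≤ c := by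
    intro x _
    calc (used x).card ≤ (univ.filter (fun j : Fin n => j.val < c)).card := Finset.card_image_le
      _ = c := hcardlt
  have hused2 : ∀ y, (D.filter (fun x => y ∈ used x)).card ≤ c := by
    intro y
    have h1 : D.filter (fun x => y ∈ used x) ⊆
        (univ.filter (fun j : Fin n => j.val < c)).biUnion (fun j => D.filter (fun x => ρ j x = y)) := by
      intro x hx
      rw [Finset.mem_filter] at hx
      obtain ⟨hx1, hx2⟩ := hx
      rw [Finset.mem_image] at hx2
      obtain ⟨j, hj, hj2⟩ := hx2
      rw [Finset.mem_biUnion]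
      exact ⟨j, hj, Finset.mem_filter.2 ⟨hx1, hj2⟩⟩
    refine le_trans (Finset.card_le_card h1) ?_
    refine le_trans Finset.card_biUnion_le ?_
    calc ∑ j ∈ univ.filter (fun j : Fin n => j.val < c), (D.filter (fun x => ρ j x = y)).card
        ≤ ∑ j ∈ univ.filter (fun j : Fin n => j.val < c), 1 := by
          apply Finset.sum_le_sum
          intro j hj
          rw [Finset.card_le_one]
          intro a ha b hb
          rw [Finset.mem_filter] at ha hb hj
          exact hS.inj j hj.2 ha.1 hb.1 (by rw [ha.2, hb.2])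
      _ = c := by rw [Finset.sum_const, hcardlt]; simp
  let F : ι → Finset κ := fun x =>
    (univ.erase cc).image (fun j : Fin n => if j.val < c then A (ρ j x) j else A x j)
  have hF : ∀ x ∈ D, (F x).card ≤ n - 1 := by
    intro x _
    calc (F x).card ≤ (univ.erase cc).card := Finset.card_image_le
      _ = n - 1 := by rw [Finset.card_erase_of_mem (Finset.mem_univ _)]; simp
  have hFx : ∀ x ∈ D, A x cc ∉ F x := by
    intro x hx hmem
    rw [Finset.mem_image] at hmem
    obtain ⟨j, hj, hj2⟩ := hmem
    rw [Finset.mem_erase] at hj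
    split_ifs at hj2 with h
    · exact hS.fut x hx j cc h le_rfl hj2
    · exact hj.1 (hA x hj2)
  have hdef : ∀ S ⊆ D, S.Nonempty → S.card +
      (univ.filter (fun y => ∀ x ∈ S, y ∈ used x ∨ A y cc ∈ F x)).card
      ≤ Fintype.card ι + d := by
    intro S hSD hSne
    rcases hd with hd | ⟨H, w, w', hH1, hH2, hm⟩
    · have h1 := col_def D (fun x => A x cc) F used c (n - 1) hF hFx hused1 hused2 S hSD
      have h2 : c + (n - 1) * c = n * c := by
        calc c + (n - 1) * c = (n - 1 + 1) * c := by ring
          _ = n * c := by rw [hn1]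
      rw [h2, ← hd] at h1
      exact h1
    · have hF2 : ∀ a, a ∉ H → (D.filter (fun x => a ∈ F x)).card ≤ w' := by
        intro a ha
        refine le_trans ?_ (hH2 a ha).2
        have h1 : D.filter (fun x => a ∈ F x) ⊆ (univ.erase cc).biUnion
            (fun j => D.filter (fun x => (if j.val < c then A (ρ j x) j else A x j) = a)) := by
          intro x hx
          rw [Finset.mem_filter] at hx
          obtain ⟨hx1, hx2⟩ := hx
          rw [Finset.mem_image] at hx2
          obtain ⟨j, hj1, hj2⟩ := hx2
          rw [Finset.mem_biUnion]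
          exact ⟨j, hj1, Finset.mem_filter.2 ⟨hx1, hj2⟩⟩
        refine le_trans (Finset.card_le_card h1) ?_
        refine le_trans Finset.card_biUnion_le ?_
        apply Finset.sum_le_sum
        intro j _
        by_cases hj : j.val < c
        · simp only [hj, if_true]
          have h2 : ((D.filter (fun x => A (ρ j x) j = a)).image (ρ j)).card
              = (D.filter (fun x => A (ρ j x) j = a)).card := by
            apply Finset.card_image_of_injOn
            intro x hx y hy hxy
            have hx' : x ∈ D := by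
              have := Finset.mem_coe.1 hx
              exact (Finset.mem_filter.1 this).1
            have hy' : y ∈ D := by
              have := Finset.mem_coe.1 hy
              exact (Finset.mem_filter.1 this).1
            exact hS.inj j hj hx' hy' hxy
          rw [← h2]
          apply Finset.card_le_card
          intro y hy
          rw [Finset.mem_image] at hy
          obtain ⟨x, hx, rfl⟩ := hy
          exact Finset.mem_filter.2 ⟨Finset.mem_univ _, (Finset.mem_filter.1 hx).2⟩
        · simp only [hj, if_false]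
          apply Finset.card_le_card
          intro y hy
          exact Finset.mem_filter.2 ⟨Finset.mem_univ _, (Finset.mem_filter.1 hy).2⟩
      refine le_trans (col_def_mixed D (fun x => A x cc) F used c (n - 1) w w' hF hFx hused1
        hused2 H ?_ ?_ hF2 ?_ S hSD) (Nat.le_add_right _ _)
      · intro x hx
        exact hH1 _ hx ⟨x, rfl⟩
      · intro a ha
        exact (hH2 a ha).1
      · rcases hm with hm | ⟨L, hL, hLc⟩
        · exact Or.inl hm
        · right
          have : L.card ≤ (univ.filter (fun x => ¬ A x cc ∈ H)).card := by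
            apply Finset.card_le_card
            intro x hx
            exact Finset.mem_filter.2 ⟨Finset.mem_univ _, hL x hx⟩
          omega
  obtain ⟨D', hD'D, f, hf1, hfinj, hcard⟩ :=
    defHall D (fun x y => y ∈ used x ∨ A y cc ∈ F x) d hdef
  have hfused : ∀ x ∈ D', ∀ j : Fin n, j.val < c → ρ j x ≠ f x := by
    intro x hx j hj hEq
    apply hf1 x hx
    left
    rw [Finset.mem_image]
    exact ⟨j, Finset.mem_filter.2 ⟨Finset.mem_univ _, hj⟩, hEq⟩
  have hnewold : ∀ x ∈ D', ∀ j : Fin n, j.val < c → A (ρ j x) j ≠ A (f x) cc := by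
    intro x hx j hj hEq
    apply hf1 x hx
    right
    rw [Finset.mem_image]
    refine ⟨j, ?_, ?_⟩
    · rw [Finset.mem_erase]
      refine ⟨?_, Finset.mem_univ _⟩
      rintro rfl
      exact absurd hj (lt_irrefl _)
    · rw [if_pos hj]; exact hEq
  have hnewfut : ∀ x ∈ D', ∀ j : Fin n, c + 1 ≤ j.val → A (f x) cc ≠ A x j := by
    intro x hx j hj hEq
    apply hf1 x hx
    right
    rw [Finset.mem_image]
    refine ⟨j, ?_, ?_⟩
    · rw [Finset.mem_erase]
      refine ⟨?_, Finset.mem_univ _⟩
      rintro rfl
      omega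
    · rw [if_neg (by omega)]; exact hEq.symm
  refine ⟨D', Function.update ρ cc f, ?_, hcard⟩
  have hup1 : Function.update ρ cc f cc = f := Function.update_self _ _ _
  have hup2 : ∀ j : Fin n, j.val < c → Function.update ρ cc f j = ρ j := by
    intro j hj
    apply Function.update_of_ne
    rintro rfl
    exact absurd hj (lt_irrefl _)
  have hcase : ∀ j : Fin n, j.val < c + 1 → j = cc ∨ j.val < c := by
    intro j hj
    rcases Nat.lt_succ_iff_lt_or_eq.1 hj with h | h
    · exact Or.inr h
    · exact Or.inl (Fin.ext h)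
  constructor
  · intro j hj
    rcases hcase j hj with rfl | h
    · rw [hup1]; exact hfinj
    · rw [hup2 j h]
      exact (hS.inj j h).mono (by exact_mod_cast hD'D)
  · intro r hr j j' hj hj' hne
    rcases hcase j hj with rfl | h
    · rcases hcase j' hj' with rfl | h'
      · exact absurd rfl hne
      · rw [hup1, hup2 j' h']
        exact (hfused r hr j' h').symm
    · rcases hcase j' hj' with rfl | h'
      · rw [hup1, hup2 j h]
        exact hfused r hr j h
      · rw [hup2 j h, hup2 j' h']
        exact hS.rows r (hD'D hr) j j' h h' hne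
  · intro r hr j j' hj hj' hne
    rcases hcase j hj with rfl | h
    · rcases hcase j' hj' with rfl | h'
      · exact absurd rfl hne
      · rw [hup1, hup2 j' h']
        exact (hnewold r hr j' h').symm
    · rcases hcase j' hj' with rfl | h'
      · rw [hup1, hup2 j h]
        exact hnewold r hr j h
      · rw [hup2 j h, hup2 j' h']
        exact hS.syms r (hD'D hr) j j' h h' hne
  · intro r hr j j' hj hj'
    rcases hcase j hj with rfl | h
    · rw [hup1]
      exact hnewfut r hr j' hj'
    · rw [hup2 j h]
      exact hS.fut r (hD'D hr) j j' h (by omega)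

theorem run (A : ι → Fin n → κ) (hA : ∀ i, Function.Injective (A i)) (d : Fin n → ℕ)
    (hd : ∀ c, Good A c (d c)) :
    ∀ c : ℕ, c ≤ n → ∃ D : Finset ι, ∃ ρ : Fin n → ι → ι, State A c D ρ ∧
      Fintype.card ι ≤ D.card + ∑ j ∈ univ.filter (fun j : Fin n => j.val < c), d j := by
  intro c
  induction c with
  | zero =>
    intro _
    refine ⟨univ, fun _ r => r, ⟨?_, ?_, ?_, ?_⟩, ?_⟩
    · intro j hj; omega
    · intro r _ j j' hj; omega
    · intro r _ j j' hj; omega
    · intro r _ j j' hj; omega
    · simp
  | succ c ih =>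
    intro hcn
    obtain ⟨D, ρ, hS, hcard⟩ := ih (by omega)
    obtain ⟨D', ρ', hS', hcard'⟩ := step A hA ⟨c, by omega⟩ D ρ hS _ (hd _)
    refine ⟨D', ρ', hS', ?_⟩
    have hsum : ∑ j ∈ univ.filter (fun j : Fin n => j.val < c + 1), d j
        = d ⟨c, by omega⟩ + ∑ j ∈ univ.filter (fun j : Fin n => j.val < c), d j := by
      have h1 : univ.filter (fun j : Fin n => j.val < c + 1)
          = insert (⟨c, by omega⟩ : Fin n) (univ.filter (fun j : Fin n => j.val < c)) := by
        ext j
        simp only [Finset.mem_filter, Finset.mem_univ, true_and, Finset.mem_insert, Fin.ext_iff]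
        omega
      rw [h1, Finset.sum_insert]
      simp
    rw [hsum]
    omega

/-- From the final state to disjoint transversals. -/
theorem exists_family (A : ι → Fin n → κ) (hA : ∀ i, Function.Injective (A i)) (d : Fin n → ℕ)
    (hd : ∀ c, Good A c (d c)) :
    ∃ D : Finset ι, ∃ ρ : Fin n → ι → ι,
      (∀ j, Set.InjOn (ρ j) D) ∧ (∀ r ∈ D, Function.Injective (fun j => ρ j r)) ∧
      (∀ r ∈ D, Function.Injective (fun j => A (ρ j r) j)) ∧
      Fintype.card ι ≤ D.card + ∑ j, d j := by
  obtain ⟨D, ρ, hS, hcard⟩ := run A hA d hd n le_rfl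
  refine ⟨D, ρ, fun j => hS.inj j j.isLt, ?_, ?_, ?_⟩
  · intro r hr j j' hjj
    by_contra hne
    exact hS.rows r hr j j' j.isLt j'.isLt hne hjj
  · intro r hr j j' hjj
    by_contra hne
    exact hS.syms r hr j j' j.isLt j'.isLt hne hjj
  · have : univ.filter (fun j : Fin n => j.val < n) = univ := by
      apply Finset.filter_true_of_mem
      intro j _; exact j.isLt
    rw [this] at hcard
    exact hcard

end Step

theorem hasDisjoint_of_good {m n k : ℕ} (A : Fin m → Fin n → Fin k) (hA : RowLatin A)
    (d : Fin n → ℕ) (hd : ∀ c, Good A c (d c)) :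
    HasDisjoint A (m - ∑ j, d j) := by
  obtain ⟨D, ρ, h1, h2, h3, h4⟩ := exists_family A hA d hd
  have hq : m - ∑ j, d j ≤ D.card := by
    rw [Fintype.card_fin] at h4
    omega
  refine HasDisjoint.mono (q := D.card) ?_ hq
  let e := D.equivFin
  refine ⟨fun s j => ρ j (e.symm s).1, ?_, ?_⟩
  · intro s
    exact ⟨h2 _ (e.symm s).2, h3 _ (e.symm s).2⟩
  · intro s s' hne j hEq
    have := h1 j (e.symm s).2 (e.symm s').2 hEq
    apply hne
    exact e.symm.injective (Subtype.ext this)

/-- **Cubic deficiency.** Every `m × n` row-Latin rectangle has at least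
`m - n² (n - 1) / 2` pairwise disjoint transversals. -/
theorem poly_deficiency {m n k : ℕ} (A : Fin m → Fin n → Fin k) (hA : RowLatin A) :
    HasDisjoint A (m - n ^ 2 * (n - 1) / 2) := by
  have h := hasDisjoint_of_good A hA (fun c => n * c.val) (fun c => Or.inl rfl)
  have hs : ∑ j : Fin n, n * j.val = n ^ 2 * (n - 1) / 2 := by
    have h1 : (∑ j : Fin n, n * j.val) * 2 = n ^ 2 * (n - 1) := by
      calc (∑ j : Fin n, n * j.val) * 2 = n * ((∑ j : Fin n, j.val) * 2) := by
            rw [← Finset.mul_sum]; ring
        _ = n * ((∑ j ∈ Finset.range n, j) * 2) := by rw [Fin.sum_univ_eq_sum_range (fun i => i)]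
        _ = n * (n * (n - 1)) := by rw [Finset.sum_range_id_mul_two]
        _ = n ^ 2 * (n - 1) := by ring
    omega
  rw [hs] at h
  exact h

/-- If no column has a deficiency, there are `m` pairwise disjoint transversals. -/
theorem exact_all {m n k : ℕ} (A : Fin m → Fin n → Fin k) (hA : RowLatin A)
    (h : ∀ c : Fin n, Exact A c) : HasDisjoint A m := by
  have h1 := hasDisjoint_of_good A hA (fun _ => 0) (fun c => Or.inr (h c))
  simpa using h1

end H884
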