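import Pool.Agent.H884.ExInfluence

/-!
`MP_884cd1_co`: rainbow simple paths and the quadratic deficiency.
-/

set_option autoImplicit false

namespace H884

open Finset

/-- `SPath E tail head col src W x`: the arcs `W` of `E` form a simple directed path from `src`
to `x` with pairwise distinct colours. -/
inductive SPath {ε V C : Type} [DecidableEq ε] (E : Finset ε) (tail head : ε → V) (col : ε → C)
    (src : V) : Finset ε → V → Prop
  | nil : SPath E tail head col src ∅ src
  | cons {W : Finset ε} {x : V} (e : ε) : SPath E tail head col src W x → e ∈ E → tail e = x →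
      (∀ w ∈ W, col w ≠ col e) → head e ≠ src → (∀ w ∈ W, head w ≠ head e) →
      SPath E tail head col src (insert e W) (head e)

/-- All columns of `U` have `d` cells and every symbol has at most `d` cells in `U`. -/
def Balanced {m n k : ℕ} (A : Fin m → Fin n → Fin k) (U : Finset (Fin m × Fin n)) (d : ℕ) : Prop :=
  (∀ j, (U.filter (fun z => z.2 = j)).card = d) ∧
  ∀ s, (U.filter (fun z => A z.1 z.2 = s)).card ≤ d

/-- A partial transversal as a set of cells. -/
def PT {m n k : ℕ} (A : Fin m → Fin n → Fin k) (T : Finset (Fin m × Fin n)) : Prop :=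
  (∀ z ∈ T, ∀ w ∈ T, z.1 = w.1 → z = w) ∧ (∀ z ∈ T, ∀ w ∈ T, z.2 = w.2 → z = w) ∧
  ∀ z ∈ T, ∀ w ∈ T, A z.1 z.2 = A w.1 w.2 → z = w

end H884
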