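import Pool.Agent.H884.QDefs

/-!
`MP_884cd1_co`: the influence argument for rainbow simple paths in a digraph with terminals.
-/

set_option autoImplicit false

namespace H884

open Finset

theorem spath_prefix {ε V C : Type} [DecidableEq ε] {E : Finset ε} {tail head : ε → V}
    {col : ε → C} {src : V} {W : Finset ε} {x : V} (h : SPath E tail head col src W x) :
    ∀ w ∈ W, ∃ W' ⊆ W, SPath E tail head col src W' (head w) := by
  induction h with
  | nil => intro w hw; simp at hw
  | cons e hW he ht hc hs hh ih =>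
    intro w hw
    rw [mem_insert] at hw
    rcases hw with rfl | hw
    · exact ⟨_, Subset.rfl, SPath.cons w hW he ht hc hs hh⟩
    · obtain ⟨W', h1, h2⟩ := ih w hw
      exact ⟨W', h1.trans (subset_insert _ _), h2⟩

theorem general_influence {ε V C : Type} [DecidableEq ε] [Fintype V] [DecidableEq V] [Fintype C]
    [DecidableEq C] (E : Finset ε) (tail head : ε → V) (col : ε → C) (src : V) (Tm : Finset V)
    (hO : ∀ e ∈ E, ∀ e' ∈ E, col e = col e' → tail e = tail e' → e = e')
    (hI : ∀ e ∈ E, ∀ e' ∈ E, col e = col e' → head e ∉ Tm → head e = head e' → e = e')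
    (hsrc : ∀ e ∈ E, head e ≠ src)
    (hno : ∀ W x, SPath E tail head col src W x → x ∉ Tm) :
    ∃ R : Finset V, src ∈ R ∧ Disjoint R Tm ∧
      (E.filter (fun e => tail e ∈ R)).card + 1 ≤
        (E.filter (fun e => head e ∈ R.erase src)).card + (univ \ Tm).card := by
  classical
  let Rc : Finset C → V → Prop := fun X x =>
    ∃ W, SPath E tail head col src W x ∧ ∀ w ∈ W, col w ∈ X
  have hstep : ∀ (X : Finset C) (e : ε), e ∈ E → col e ∉ X → Rc X (tail e) →
      Rc (insert (col e) X) (head e) := by
    intro X e he heX ⟨W, hW, hWX⟩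
    by_cases hh : ∃ w ∈ W, head w = head e
    · obtain ⟨w, hw, hwe⟩ := hh
      obtain ⟨W', h1, h2⟩ := spath_prefix hW w hw
      exact ⟨W', hwe ▸ h2, fun z hz => mem_insert_of_mem (hWX z (h1 hz))⟩
    · push Not at hh
      refine ⟨insert e W, SPath.cons e hW he rfl ?_ (hsrc e he) hh, ?_⟩
      · intro w hw hcw
        exact heX (hcw ▸ hWX w hw)
      · intro w hw
        rw [mem_insert] at hw
        rcases hw with rfl | hw
        · exact mem_insert_self _ _
        · exact mem_insert_of_mem (hWX w hw)
  have hmono : ∀ (X Y : Finset C) (x : V), X ⊆ Y → Rc X x → Rc Y x := by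
    intro X Y x hXY ⟨W, h1, h2⟩
    exact ⟨W, h1, fun w hw => hXY (h2 w hw)⟩
  let S : Finset C → Finset V := fun X => univ.filter (fun x => Rc X x)
  have hS : ∀ X x, x ∈ S X ↔ Rc X x := fun X x => by simp [S]
  have hsS : ∀ X, src ∈ S X := fun X => by
    rw [hS]
    exact ⟨∅, SPath.nil, by simp⟩
  have hTm : ∀ X x, x ∈ S X → x ∉ Tm := by
    intro X x hx
    rw [hS] at hx
    obtain ⟨W, hW, _⟩ := hx
    exact hno W x hW
  obtain ⟨X, hX⟩ := influence (fun X => ((S X).card : ℤ))
  refine ⟨S X, hsS X, ?_, ?_⟩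
  · rw [disjoint_left]
    intro x hx
    exact hTm X x hx
  set A : Finset ε := E.filter (fun e => tail e ∈ S X) with hA
  set B : Finset ε := E.filter (fun e => head e ∈ (S X).erase src) with hB
  have hAB : A.card ≤ (A \ B).card + B.card := by
    have := card_le_card_sdiff_add_card (s := A) (t := B)
    omega
  have hBm : ∀ e ∈ E, head e ∈ S X → e ∈ B := by
    intro e he heS
    rw [hB, mem_filter, mem_erase]
    exact ⟨he, hsrc e he, heS⟩
  have hcol : ∀ i : C, (((A \ B).filter (fun e => col e = i)).card : ℤ) ≤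
      ((S (insert i X)).card : ℤ) - ((S (X.erase i)).card : ℤ) := by
    intro i
    have hsub : S (X.erase i) ⊆ S (insert i X) := by
      intro x hx
      rw [hS] at hx ⊢
      exact hmono _ _ _ ((erase_subset _ _).trans (subset_insert _ _)) hx
    have hcard : (((S (insert i X)) \ (S (X.erase i))).card : ℤ) =
        ((S (insert i X)).card : ℤ) - ((S (X.erase i)).card : ℤ) := by
      rw [card_sdiff_of_subset hsub, Nat.cast_sub (card_le_card hsub)]
    rw [← hcard, Nat.cast_le]
    by_cases hi : i ∈ X
    · refine card_le_card_of_injOn tail ?_ ?_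
      · intro e he
        rw [mem_coe, mem_filter, mem_sdiff] at he
        obtain ⟨⟨heA, heB⟩, hei⟩ := he
        rw [hA, mem_filter] at heA
        rw [mem_coe, mem_sdiff, hS, hS]
        refine ⟨hmono _ _ _ (subset_insert _ _) ((hS _ _).1 heA.2), fun hcon => ?_⟩
        have hei' : col e ∉ X.erase i := by rw [hei]; simp
        have h1 := hstep (X.erase i) e heA.1 hei' hcon
        rw [hei, insert_erase hi] at h1
        exact heB (hBm e heA.1 ((hS _ _).2 h1))
      · intro e he e' he' h
        rw [mem_coe, mem_filter, mem_sdiff, hA, mem_filter] at he he'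
        exact hO e he.1.1.1 e' he'.1.1.1 (he.2.trans he'.2.symm) h
    · refine card_le_card_of_injOn head ?_ ?_
      · intro e he
        rw [mem_coe, mem_filter, mem_sdiff] at he
        obtain ⟨⟨heA, heB⟩, hei⟩ := he
        rw [hA, mem_filter] at heA
        have hei' : col e ∉ X := by rw [hei]; exact hi
        have h1 := hstep X e heA.1 hei' ((hS _ _).1 heA.2)
        rw [mem_coe, mem_sdiff, hS]
        refine ⟨hei ▸ h1, fun hcon => ?_⟩
        rw [erase_eq_of_notMem hi] at hcon
        exact heB (hBm e heA.1 hcon)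
      · intro e he e' he' h
        rw [mem_coe, mem_filter, mem_sdiff, hA, mem_filter] at he he'
        have hei' : col e ∉ X := by rw [he.2]; exact hi
        have h1 := hstep X e he.1.1.1 hei' ((hS _ _).1 he.1.1.2)
        exact hI e he.1.1.1 e' he'.1.1.1 (he.2.trans he'.2.symm)
          (hTm _ _ ((hS _ _).2 h1)) h
  have hsum : ((A \ B).card : ℤ) ≤
      ∑ i, (((S (insert i X)).card : ℤ) - ((S (X.erase i)).card : ℤ)) := by
    rw [card_eq_sum_card_fiberwise (f := col) (t := univ) (fun z _ => by simp)]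
    push_cast
    exact sum_le_sum (fun i _ => hcol i)
  have h0 : 1 ≤ (S ∅).card := card_pos.2 ⟨src, hsS ∅⟩
  have h1 : (S univ).card ≤ (univ \ Tm).card := by
    apply card_le_card
    intro x hx
    rw [mem_sdiff]
    exact ⟨mem_univ _, hTm _ _ hx⟩
  have hX' : ∑ i, (((S (insert i X)).card : ℤ) - ((S (X.erase i)).card : ℤ)) ≤
      ((S univ).card : ℤ) - ((S ∅).card : ℤ) := hX
  have h3 : (1 : ℤ) ≤ ((S ∅).card : ℤ) := by exact_mod_cast h0
  have h4 : ((S univ).card : ℤ) ≤ ((univ \ Tm).card : ℤ) := by exact_mod_cast h1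
  have h5 : ((A \ B).card : ℤ) + 1 ≤ ((univ \ Tm).card : ℤ) := by omega
  have h6 : (A \ B).card + 1 ≤ (univ \ Tm).card := by exact_mod_cast h5
  omega

end H884
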