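import Pool.Agent.H884.ExInfluence

/-!
Augmenting rainbow matchings by the influence lemma (`MP_884cd1_co`).
-/

set_option autoImplicit false

namespace H884

open Finset

section Aug

variable {Z α β : Type} [DecidableEq Z] [DecidableEq α] [DecidableEq β] {m : ℕ}

/-- `Rch … X x N`: the matching `N` arises from `P` by a chain of exchanges with colours in `X`; it
covers `v` and all values covered by `P`, except `x`. -/
inductive Rch (row : Z → Fin m) (a : Z → α) (b : Z → β) (U P Q : Finset Z) (v : α) :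
    Finset (Fin m) → α → Finset Z → Prop
  | base (X : Finset (Fin m)) : Rch row a b U P Q v X v P
  | step {X : Finset (Fin m)} {x : α} {N : Finset Z} (z f : Z)
      (h : Rch row a b U P Q v X x N) (hz : z ∈ U) (hzP : ∀ g ∈ P, row g ≠ row z)
      (hzX : row z ∉ X) (haz : a z = x) (hf : f ∈ P) (hfQ : f ∉ Q) (hfN : f ∈ N)
      (hb : b f = b z) :
      Rch row a b U P Q v (insert (row z) X) (a f) (insert z (N.erase f))
  | mono {X Y : Finset (Fin m)} {x : α} {N : Finset Z}
      (h : Rch row a b U P Q v X x N) (hXY : X ⊆ Y) : Rch row a b U P Q v Y x N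

structure RInv (row : Z → Fin m) (a : Z → α) (b : Z → β) (U P Q : Finset Z) (v : α)
    (X : Finset (Fin m)) (x : α) (N : Finset Z) : Prop where
  sub : N ⊆ U
  q : Q ⊆ N
  rowinj : ∀ z ∈ N, ∀ w ∈ N, row z = row w → z = w
  ainj : ∀ z ∈ N, ∀ w ∈ N, a z = a w → z = w
  binj : ∀ z ∈ N, ∀ w ∈ N, b z = b w → z = w
  anot : ∀ z ∈ N, a z ≠ x
  acov : ∀ y, (y = v ∨ ∃ f ∈ P, a f = y) → y = x ∨ ∃ z ∈ N, a z = y
  bcov : ∀ f ∈ P, ∃ z ∈ N, b z = b f
  bsub : ∀ z ∈ N, ∃ f ∈ P, b f = b z
  rows : ∀ z ∈ N, z ∈ P ∨ ((∀ g ∈ P, row g ≠ row z) ∧ row z ∈ X)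
  removed : ∀ f ∈ P, f ∉ N → ∃ N', Rch row a b U P Q v X (a f) N'

theorem Rch.inv {row : Z → Fin m} {a : Z → α} {b : Z → β} {U P Q : Finset Z} {v : α}
    (hPU : P ⊆ U) (hQP : Q ⊆ P)
    (hrow : ∀ z ∈ P, ∀ w ∈ P, row z = row w → z = w)
    (ha : ∀ z ∈ P, ∀ w ∈ P, a z = a w → z = w)
    (hb : ∀ z ∈ P, ∀ w ∈ P, b z = b w → z = w)
    (hv : ∀ z ∈ P, a z ≠ v) {X : Finset (Fin m)} {x : α} {N : Finset Z}
    (h : Rch row a b U P Q v X x N) : RInv row a b U P Q v X x N := by
  induction h with
  | base X =>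
    exact ⟨hPU, hQP, hrow, ha, hb, hv, fun y hy => hy.imp_right (fun ⟨f, hf, e⟩ => ⟨f, hf, e⟩),
      fun f hf => ⟨f, hf, rfl⟩, fun z hz => ⟨z, hz, rfl⟩, fun z hz => Or.inl hz,
      fun f hf hfN => absurd hf hfN⟩
  | mono h hXY ih =>
    exact ⟨ih.sub, ih.q, ih.rowinj, ih.ainj, ih.binj, ih.anot, ih.acov, ih.bcov, ih.bsub,
      fun z hz => (ih.rows z hz).imp_right (fun ⟨h1, h2⟩ => ⟨h1, hXY h2⟩),
      fun f hf hfN => by
        obtain ⟨N', hN'⟩ := ih.removed f hf hfN
        exact ⟨N', hN'.mono hXY⟩⟩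
  | @step X x N z f h hz hzP hzX haz hf hfQ hfN hbf ih =>
    have hrowz : ∀ w ∈ N, row w ≠ row z := by
      intro w hw e
      rcases ih.rows w hw with h1 | h1
      · exact hzP w h1 e
      · exact hzX (e ▸ h1.2)
    have haz' : ∀ w ∈ N, a w ≠ a z := by
      intro w hw
      rw [haz]
      exact ih.anot w hw
    have hbz' : ∀ w ∈ N.erase f, b w ≠ b z := by
      intro w hw e
      rw [mem_erase] at hw
      exact hw.1 (ih.binj w hw.2 f hfN (e.trans hbf.symm))
    have hself : Rch row a b U P Q v (insert (row z) X) (a f) (insert z (N.erase f)) :=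
      Rch.step z f h hz hzP hzX haz hf hfQ hfN hbf
    refine ⟨?_, ?_, ?_, ?_, ?_, ?_, ?_, ?_, ?_, ?_, ?_⟩
    · intro w hw
      rw [mem_insert] at hw
      rcases hw with rfl | hw
      · exact hz
      · exact ih.sub (mem_of_mem_erase hw)
    · intro w hw
      rw [mem_insert, mem_erase]
      right
      exact ⟨fun e => hfQ (e ▸ hw), ih.q hw⟩
    · intro w hw u hu e
      rw [mem_insert] at hw hu
      rcases hw with rfl | hw <;> rcases hu with rfl | hu
      · rfl
      · exact absurd e.symm (hrowz u (mem_of_mem_erase hu))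
      · exact absurd e (hrowz w (mem_of_mem_erase hw))
      · exact ih.rowinj w (mem_of_mem_erase hw) u (mem_of_mem_erase hu) e
    · intro w hw u hu e
      rw [mem_insert] at hw hu
      rcases hw with rfl | hw <;> rcases hu with rfl | hu
      · rfl
      · exact absurd e.symm (haz' u (mem_of_mem_erase hu))
      · exact absurd e (haz' w (mem_of_mem_erase hw))
      · exact ih.ainj w (mem_of_mem_erase hw) u (mem_of_mem_erase hu) e
    · intro w hw u hu e
      rw [mem_insert] at hw hu
      rcases hw with rfl | hw <;> rcases hu with rfl | hu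
      · rfl
      · exact absurd e.symm (hbz' u hu)
      · exact absurd e (hbz' w hw)
      · exact ih.binj w (mem_of_mem_erase hw) u (mem_of_mem_erase hu) e
    · intro w hw e
      rw [mem_insert, mem_erase] at hw
      rcases hw with rfl | hw
      · exact haz' f hfN e.symm
      · exact hw.1 (ih.ainj w hw.2 f hfN e)
    · intro y hy
      rcases ih.acov y hy with h1 | ⟨w, hw, e⟩
      · right
        exact ⟨z, mem_insert_self _ _, by rw [haz, h1]⟩
      · by_cases hwf : w = f
        · left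
          rw [← e, hwf]
        · right
          exact ⟨w, mem_insert_of_mem (mem_erase.2 ⟨hwf, hw⟩), e⟩
    · intro g hg
      obtain ⟨w, hw, e⟩ := ih.bcov g hg
      by_cases hwf : w = f
      · exact ⟨z, mem_insert_self _ _, by rw [← e, hwf, hbf]⟩
      · exact ⟨w, mem_insert_of_mem (mem_erase.2 ⟨hwf, hw⟩), e⟩
    · intro w hw
      rw [mem_insert] at hw
      rcases hw with rfl | hw
      · exact ⟨f, hf, hbf⟩
      · exact ih.bsub w (mem_of_mem_erase hw)
    · intro w hw
      rw [mem_insert] at hw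
      rcases hw with rfl | hw
      · exact Or.inr ⟨hzP, mem_insert_self _ _⟩
      · exact (ih.rows w (mem_of_mem_erase hw)).imp_right
          (fun ⟨h1, h2⟩ => ⟨h1, mem_insert_of_mem h2⟩)
    · intro g hg hgN
      by_cases hgf : g = f
      · rw [hgf]
        exact ⟨_, hself⟩
      · have hgN' : g ∉ N := fun h' => hgN (mem_insert_of_mem (mem_erase.2 ⟨hgf, h'⟩))
        obtain ⟨N', hN'⟩ := ih.removed g hg hgN'
        exact ⟨N', hN'.mono (subset_insert _ _)⟩

/-- The augmentation lemma. -/
theorem augment (row : Z → Fin m) (a : Z → α) (b : Z → β) (U P Q : Finset Z) (v : α)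
    (hPU : P ⊆ U) (hQP : Q ⊆ P)
    (hrow : ∀ z ∈ P, ∀ w ∈ P, row z = row w → z = w)
    (ha : ∀ z ∈ P, ∀ w ∈ P, a z = a w → z = w)
    (hb : ∀ z ∈ P, ∀ w ∈ P, b z = b w → z = w)
    (hv : ∀ z ∈ P, a z ≠ v)
    (hUa : ∀ z ∈ U, ∀ w ∈ U, row z = row w → a z = a w → z = w)
    (hUb : ∀ z ∈ U, ∀ w ∈ U, row z = row w → b z = b w → z = w)
    (D : ℕ)
    (hDv : D ≤ (U.filter (fun z => a z = v)).card)
    (hDa : ∀ f ∈ P, f ∉ Q → D ≤ (U.filter (fun z => a z = a f)).card)
    (hDb : ∀ f ∈ P, f ∉ Q → (U.filter (fun z => b z = b f)).card ≤ D)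
    (hD : P.card + (P \ Q).card * P.card + 1 ≤ D) :
    ∃ P' ⊆ U, (∀ z ∈ P', ∀ w ∈ P', row z = row w → z = w) ∧
      (∀ z ∈ P', ∀ w ∈ P', a z = a w → z = w) ∧
      (∀ z ∈ P', ∀ w ∈ P', b z = b w → z = w) ∧
      (∃ z ∈ P', a z = v) ∧ (∀ f ∈ P, f ∉ Q → ∃ z ∈ P', a z = a f) ∧
      (∀ f ∈ P, ∃ z ∈ P', b z = b f) := by
  classical
  by_contra hno
  -- available cells
  set U' : Finset Z := U.filter (fun z => ∀ g ∈ P, row g ≠ row z) with hU'
  let S : Finset (Fin m) → Finset α := fun X =>
    (insert v ((P \ Q).image a)).filter (fun x => ∃ N, Rch row a b U P Q v X x N)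
  have hvS : ∀ X, v ∈ S X := fun X =>
    mem_filter.2 ⟨mem_insert_self _ _, P, Rch.base X⟩
  have hSmono : ∀ X Y : Finset (Fin m), X ⊆ Y → S X ⊆ S Y := by
    intro X Y hXY x hx
    obtain ⟨h1, N, h2⟩ := mem_filter.1 hx
    exact mem_filter.2 ⟨h1, N, h2.mono hXY⟩
  -- a new colour at a reached vertex: no exit, and the head is reached
  have hstep : ∀ (X : Finset (Fin m)) (z : Z), z ∈ U' → row z ∉ X → a z ∈ S X →
      ∃ f ∈ P, f ∉ Q ∧ b f = b z ∧ a f ∈ S (insert (row z) X) := by
    intro X z hz hzX haz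
    rw [hU', mem_filter] at hz
    obtain ⟨-, N, hN⟩ := mem_filter.1 haz
    have inv := hN.inv hPU hQP hrow ha hb hv
    have hrowz : ∀ w ∈ N, row w ≠ row z := by
      intro w hw e
      rcases inv.rows w hw with h1 | h1
      · exact hz.2 w h1 e
      · exact hzX (e ▸ h1.2)
    by_cases hex : ∃ f ∈ P, f ∉ Q ∧ b f = b z
    · obtain ⟨f, hf, hfQ, hbf⟩ := hex
      refine ⟨f, hf, hfQ, hbf, ?_⟩
      have hmem : a f ∈ insert v ((P \ Q).image a) :=
        mem_insert_of_mem (mem_image_of_mem _ (mem_sdiff.2 ⟨hf, hfQ⟩))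
      by_cases hfN : f ∈ N
      · exact mem_filter.2 ⟨hmem, _, Rch.step z f hN hz.1 hz.2 hzX rfl hf hfQ hfN hbf⟩
      · obtain ⟨N', hN'⟩ := inv.removed f hf hfN
        exact mem_filter.2 ⟨hmem, N', hN'.mono (subset_insert _ _)⟩
    · exfalso
      push Not at hex
      apply hno
      -- remove the (droppable) cell of `N` with the same `b` value, if any
      let N0 : Finset Z := N.filter (fun w => b w ≠ b z)
      have hN0 : ∀ w ∈ N0, w ∈ N ∧ b w ≠ b z := fun w hw => mem_filter.1 hw
      have hgone : ∀ w ∈ N, w ∉ N0 → w ∈ Q := by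
        intro w hw hwN0
        have hbw : b w = b z := by
          by_contra h'
          exact hwN0 (mem_filter.2 ⟨hw, h'⟩)
        obtain ⟨f, hf, e⟩ := inv.bsub w hw
        have hfQ : f ∈ Q := by
          by_contra h'
          exact hex f hf h' (e.trans hbw)
        have := inv.binj w hw f (inv.q hfQ) e.symm
        rw [this]
        exact hfQ
      refine ⟨insert z N0, ?_, ?_, ?_, ?_, ?_, ?_, ?_⟩
      · intro w hw
        rw [mem_insert] at hw
        rcases hw with rfl | hw
        · exact hz.1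
        · exact inv.sub (hN0 w hw).1
      · intro w hw u hu e
        rw [mem_insert] at hw hu
        rcases hw with rfl | hw <;> rcases hu with rfl | hu
        · rfl
        · exact absurd e.symm (hrowz u (hN0 u hu).1)
        · exact absurd e (hrowz w (hN0 w hw).1)
        · exact inv.rowinj w (hN0 w hw).1 u (hN0 u hu).1 e
      · intro w hw u hu e
        rw [mem_insert] at hw hu
        rcases hw with rfl | hw <;> rcases hu with rfl | hu
        · rfl
        · exact absurd e.symm (inv.anot u (hN0 u hu).1)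
        · exact absurd e (inv.anot w (hN0 w hw).1)
        · exact inv.ainj w (hN0 w hw).1 u (hN0 u hu).1 e
      · intro w hw u hu e
        rw [mem_insert] at hw hu
        rcases hw with rfl | hw <;> rcases hu with rfl | hu
        · rfl
        · exact absurd e.symm (hN0 u hu).2
        · exact absurd e (hN0 w hw).2
        · exact inv.binj w (hN0 w hw).1 u (hN0 u hu).1 e
      · rcases inv.acov v (Or.inl rfl) with h1 | ⟨w, hw, e⟩
        · exact ⟨z, mem_insert_self _ _, h1.symm⟩
        · by_cases hwN0 : w ∈ N0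
          · exact ⟨w, mem_insert_of_mem hwN0, e⟩
          · exact absurd e (hv w (hQP (hgone w hw hwN0)))
      · intro f hf hfQ
        rcases inv.acov (a f) (Or.inr ⟨f, hf, rfl⟩) with h1 | ⟨w, hw, e⟩
        · exact ⟨z, mem_insert_self _ _, h1.symm⟩
        · by_cases hwN0 : w ∈ N0
          · exact ⟨w, mem_insert_of_mem hwN0, e⟩
          · have hwQ := hgone w hw hwN0
            have := ha w (hQP hwQ) f hf e
            rw [this] at hwQ
            exact absurd hwQ hfQ
      · intro f hf
        obtain ⟨w, hw, e⟩ := inv.bcov f hf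
        by_cases hwN0 : w ∈ N0
        · exact ⟨w, mem_insert_of_mem hwN0, e⟩
        · refine ⟨z, mem_insert_self _ _, ?_⟩
          by_contra h'
          exact hwN0 (mem_filter.2 ⟨hw, fun h'' => h' (h''.symm.trans e)⟩)
  obtain ⟨X, hX⟩ := influence (fun X => ((S X).card : ℤ))
  -- leaving cells
  set T : Finset Z := (P \ Q).filter (fun f => a f ∈ S X) with hT
  set A1 : Finset Z := U'.filter (fun z => a z ∈ S X) with hA1
  set B1 : Finset Z := U'.filter (fun z => ∃ f ∈ T, b f = b z) with hB1
  have hcol : ∀ i : Fin m, (((A1 \ B1).filter (fun z => row z = i)).card : ℤ) ≤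
      ((S (insert i X)).card : ℤ) - ((S (X.erase i)).card : ℤ) := by
    intro i
    have hsub : S (X.erase i) ⊆ S (insert i X) :=
      hSmono _ _ ((erase_subset _ _).trans (subset_insert _ _))
    have hcard : (((S (insert i X)) \ (S (X.erase i))).card : ℤ) =
        ((S (insert i X)).card : ℤ) - ((S (X.erase i)).card : ℤ) := by
      rw [card_sdiff_of_subset hsub, Nat.cast_sub (card_le_card hsub)]
    rw [← hcard, Nat.cast_le]
    by_cases hi : i ∈ X
    · refine card_le_card_of_injOn a ?_ ?_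
      · intro z hz
        rw [mem_coe, mem_filter, mem_sdiff] at hz
        obtain ⟨⟨hzA, hzB⟩, hzi⟩ := hz
        rw [hA1, mem_filter] at hzA
        rw [mem_coe, mem_sdiff]
        refine ⟨hSmono _ _ (subset_insert _ _) hzA.2, fun hcon => ?_⟩
        have hzi' : row z ∉ X.erase i := by rw [hzi]; simp
        obtain ⟨f, hf, hfQ, hbf, haf⟩ := hstep (X.erase i) z hzA.1 hzi' hcon
        rw [hzi, insert_erase hi] at haf
        apply hzB
        rw [hB1, mem_filter]
        exact ⟨hzA.1, f, mem_filter.2 ⟨mem_sdiff.2 ⟨hf, hfQ⟩, haf⟩, hbf⟩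
      · intro z hz w hw e
        rw [mem_coe, mem_filter, mem_sdiff] at hz hw
        have h1 := (mem_filter.1 hz.1.1).1
        have h2 := (mem_filter.1 hw.1.1).1
        exact hUa z (mem_filter.1 h1).1 w (mem_filter.1 h2).1 (hz.2.trans hw.2.symm) e
    · -- heads
      have hhead : ∀ z : Z, ∃ y : α, z ∈ (A1 \ B1).filter (fun z => row z = i) →
          ∃ f ∈ P, f ∉ Q ∧ b f = b z ∧ a f = y ∧ y ∈ S (insert i X) ∧ y ∉ S (X.erase i) := by
        intro z
        by_cases hz : z ∈ (A1 \ B1).filter (fun z => row z = i)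
        · rw [mem_filter, mem_sdiff] at hz
          obtain ⟨⟨hzA, hzB⟩, hzi⟩ := hz
          rw [hA1, mem_filter] at hzA
          have hzi' : row z ∉ X := by rw [hzi]; exact hi
          obtain ⟨f, hf, hfQ, hbf, haf⟩ := hstep X z hzA.1 hzi' hzA.2
          refine ⟨a f, fun _ => ⟨f, hf, hfQ, hbf, rfl, by rw [← hzi]; exact haf, ?_⟩⟩
          intro hcon
          rw [erase_eq_of_notMem hi] at hcon
          apply hzB
          rw [hB1, mem_filter]
          exact ⟨hzA.1, f, mem_filter.2 ⟨mem_sdiff.2 ⟨hf, hfQ⟩, hcon⟩, hbf⟩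
        · exact ⟨a z, fun h => absurd h hz⟩
      choose hd hhd using hhead
      refine card_le_card_of_injOn hd ?_ ?_
      · intro z hz
        obtain ⟨f, _, _, _, _, h5, h6⟩ := hhd z (mem_coe.1 hz)
        rw [mem_coe, mem_sdiff]
        exact ⟨h5, h6⟩
      · intro z hz w hw e
        obtain ⟨f, hf, _, hbf, haf, _, _⟩ := hhd z (mem_coe.1 hz)
        obtain ⟨g, hg, _, hbg, hag, _, _⟩ := hhd w (mem_coe.1 hw)
        have hfg : f = g := ha f hf g hg (by rw [haf, hag, e])
        rw [mem_coe, mem_filter, mem_sdiff] at hz hw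
        have h1 := (mem_filter.1 hz.1.1).1
        have h2 := (mem_filter.1 hw.1.1).1
        refine hUb z (mem_filter.1 h1).1 w (mem_filter.1 h2).1 (hz.2.trans hw.2.symm) ?_
        rw [← hbf, ← hbg, hfg]
  have hsum : ((A1 \ B1).card : ℤ) ≤ ((S univ).card : ℤ) - ((S ∅).card : ℤ) := by
    refine le_trans ?_ hX
    rw [card_eq_sum_card_fiberwise (f := row) (t := univ) (fun z _ => by simp)]
    push_cast
    exact sum_le_sum (fun i _ => hcol i)
  have h0 : 1 ≤ (S ∅).card := card_pos.2 ⟨v, hvS ∅⟩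
  have h1 : (S univ).card ≤ (P \ Q).card + 1 := by
    refine le_trans (card_filter_le _ _) ?_
    refine le_trans (card_insert_le _ _) ?_
    exact Nat.add_le_add_right card_image_le 1
  have hAB : (A1 \ B1).card ≤ (P \ Q).card := by
    have h2 : ((S univ).card : ℤ) ≤ ((P \ Q).card : ℤ) + 1 := by exact_mod_cast h1
    have h3 : (1 : ℤ) ≤ ((S ∅).card : ℤ) := by exact_mod_cast h0
    have : ((A1 \ B1).card : ℤ) ≤ ((P \ Q).card : ℤ) := by omega
    exact_mod_cast this
  -- lower bound for the number of cells whose tail is reached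
  have hrm : ∀ x : α, (U.filter (fun z => a z = x)).card ≤
      (U'.filter (fun z => a z = x)).card + P.card := by
    intro x
    have e1 : U.filter (fun z => a z = x) ⊆ (U'.filter (fun z => a z = x)) ∪
        ((U \ U').filter (fun z => a z = x)) := by
      intro z hz
      rw [mem_filter] at hz
      by_cases h : z ∈ U'
      · exact mem_union_left _ (mem_filter.2 ⟨h, hz.2⟩)
      · exact mem_union_right _ (mem_filter.2 ⟨mem_sdiff.2 ⟨hz.1, h⟩, hz.2⟩)
    have e2 : ((U \ U').filter (fun z => a z = x)).card ≤ P.card := by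
      have hg : ∀ z : Z, ∃ g : Z, z ∈ (U \ U').filter (fun z => a z = x) →
          g ∈ P ∧ row g = row z := by
        intro z
        by_cases hz : z ∈ (U \ U').filter (fun z => a z = x)
        · rw [mem_filter, mem_sdiff, hU', mem_filter] at hz
          have h2 := hz.1.2
          push Not at h2
          obtain ⟨g, hg, e⟩ := h2 hz.1.1
          exact ⟨g, fun _ => ⟨hg, e⟩⟩
        · exact ⟨z, fun h => absurd h hz⟩
      choose g hg using hg
      refine card_le_card_of_injOn g (fun z hz => mem_coe.2 (hg z (mem_coe.1 hz)).1) ?_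
      intro z hz w hw e
      have h2 := (hg z (mem_coe.1 hz)).2
      have h3 := (hg w (mem_coe.1 hw)).2
      rw [mem_coe, mem_filter, mem_sdiff] at hz hw
      exact hUa z hz.1.1 w hw.1.1 (by rw [← h2, ← h3, e]) (hz.2.trans hw.2.symm)
    have e3 := card_le_card e1
    have e4 := card_union_le (U'.filter (fun z => a z = x)) ((U \ U').filter (fun z => a z = x))
    omega
  have hTP : ∀ f ∈ T, f ∈ P ∧ f ∉ Q ∧ a f ∈ S X := by
    intro f hf
    rw [hT, mem_filter, mem_sdiff] at hf
    exact ⟨hf.1.1, hf.1.2, hf.2⟩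
  have hA1c : D - P.card + T.card * (D - P.card) ≤ A1.card := by
    have hsubs : (U'.filter (fun z => a z = v)) ∪
        T.biUnion (fun f => U'.filter (fun z => a z = a f)) ⊆ A1 := by
      intro z hz
      rw [mem_union, mem_biUnion] at hz
      rw [hA1, mem_filter]
      rcases hz with hz | ⟨f, hf, hz⟩
      · rw [mem_filter] at hz
        exact ⟨hz.1, by rw [hz.2]; exact hvS X⟩
      · rw [mem_filter] at hz
        exact ⟨hz.1, by rw [hz.2]; exact (hTP f hf).2.2⟩
    have hdis : Disjoint (U'.filter (fun z => a z = v))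
        (T.biUnion (fun f => U'.filter (fun z => a z = a f))) := by
      rw [disjoint_left]
      intro z hz hz2
      rw [mem_biUnion] at hz2
      obtain ⟨f, hf, hz2⟩ := hz2
      rw [mem_filter] at hz hz2
      exact hv f (hTP f hf).1 (hz2.2.symm.trans hz.2)
    have hpd : ∀ f ∈ T, ∀ g ∈ T, f ≠ g → Disjoint (U'.filter (fun z => a z = a f))
        (U'.filter (fun z => a z = a g)) := by
      intro f hf g hg hfg
      rw [disjoint_left]
      intro z hz hz2
      rw [mem_filter] at hz hz2
      exact hfg (ha f (hTP f hf).1 g (hTP g hg).1 (hz.2.symm.trans hz2.2))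
    have hc := card_le_card hsubs
    rw [card_union_of_disjoint hdis, card_biUnion hpd] at hc
    have h2 : D - P.card ≤ (U'.filter (fun z => a z = v)).card := by
      have := hrm v
      omega
    have h3 : T.card * (D - P.card) ≤ ∑ f ∈ T, (U'.filter (fun z => a z = a f)).card := by
      rw [← smul_eq_mul, ← sum_const]
      apply sum_le_sum
      intro f hf
      have h4 := hrm (a f)
      have h5 := hDa f (hTP f hf).1 (hTP f hf).2.1
      omega
    omega
  have hB1c : B1.card ≤ T.card * (D - 1) := by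
    have hsubs : B1 ⊆ T.biUnion (fun f => (U.filter (fun z => b z = b f)).erase f) := by
      intro z hz
      rw [hB1, mem_filter] at hz
      obtain ⟨hz1, f, hf, e⟩ := hz
      rw [hU', mem_filter] at hz1
      rw [mem_biUnion]
      refine ⟨f, hf, ?_⟩
      rw [mem_erase, mem_filter]
      refine ⟨?_, hz1.1, e.symm⟩
      rintro rfl
      exact hz1.2 z (hTP z hf).1 rfl
    refine le_trans (card_le_card hsubs) ?_
    refine le_trans card_biUnion_le ?_
    rw [← smul_eq_mul, ← sum_const]
    apply sum_le_sum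
    intro f hf
    have hfm : f ∈ U.filter (fun z => b z = b f) := mem_filter.2 ⟨hPU (hTP f hf).1, rfl⟩
    rw [card_erase_of_mem hfm]
    have := hDb f (hTP f hf).1 (hTP f hf).2.1
    omega
  have hAB2 : A1.card ≤ (A1 \ B1).card + B1.card := card_le_card_sdiff_add_card
  have hTc : T.card ≤ (P \ Q).card := card_filter_le _ _
  -- arithmetic
  rcases Nat.eq_zero_or_pos P.card with hP0 | hP0
  · have hPQ : (P \ Q).card = 0 := by
      have : (P \ Q).card ≤ P.card := card_le_card sdiff_subset
      omega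
    have hT0 : T.card = 0 := by omega
    rw [hT0, zero_mul] at hA1c hB1c
    rw [hPQ] at hAB
    rw [hP0] at hA1c hD
    omega
  · obtain ⟨p, hp⟩ : ∃ p, P.card = p + 1 := ⟨P.card - 1, by omega⟩
    have e1 : T.card * (D - 1) = T.card * (D - P.card) + T.card * p := by
      rw [← mul_add]
      congr 1
      omega
    have e2 : T.card * p ≤ (P \ Q).card * p := Nat.mul_le_mul_right _ hTc
    have e3 : (P \ Q).card * P.card = (P \ Q).card * p + (P \ Q).card := by
      rw [hp]; ring
    omega

end Aug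

end H884
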