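import Pool.Agent.H884.Quad
import Pool.Agent.H884.Defs

/-!
At least `m - n (n - 1)` pairwise disjoint transversals for all `m, n, k` (`MP_884cd1_co`).
-/

set_option autoImplicit false

namespace H884

open Finset

section One

variable {m n k : ℕ}

/-- the symbol of a cell -/
def sy (A : Fin m → Fin n → Fin k) (z : Fin m × Fin n) : Fin k := A z.1 z.2

/-- a set of cells with distinct rows, columns and symbols -/
def Mat (A : Fin m → Fin n → Fin k) (P : Finset (Fin m × Fin n)) : Prop :=
  (∀ z ∈ P, ∀ w ∈ P, z.1 = w.1 → z = w) ∧ (∀ z ∈ P, ∀ w ∈ P, z.2 = w.2 → z = w) ∧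
    (∀ z ∈ P, ∀ w ∈ P, sy A z = sy A w → z = w)

theorem one_step {A : Fin m → Fin n → Fin k} (hA : RowLatin A) (U : Finset (Fin m × Fin n)) (D : ℕ)
    (hcol : ∀ c : Fin n, (U.filter (fun z => z.2 = c)).card = D)
    (hsym : ∀ s, (U.filter (fun z => sy A z = s)).card ≤ D)
    (hD : n * (n - 1) + 1 ≤ D) :
    ∃ T ⊆ U, Mat A T ∧ (∀ c : Fin n, ∃ z ∈ T, z.2 = c) ∧
      (∀ s, (U.filter (fun z => sy A z = s)).card = D → ∃ z ∈ T, sy A z = s) := by
  classical
  have hrc : ∀ z ∈ U, ∀ w ∈ U, z.1 = w.1 → z.2 = w.2 → z = w :=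
    fun z _ w _ h1 h2 => Prod.ext h1 h2
  have hrs : ∀ z ∈ U, ∀ w ∈ U, z.1 = w.1 → sy A z = sy A w → z = w := by
    intro z _ w _ h1 h2
    refine Prod.ext h1 (hA z.1 ?_)
    unfold sy at h2
    rw [← h1] at h2
    exact h2
  -- step 1: all columns
  have h1 : ∃ P ⊆ U, Mat A P ∧ ∀ c : Fin n, ∃ z ∈ P, z.2 = c := by
    obtain ⟨P, hP, hmax⟩ := exists_max_image (U.powerset.filter (fun P => Mat A P)) card
      ⟨∅, by
        rw [mem_filter, mem_powerset]
        exact ⟨empty_subset _, by simp, by simp, by simp⟩⟩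
    rw [mem_filter, mem_powerset] at hP
    refine ⟨P, hP.1, hP.2, ?_⟩
    by_contra hcon
    push Not at hcon
    obtain ⟨v, hv⟩ := hcon
    have hPc : (P.image Prod.snd).card = P.card :=
      card_image_of_injOn (fun z hz w hw e => hP.2.2.1 z hz w hw e)
    have hPn : P.card ≤ n - 1 := by
      rw [← hPc]
      have : P.image Prod.snd ⊆ univ.erase v := by
        intro c hc
        obtain ⟨z, hz, rfl⟩ := mem_image.1 hc
        exact mem_erase.2 ⟨hv z hz, mem_univ _⟩
      refine le_trans (card_le_card this) ?_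
      rw [card_erase_of_mem (mem_univ _), card_univ, Fintype.card_fin]
    have hn : 1 ≤ n := by
      have := v.isLt
      omega
    obtain ⟨P', hP'U, q1, q2, q3, q4, q5, -⟩ := augment (Prod.fst : Fin m × Fin n → Fin m)
      (Prod.snd : Fin m × Fin n → Fin n) (sy A) U P ∅ v hP.1 (empty_subset _) hP.2.1 hP.2.2.1
      hP.2.2.2 hv hrc hrs D (hcol v).ge (fun f _ _ => (hcol _).ge) (fun f _ _ => hsym _)
      (by
        rw [sdiff_empty]
        obtain ⟨t, rfl⟩ : ∃ t, n = t + 1 := ⟨n - 1, by omega⟩
        simp only [Nat.add_sub_cancel] at hPn hD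
        have : P.card * P.card ≤ t * t := Nat.mul_le_mul hPn hPn
        have e : (t + 1) * t = t * t + t := by ring
        omega)
    have hlt : P.card < P'.card := by
      have e1 : insert v (P.image Prod.snd) ⊆ P'.image Prod.snd := by
        intro c hc
        rw [mem_insert] at hc
        rcases hc with rfl | hc
        · obtain ⟨z, hz, e⟩ := q4
          exact mem_image.2 ⟨z, hz, e⟩
        · obtain ⟨f, hf, rfl⟩ := mem_image.1 hc
          obtain ⟨z, hz, e⟩ := q5 f hf (by simp)
          exact mem_image.2 ⟨z, hz, e⟩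
      have e2 := card_le_card e1
      rw [card_insert_of_notMem, hPc] at e2
      · have e3 : (P'.image Prod.snd).card ≤ P'.card := card_image_le
        omega
      · intro hc
        obtain ⟨z, hz, e⟩ := mem_image.1 hc
        exact hv z hz e
    have := hmax P' (by
      rw [mem_filter, mem_powerset]
      exact ⟨hP'U, q1, q2, q3⟩)
    omega
  -- step 2: all critical symbols
  let crit : Finset (Fin k) := univ.filter (fun s => (U.filter (fun z => sy A z = s)).card = D)
  obtain ⟨P0, hP0U, hP0, hP0c⟩ := h1
  obtain ⟨P, hP, hmax⟩ := exists_max_image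
    (U.powerset.filter (fun P => Mat A P ∧ ∀ c : Fin n, ∃ z ∈ P, z.2 = c))
    (fun P => ((P.image (sy A)) ∩ crit).card)
    ⟨P0, by
      rw [mem_filter, mem_powerset]
      exact ⟨hP0U, hP0, hP0c⟩⟩
  rw [mem_filter, mem_powerset] at hP
  obtain ⟨hPU, hPM, hPcov⟩ := hP
  refine ⟨P, hPU, hPM, hPcov, ?_⟩
  by_contra hcon
  push Not at hcon
  obtain ⟨v, hvD, hv⟩ := hcon
  have hPn : P.card = n := by
    have e1 : (P.image Prod.snd).card = P.card :=
      card_image_of_injOn (fun z hz w hw e => hPM.2.1 z hz w hw e)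
    have e2 : P.image Prod.snd = univ := by
      apply eq_univ_of_forall
      intro c
      obtain ⟨z, hz, e⟩ := hPcov c
      exact mem_image.2 ⟨z, hz, e⟩
    rw [← e1, e2, card_univ, Fintype.card_fin]
  set Q : Finset (Fin m × Fin n) := P.filter (fun z => sy A z ∉ crit) with hQ
  have hUc : U.card = n * D := by
    rw [card_eq_sum_card_fiberwise (f := Prod.snd) (t := univ) (fun z _ => by simp)]
    rw [sum_congr rfl (fun c _ => hcol c)]
    simp
  have hsub : (insert v ((P \ Q).image (sy A))) ⊆ crit := by
    intro s hs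
    rw [mem_insert] at hs
    rcases hs with rfl | hs
    · exact mem_filter.2 ⟨mem_univ _, hvD⟩
    · obtain ⟨z, hz, rfl⟩ := mem_image.1 hs
      rw [mem_sdiff] at hz
      by_contra h
      exact hz.2 (mem_filter.2 ⟨hz.1, h⟩)
  have hKcard : (insert v ((P \ Q).image (sy A))).card = (P \ Q).card + 1 := by
    rw [card_insert_of_notMem]
    · congr 1
      exact card_image_of_injOn (fun z hz w hw e => hPM.2.2 z (mem_sdiff.1 hz).1 w
        (mem_sdiff.1 hw).1 e)
    · intro hc
      obtain ⟨z, hz, e⟩ := mem_image.1 hc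
      exact hv z (mem_sdiff.1 hz).1 e
  have hcells : ((P \ Q).card + 1) * D + Q.card ≤ n * D := by
    have e1 : ((insert v ((P \ Q).image (sy A))).biUnion
        (fun s => U.filter (fun z => sy A z = s))).card = ((P \ Q).card + 1) * D := by
      rw [card_biUnion]
      · rw [sum_congr rfl (fun s hs => (mem_filter.1 (hsub hs)).2), sum_const, hKcard, smul_eq_mul]
      · intro s _ s' _ hss
        refine disjoint_left.2 ?_
        intro z hz hz'
        exact hss ((mem_filter.1 hz).2.symm.trans (mem_filter.1 hz').2)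
    have e2 : Disjoint ((insert v ((P \ Q).image (sy A))).biUnion
        (fun s => U.filter (fun z => sy A z = s))) Q := by
      rw [disjoint_left]
      intro z hz hz'
      rw [mem_biUnion] at hz
      obtain ⟨s, hs, hz⟩ := hz
      have := (mem_filter.1 hz).2
      rw [hQ, mem_filter] at hz'
      exact hz'.2 (this ▸ hsub hs)
    have e3 : ((insert v ((P \ Q).image (sy A))).biUnion
        (fun s => U.filter (fun z => sy A z = s))) ∪ Q ⊆ U := by
      intro z hz
      rw [mem_union, mem_biUnion] at hz
      rcases hz with ⟨s, _, hz⟩ | hz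
      · exact (mem_filter.1 hz).1
      · exact hPU (mem_filter.1 hz).1
    have e4 := card_le_card e3
    rw [card_union_of_disjoint e2, e1, hUc] at e4
    exact e4
  have hPQ : (P \ Q).card + Q.card = n := by
    have h0 := card_sdiff_add_card_eq_card (s := Q) (t := P) (filter_subset _ _)
    omega
  have hκ : (P \ Q).card + 2 ≤ n := by
    by_contra hlt
    push Not at hlt
    rcases Nat.eq_or_lt_of_le (show (P \ Q).card ≤ n by omega) with h | h
    · have : (n + 1) * D ≤ n * D := by
        rw [h] at hcells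
        omega
      have e : (n + 1) * D = n * D + D := by ring
      omega
    · have h' : (P \ Q).card + 1 = n := by omega
      rw [h'] at hcells
      omega
  obtain ⟨P', hP'U, q1, q2, q3, q4, q5, q6⟩ := augment (Prod.fst : Fin m × Fin n → Fin m)
    (sy A) (Prod.snd : Fin m × Fin n → Fin n) U P Q v hPU (filter_subset _ _) hPM.1 hPM.2.2
    hPM.2.1 hv hrs hrc D hvD.ge
    (by
      intro f hf hfQ
      have : sy A f ∈ crit := by
        by_contra h
        exact hfQ (mem_filter.2 ⟨hf, h⟩)
      exact (mem_filter.1 this).2.ge)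
    (fun f _ _ => (hcol _).le)
    (by
      rw [hPn]
      obtain ⟨t, rfl⟩ : ∃ t, n = t + 2 := ⟨n - 2, by omega⟩
      have h3 : (P \ Q).card ≤ t := by omega
      have h4 : (P \ Q).card * (t + 2) ≤ t * (t + 2) := Nat.mul_le_mul_right _ h3
      have e : (t + 2) * (t + 2 - 1) = t * (t + 2) + (t + 2) := by
        have : t + 2 - 1 = t + 1 := by omega
        rw [this]; ring
      omega)
  have hle := hmax P' (by
    rw [mem_filter, mem_powerset]
    refine ⟨hP'U, ⟨q1, q3, q2⟩, ?_⟩
    intro c
    obtain ⟨f, hf, rfl⟩ := hPcov c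
    exact q6 f hf)
  have hsub2 : insert v ((P.image (sy A)) ∩ crit) ⊆ (P'.image (sy A)) ∩ crit := by
    intro s hs
    rw [mem_insert, mem_inter] at hs
    rw [mem_inter]
    rcases hs with rfl | ⟨hs1, hs2⟩
    · obtain ⟨z, hz, e⟩ := q4
      exact ⟨mem_image.2 ⟨z, hz, e⟩, mem_filter.2 ⟨mem_univ _, hvD⟩⟩
    · obtain ⟨f, hf, rfl⟩ := mem_image.1 hs1
      obtain ⟨z, hz, e⟩ := q5 f hf (fun h => (mem_filter.1 h).2 hs2)
      exact ⟨mem_image.2 ⟨z, hz, e⟩, hs2⟩
  have hc2 := card_le_card hsub2
  rw [card_insert_of_notMem] at hc2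
  · have hle' : ((P'.image (sy A)) ∩ crit).card ≤ ((P.image (sy A)) ∩ crit).card := hle
    omega
  · intro hc
    obtain ⟨z, hz, e⟩ := mem_image.1 (mem_inter.1 hc).1
    exact hv z hz e

theorem iterate {A : Fin m → Fin n → Fin k} (hA : RowLatin A) :
    ∀ j : ℕ, j + n * (n - 1) ≤ m → ∃ (T : Fin j → Fin n → Fin m) (U : Finset (Fin m × Fin n)),
      (∀ s, IsTransversal A (T s)) ∧ (∀ s s', s ≠ s' → ∀ c, T s c ≠ T s' c) ∧
      (∀ s c, (T s c, c) ∉ U) ∧ (∀ c : Fin n, (U.filter (fun z => z.2 = c)).card = m - j) ∧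
      (∀ s, (U.filter (fun z => sy A z = s)).card ≤ m - j) := by
  classical
  intro j
  induction j with
  | zero =>
    intro _
    refine ⟨fun s => s.elim0, univ, fun s => s.elim0, fun s => s.elim0, fun s => s.elim0, ?_, ?_⟩
    · intro c
      have : (univ : Finset (Fin m × Fin n)).filter (fun z => z.2 = c)
          = (univ : Finset (Fin m)).image (fun i => (i, c)) := by
        ext z
        rw [mem_filter, mem_image]
        constructor
        · rintro ⟨_, h⟩
          exact ⟨z.1, mem_univ _, Prod.ext rfl h.symm⟩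
        · rintro ⟨i, _, rfl⟩
          exact ⟨mem_univ _, rfl⟩
      rw [this, card_image_of_injective _ (fun i i' h => congrArg Prod.fst h), card_univ,
        Fintype.card_fin]
      omega
    · intro s
      have : ((univ : Finset (Fin m × Fin n)).filter (fun z => sy A z = s)).card
          ≤ (univ : Finset (Fin m)).card := by
        refine card_le_card_of_injOn Prod.fst (fun _ _ => by simp) ?_
        intro z hz w hw e
        rw [mem_coe, mem_filter] at hz hw
        refine Prod.ext e (hA z.1 ?_)
        have h1 := hz.2.trans hw.2.symm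
        unfold sy at h1
        rw [← e] at h1
        exact h1
      rw [card_univ, Fintype.card_fin] at this
      omega
  | succ j ih =>
    intro hj
    obtain ⟨T, U, hT1, hT2, hT3, hU1, hU2⟩ := ih (by omega)
    obtain ⟨M, hMU, hM, hMc, hMs⟩ := one_step hA U (m - j) hU1 hU2 (by omega)
    choose g hg1 hg2 using hMc
    -- the cell of `M` in column `c` is `g c`
    have hgM : ∀ z ∈ M, z = g z.2 := fun z hz => hM.2.1 z hz _ (hg1 _) (hg2 _).symm
    refine ⟨Fin.snoc T (fun c => (g c).1), U \ M, ?_, ?_, ?_, ?_, ?_⟩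
    · intro s
      refine Fin.lastCases ?_ (fun s => ?_) s
      · rw [Fin.snoc_last]
        constructor
        · intro c c' e
          have h1 := hM.1 _ (hg1 c) _ (hg1 c') e
          rw [← hg2 c, ← hg2 c', h1]
        · intro c c' e
          have h1 := hM.2.2 _ (hg1 c) _ (hg1 c') (by
            unfold sy
            rw [hg2, hg2]
            exact e)
          rw [← hg2 c, ← hg2 c', h1]
      · rw [Fin.snoc_castSucc]
        exact hT1 s
    · have hcell : ∀ c, ((g c).1, c) = g c := fun c => Prod.ext rfl (hg2 c).symm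
      intro s s'
      refine Fin.lastCases ?_ (fun s => ?_) s <;> refine Fin.lastCases ?_ (fun s' => ?_) s'
      · intro h; exact absurd rfl h
      · intro _ c
        rw [Fin.snoc_last, Fin.snoc_castSucc]
        intro e
        apply hT3 s' c
        rw [← e, hcell]
        exact hMU (hg1 c)
      · intro _ c
        rw [Fin.snoc_last, Fin.snoc_castSucc]
        intro e
        apply hT3 s c
        rw [e, hcell]
        exact hMU (hg1 c)
      · intro h c
        rw [Fin.snoc_castSucc, Fin.snoc_castSucc]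
        exact hT2 s s' (fun e => h (by rw [e])) c
    · have hcell : ∀ c, ((g c).1, c) = g c := fun c => Prod.ext rfl (hg2 c).symm
      intro s c
      refine Fin.lastCases ?_ (fun s => ?_) s
      · rw [Fin.snoc_last, hcell]
        intro h
        exact (mem_sdiff.1 h).2 (hg1 c)
      · rw [Fin.snoc_castSucc]
        intro h
        exact hT3 s c (mem_sdiff.1 h).1
    · intro c
      have e1 : (U \ M).filter (fun z => z.2 = c) = (U.filter (fun z => z.2 = c)).erase (g c) := by
        ext z
        rw [mem_filter, mem_sdiff, mem_erase, mem_filter]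
        constructor
        · rintro ⟨⟨h1, h2⟩, h3⟩
          exact ⟨fun e => h2 (e ▸ hg1 c), h1, h3⟩
        · rintro ⟨h1, h2, h3⟩
          refine ⟨⟨h2, fun h4 => h1 ?_⟩, h3⟩
          rw [hgM z h4, h3]
      rw [e1, card_erase_of_mem (mem_filter.2 ⟨hMU (hg1 c), hg2 c⟩), hU1]
      omega
    · intro s
      by_cases hs : (U.filter (fun z => sy A z = s)).card = m - j
      · obtain ⟨z, hz, e⟩ := hMs s hs
        have e1 : (U \ M).filter (fun z => sy A z = s) ⊆ (U.filter (fun z => sy A z = s)).erase z := by
          intro w hw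
          rw [mem_filter, mem_sdiff] at hw
          rw [mem_erase, mem_filter]
          exact ⟨fun e' => hw.1.2 (e' ▸ hz), hw.1.1, hw.2⟩
        have e2 := card_le_card e1
        rw [card_erase_of_mem (mem_filter.2 ⟨hMU hz, e⟩), hs] at e2
        omega
      · have e1 : (U \ M).filter (fun z => sy A z = s) ⊆ U.filter (fun z => sy A z = s) :=
          filter_subset_filter _ sdiff_subset
        have e2 := card_le_card e1
        have e3 := hU2 s
        omega

/-- **Quadratic deficiency.** Every `m × n` row-Latin rectangle has at least `m - n (n - 1)`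
pairwise disjoint transversals. -/
theorem quad_deficiency (A : Fin m → Fin n → Fin k) (hA : RowLatin A) :
    HasDisjoint A (m - n * (n - 1)) := by
  by_cases h : n * (n - 1) ≤ m
  · obtain ⟨T, _, h1, h2, -⟩ := iterate hA (m - n * (n - 1)) (by omega)
    exact ⟨T, h1, h2⟩
  · have e : m - n * (n - 1) = 0 := by omega
    rw [e]
    exact ⟨fun s => s.elim0, fun s => s.elim0, fun s => s.elim0⟩

end One

end H884
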